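import Pool.Agent.T2H75.FK.Defs

set_option autoImplicit false

/-!
Package K: elementary facts about the heat kernel and the heat semigroup
`heatP τ φ x = ∫ heatK τ (x - y) φ y dy`.

Useful: `Pool.Agent.X297.KP.Kernel` (`heatK_int1'`, `heatK_integrable'`, `lint_heatK`, `conv_conv`,
`heatK_nonneg`), `Pool.Agent.X297.KP.Sol` (`int_bdd_mul`).
-/

open MeasureTheory Set Filter Topology
open scoped ENNReal InnerProductSpace Laplacian

namespace Pool.Agent.T2H75.FK

open Pool.Agent.X297.KP

noncomputable section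

variable {N : ℕ}

theorem two_rpow_aux {A : ℝ} (hA : 0 < A) :
    (2 : ℝ) ^ ((N : ℝ) / 2) * (2 * A) ^ (-((N : ℝ) / 2)) = A ^ (-((N : ℝ) / 2)) := by
  rw [Real.mul_rpow (by norm_num) hA.le, ← mul_assoc, ← Real.rpow_add (by norm_num), add_neg_cancel,
    Real.rpow_zero, one_mul]

theorem heatK_pos {t : ℝ} (ht : 0 < t) (z : E N) : 0 < heatK t z := by
  unfold heatK; positivity

/-- `G_1(z) e^{|z|²/8} = 2^{N/2} G_2(z)`. -/
theorem heatK_one_mul_exp (z : E N) :
    heatK 1 z * Real.exp (‖z‖ ^ 2 / 8) = 2 ^ ((N : ℝ) / 2) * heatK 2 z := by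
  unfold heatK
  have h1 : (4 * Real.pi * 1) ^ (-((N : ℝ) / 2)) = 2 ^ ((N : ℝ) / 2) * (4 * Real.pi * 2) ^ (-((N : ℝ) / 2)) := by
    have h2 : (4 * Real.pi * 2) = 2 * (4 * Real.pi * 1) := by ring
    rw [h2, two_rpow_aux (by positivity)]
  rw [mul_assoc, ← Real.exp_add, h1, mul_assoc]
  congr 3
  ring

/-- A positive lower bound on bounded sets. -/
theorem heatK_ge {t : ℝ} (ht : 0 < t) (R : ℝ) : ∃ c : ℝ, 0 < c ∧ ∀ z : E N, ‖z‖ ≤ R → c ≤ heatK t z := by
  refine ⟨(4 * Real.pi * t) ^ (-((N : ℝ) / 2)) * Real.exp (-(R ^ 2 / (4 * t))), by positivity,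
    fun z hz => ?_⟩
  unfold heatK
  have h1 : ‖z‖ ^ 2 ≤ R ^ 2 := pow_le_pow_left₀ (norm_nonneg z) hz 2
  gcongr

theorem heatK_le_two {t τ : ℝ} (ht : 0 < t) (h1 : t / 2 ≤ τ) (h2 : τ ≤ t) (z : E N) :
    heatK τ z ≤ 2 ^ ((N : ℝ) / 2) * heatK t z := by
  have hτ : 0 < τ := by linarith
  unfold heatK
  have h3 : (4 * Real.pi * τ) ^ (-((N : ℝ) / 2)) ≤ 2 ^ ((N : ℝ) / 2) * (4 * Real.pi * t) ^ (-((N : ℝ) / 2)) := by
    have h4 : (4 * Real.pi * τ) ^ (-((N : ℝ) / 2)) ≤ (4 * Real.pi * (t / 2)) ^ (-((N : ℝ) / 2)) := by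
      apply Real.rpow_le_rpow_of_nonpos (by positivity)
      · gcongr
      · have : 0 ≤ (N : ℝ) / 2 := by positivity
        linarith
    have h5 : 4 * Real.pi * t = 2 * (4 * Real.pi * (t / 2)) := by ring
    rw [h5, two_rpow_aux (by positivity)]
    exact h4
  have h6 : Real.exp (-(‖z‖ ^ 2 / (4 * τ))) ≤ Real.exp (-(‖z‖ ^ 2 / (4 * t))) := by
    apply Real.exp_le_exp.2
    apply neg_le_neg
    gcongr
  calc _ ≤ (2 ^ ((N : ℝ) / 2) * (4 * Real.pi * t) ^ (-((N : ℝ) / 2))) * Real.exp (-(‖z‖ ^ 2 / (4 * t))) := by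
        gcongr
    _ = _ := by ring

theorem heatP_mono {τ : ℝ} (hτ : 0 < τ) {φ ψ : E N → ℝ} (hφ : Measurable φ) (hψ : Measurable ψ)
    {B : ℝ} (hφB : ∀ y, |φ y| ≤ B) (hψB : ∀ y, |ψ y| ≤ B) (h : ∀ y, φ y ≤ ψ y) (x : E N) :
    heatP τ φ x ≤ heatP τ ψ x := by
  unfold heatP
  apply integral_mono (int_bdd_mul hτ x hφ hφB) (int_bdd_mul hτ x hψ hψB)
  intro y
  exact mul_le_mul_of_nonneg_left (h y) (heatK_nonneg hτ _)

theorem heatP_nonneg {τ : ℝ} (hτ : 0 < τ) {φ : E N → ℝ} (h : ∀ y, 0 ≤ φ y) (x : E N) :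
    0 ≤ heatP τ φ x := by
  unfold heatP
  exact integral_nonneg fun y => mul_nonneg (heatK_nonneg hτ _) (h y)

theorem heatP_const {τ : ℝ} (hτ : 0 < τ) (a : ℝ) (x : E N) :
    heatP τ (fun _ => a) x = a := by
  unfold heatP
  rw [integral_mul_const, heatK_int1' hτ, one_mul]

theorem heatP_smul (τ : ℝ) (a : ℝ) (φ : E N → ℝ) (x : E N) :
    heatP τ (fun y => a * φ y) x = a * heatP τ φ x := by
  unfold heatP
  rw [← integral_const_mul]
  congr 1
  funext y
  ring

theorem heatP_add {τ : ℝ} (hτ : 0 < τ) {φ ψ : E N → ℝ} (hφ : Measurable φ) (hψ : Measurable ψ)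
    {B : ℝ} (hφB : ∀ y, |φ y| ≤ B) (hψB : ∀ y, |ψ y| ≤ B) (x : E N) :
    heatP τ (fun y => φ y + ψ y) x = heatP τ φ x + heatP τ ψ x := by
  unfold heatP
  rw [← integral_add (int_bdd_mul hτ x hφ hφB) (int_bdd_mul hτ x hψ hψB)]
  congr 1
  funext y
  ring

theorem heatP_translate (τ : ℝ) (φ : E N → ℝ) (x h : E N) :
    heatP τ φ (x + h) = heatP τ (fun y => φ (y + h)) x := by
  unfold heatP
  rw [← integral_add_right_eq_self (fun y => heatK τ (x + h - y) * φ y) h]
  congr 1
  funext y
  rw [add_sub_add_right_eq_sub]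

/-- Semigroup property. -/
theorem heatP_heatP {a b : ℝ} (ha : 0 < a) (hb : 0 < b) {φ : E N → ℝ} (hφ : Measurable φ)
    {B : ℝ} (hB : ∀ y, |φ y| ≤ B) (x : E N) :
    heatP a (heatP b φ) x = heatP (a + b) φ x := by
  have hab : 0 < a + b := by positivity
  have hK : ∀ z : E N, ∫ y : E N, heatK a (x - y) * heatK b (y - z) = heatK (a + b) (x - z) := by
    intro z
    have h1 : ∀ y : E N, heatK a (x - y) * heatK b (y - z) = heatK (a + b) (x - z) *
        heatK (a * b / (a + b)) ((a + b)⁻¹ • (b • x + a • z) - y) := fun y => heatK_mul ha hb x y z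
    simp_rw [h1]
    rw [integral_const_mul, heatK_int1' (by positivity), mul_one]
  have hKi : ∀ z : E N, Integrable fun y : E N => heatK a (x - y) * heatK b (y - z) := by
    intro z
    have h1 : (fun y : E N => heatK a (x - y) * heatK b (y - z)) = fun y => heatK (a + b) (x - z) *
        heatK (a * b / (a + b)) ((a + b)⁻¹ • (b • x + a • z) - y) := by
      funext y
      exact heatK_mul ha hb x y z
    rw [h1]
    exact (heatK_integrable' (by positivity) _).const_mul _
  have hca : Continuous fun z : E N => heatK a z := heatK_cont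
  have hcb : Continuous fun z : E N => heatK b z := heatK_cont
  have hmeas : Measurable (fun p : E N × E N => heatK a (x - p.1) * (heatK b (p.1 - p.2) * φ p.2)) := by
    apply Measurable.mul
    · exact (hca.comp (continuous_const.sub continuous_fst)).measurable
    · apply Measurable.mul
      · exact (hcb.comp (continuous_fst.sub continuous_snd)).measurable
      · exact hφ.comp measurable_snd
  have hint : Integrable (fun p : E N × E N => heatK a (x - p.1) * (heatK b (p.1 - p.2) * φ p.2))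
      (volume.prod volume) := by
    rw [integrable_prod_iff' hmeas.aestronglyMeasurable]
    have h2 : ∀ y z : E N, heatK a (x - y) * (heatK b (y - z) * φ z) =
        heatK a (x - y) * heatK b (y - z) * φ z := fun y z => by ring
    constructor
    · refine Eventually.of_forall fun z => ?_
      simp_rw [h2]
      exact (hKi z).mul_const _
    · have h3 : ∀ z : E N, ∫ y : E N, ‖heatK a (x - y) * (heatK b (y - z) * φ z)‖ =
          heatK (a + b) (x - z) * |φ z| := by
        intro z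
        have h4 : ∀ y : E N, ‖heatK a (x - y) * (heatK b (y - z) * φ z)‖ =
            heatK a (x - y) * heatK b (y - z) * |φ z| := by
          intro y
          rw [h2, norm_mul, Real.norm_eq_abs, Real.norm_eq_abs,
            abs_of_nonneg (mul_nonneg (heatK_nonneg ha _) (heatK_nonneg hb _))]
        simp_rw [h4]
        rw [integral_mul_const, hK]
      simp only [h3]
      exact int_bdd_mul hab x hφ.abs (C := B) fun y => by
        rw [abs_abs]
        exact hB y
  unfold heatP
  have h5 : ∀ y : E N, heatK a (x - y) * ∫ z, heatK b (y - z) * φ z =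
      ∫ z, heatK a (x - y) * (heatK b (y - z) * φ z) := fun y => (integral_const_mul _ _).symm
  simp_rw [h5]
  rw [integral_integral_swap hint]
  congr 1
  funext z
  have h6 : ∀ y : E N, heatK a (x - y) * (heatK b (y - z) * φ z) =
      heatK a (x - y) * heatK b (y - z) * φ z := fun y => by ring
  simp_rw [h6]
  rw [integral_mul_const, hK]

/-- Dominated convergence for the heat semigroup. -/
theorem heatP_tendsto {τ : ℝ} (hτ : 0 < τ) {φ : ℕ → E N → ℝ} {ψ : E N → ℝ}
    (hφ : ∀ n, Measurable (φ n)) {B : ℝ} (hB : ∀ᶠ n in atTop, ∀ y, |φ n y| ≤ B)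
    (h : ∀ y, Tendsto (fun n => φ n y) atTop (𝓝 (ψ y))) (x : E N) :
    Tendsto (fun n => heatP τ (φ n) x) atTop (𝓝 (heatP τ ψ x)) := by
  unfold heatP
  apply tendsto_integral_filter_of_dominated_convergence (fun y => heatK τ (x - y) * B)
  · refine Eventually.of_forall fun n => ?_
    have hc : Continuous fun z : E N => heatK τ z := heatK_cont
    exact ((hc.comp (continuous_const.sub continuous_id)).measurable.mul (hφ n)).aestronglyMeasurable
  · filter_upwards [hB] with n hn
    refine Eventually.of_forall fun y => ?_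
    rw [norm_mul, Real.norm_eq_abs, Real.norm_eq_abs, abs_of_nonneg (heatK_nonneg hτ _)]
    exact mul_le_mul_of_nonneg_left (hn y) (heatK_nonneg hτ _)
  · exact (heatK_integrable' hτ x).mul_const B
  · exact Eventually.of_forall fun y => (h y).const_mul _

end

end Pool.Agent.T2H75.FK
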