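import Pool.Agent.T2H75.FK.Dual
import Pool.Agent.T2H75.FK.Ker

set_option autoImplicit false

/-!
Package B1: comparison estimates (from `duality`).

`compare`: put `Z = e^{M(r-s)} (v-w)`; then `Z_r - ΔZ ≤ 2M Z⁺` (if `v ≥ w` use
`f v - f w ≤ M (v-w)`, if `v < w` the right-hand side `M(v-w) + f v - f w` is `≤ 0`).  `duality` on
`[s,t']` for every `t' ∈ (s,t]` gives `Z⁺(t') ≤ G_{t'-s} * Z⁺(s) + ∫_s^{t'} G_{t'-r} * (2M Z⁺(r)) dr`,
and `Pool.Agent.X297.KP.gronwall` (applied to `Z⁺(s+τ)/e^{M(t-s)}`, set to be `0` for `τ > t-s`)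
gives `Z⁺(t) ≤ e^{2M(t-s)} G_{t-s} * Z⁺(s)`.
-/

open MeasureTheory Set Filter Topology
open scoped ENNReal InnerProductSpace Laplacian

namespace Pool.Agent.T2H75.FK

open Pool.Agent.X297.KP

noncomputable section

variable {N : ℕ}

theorem Reg.mono_right {v vt : ℝ → E N → ℝ} {s t t' : ℝ} (h : Reg v vt s t) (ht : t' ≤ t) :
    Reg v vt s t' where
  cont := h.cont.mono (prod_mono (Icc_subset_Icc_right ht) le_rfl)
  dt := fun r hr y => h.dt r ⟨hr.1, hr.2.trans_le ht⟩ y
  dtc := h.dtc.mono (prod_mono (Ioo_subset_Ioo_right ht) le_rfl)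
  sp := fun r hr => h.sp r ⟨hr.1, hr.2.trans_le ht⟩

theorem Reg.cont_slice {v vt : ℝ → E N → ℝ} {s t : ℝ} (h : Reg v vt s t) {r : ℝ}
    (hr : r ∈ Icc s t) : Continuous (v r) :=
  h.cont.comp_continuous (f := fun y : E N => (r, y)) (by fun_prop) (fun _ => ⟨hr, mem_univ _⟩)

/-- `e^{M(r-s)} (v-w)` -/
def zz (M s : ℝ) (v w : ℝ → E N → ℝ) : ℝ → E N → ℝ :=
  fun r y => Real.exp (M * (r - s)) * (v r y - w r y)

def zzt (M s : ℝ) (v w vt wt : ℝ → E N → ℝ) : ℝ → E N → ℝ :=
  fun r y => Real.exp (M * (r - s)) * (M * (v r y - w r y) + (vt r y - wt r y))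

theorem zz_reg (M : ℝ) {v vt w wt : ℝ → E N → ℝ} {s t : ℝ} (hv : Reg v vt s t)
    (hw : Reg w wt s t) : Reg (zz M s v w) (zzt M s v w vt wt) s t where
  cont := by
    have h1 := hv.cont
    have h2 := hw.cont
    have h3 : ContinuousOn (fun p : ℝ × E N => Real.exp (M * (p.1 - s))) (Icc s t ×ˢ univ) := by
      fun_prop
    exact h3.mul (h1.sub h2)
  dt := by
    intro r hr y
    have h1 := hv.dt r hr y
    have h2 := hw.dt r hr y
    have h3 : HasDerivAt (fun r => Real.exp (M * (r - s))) (Real.exp (M * (r - s)) * M) r := by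
      have := (((hasDerivAt_id' r).sub_const s).const_mul M).exp
      simpa using this
    have h4 := h3.mul (h1.sub h2)
    refine h4.congr_deriv ?_
    simp only [zzt, Pi.sub_apply]
    ring
  dtc := by
    have h1 := hv.cont.mono (prod_mono (Ioo_subset_Icc_self (a := s) (b := t)) (le_refl univ))
    have h2 := hw.cont.mono (prod_mono (Ioo_subset_Icc_self (a := s) (b := t)) (le_refl univ))
    have h1' := hv.dtc
    have h2' := hw.dtc
    have h3 : ContinuousOn (fun p : ℝ × E N => Real.exp (M * (p.1 - s))) (Ioo s t ×ˢ univ) := by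
      fun_prop
    exact h3.mul (((h1.sub h2).const_mul M |>.congr (fun p _ => rfl)).add (h1'.sub h2'))
  sp := by
    intro r hr
    exact contDiff_const.mul ((hv.sp r hr).sub (hw.sp r hr))

theorem zz_lap (M : ℝ) {v vt w wt : ℝ → E N → ℝ} {s t : ℝ} (hv : Reg v vt s t)
    (hw : Reg w wt s t) {r : ℝ} (hr : r ∈ Ioo s t) (y : E N) :
    Δ (zz M s v w r) y = Real.exp (M * (r - s)) * (Δ (v r) y - Δ (w r) y) := by
  have h1 : zz M s v w r = Real.exp (M * (r - s)) • (v r - w r) := by
    funext y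
    simp [zz]
  have h2 : ContDiffAt ℝ 2 (v r - w r) y := ((hv.sp r hr).sub (hw.sp r hr)).contDiffAt
  rw [h1, InnerProductSpace.laplacian_smul _ h2,
    ContDiffAt.laplacian_sub (hv.sp r hr).contDiffAt (hw.sp r hr).contDiffAt, smul_eq_mul]

theorem zz_bound {M : ℝ} (hM : 0 ≤ M) {v w : ℝ → E N → ℝ} {s t : ℝ}
    (hv01 : ∀ r ∈ Icc s t, ∀ y, v r y ∈ Icc (0:ℝ) 1)
    (hw01 : ∀ r ∈ Icc s t, ∀ y, w r y ∈ Icc (0:ℝ) 1) {r : ℝ} (hr : r ∈ Icc s t) (y : E N) :
    |zz M s v w r y| ≤ Real.exp (M * (t - s)) := by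
  unfold zz
  rw [abs_mul, Real.abs_exp]
  have h1 : |v r y - w r y| ≤ 1 := by
    have h1 := hv01 r hr y
    have h2 := hw01 r hr y
    rw [abs_le]
    constructor <;> linarith [h1.1, h1.2, h2.1, h2.2]
  have h2 : Real.exp (M * (r - s)) ≤ Real.exp (M * (t - s)) :=
    Real.exp_le_exp.2 (mul_le_mul_of_nonneg_left (by linarith [hr.2]) hM)
  calc Real.exp (M * (r - s)) * |v r y - w r y| ≤ Real.exp (M * (t - s)) * 1 := by gcongr
    _ = _ := mul_one _

theorem zz_dual {f : ℝ → ℝ} {M : ℝ} (hf : NL f M) {v vt w wt : ℝ → E N → ℝ} {s t : ℝ}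
    (hst : s < t) (hv : Reg v vt s t) (hw : Reg w wt s t)
    (hv01 : ∀ r ∈ Icc s t, ∀ y, v r y ∈ Icc (0:ℝ) 1)
    (hw01 : ∀ r ∈ Icc s t, ∀ y, w r y ∈ Icc (0:ℝ) 1)
    (hvs : ∀ r ∈ Ioo s t, ∀ y, vt r y ≤ Δ (v r) y + f (v r y))
    (hws : ∀ r ∈ Ioo s t, ∀ y, Δ (w r) y + f (w r y) ≤ wt r y) (x : E N) :
    zz M s v w t x ≤ heatP (t - s) (zz M s v w s) x +
      ∫ r in s..t, heatP (t - r) (fun y => 2 * M * max (zz M s v w r y) 0) x := by
  have hM := hf.M0
  have hZ := zz_reg M hv hw
  have hb : ∀ r ∈ Icc s t, ∀ y, |zz M s v w r y| ≤ Real.exp (M * (t - s)) :=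
    fun r hr y => zz_bound hM hv01 hw01 hr y
  refine duality (B := (1 + 2 * M) * Real.exp (M * (t - s))) hst hZ ?_ ?_ ?_ ?_ x
  · intro r hr y
    refine (hb r hr y).trans ?_
    have := Real.exp_pos (M * (t - s))
    nlinarith
  · have h1 : ContinuousOn (fun p : ℝ × E N => zz M s v w p.1 p.2) (Ioo s t ×ˢ univ) :=
      hZ.cont.mono (prod_mono Ioo_subset_Icc_self le_rfl)
    exact continuousOn_const.mul (h1.sup continuousOn_const)
  · intro r hr y
    have h1 := hb r (Ioo_subset_Icc_self hr) y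
    rw [abs_mul, abs_of_nonneg (by positivity : 0 ≤ 2 * M), abs_of_nonneg (le_max_right _ _)]
    have h2 : max (zz M s v w r y) 0 ≤ Real.exp (M * (t - s)) :=
      max_le ((le_abs_self _).trans h1) (Real.exp_pos _).le
    have := Real.exp_pos (M * (t - s))
    nlinarith
  · intro r hr y
    rw [zz_lap M hv hw hr]
    have h1 := hvs r hr y
    have h2 := hws r hr y
    have hr' := Ioo_subset_Icc_self hr
    have h3 := hf.lip _ (hv01 r hr' y) _ (hw01 r hr' y)
    have he := Real.exp_pos (M * (r - s))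
    have hmax : max (zz M s v w r y) 0 = Real.exp (M * (r - s)) * max (v r y - w r y) 0 := by
      unfold zz
      rw [mul_max_of_nonneg _ _ he.le, mul_zero]
    rw [hmax]
    unfold zzt
    have h4 : M * (v r y - w r y) + (f (v r y) - f (w r y)) ≤ 2 * M * max (v r y - w r y) 0 := by
      have h5 := (le_abs_self _).trans h3
      rcases le_total (w r y) (v r y) with h | h
      · rw [abs_of_nonneg (by linarith)] at h5
        rw [max_eq_left (by linarith)]
        linarith
      · rw [abs_of_nonpos (by linarith)] at h5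
        rw [max_eq_right (by linarith)]
        linarith
    have h6 : M * (v r y - w r y) + (vt r y - wt r y) ≤
        Δ (v r) y - Δ (w r) y + 2 * M * max (v r y - w r y) 0 := by linarith
    calc Real.exp (M * (r - s)) * (M * (v r y - w r y) + (vt r y - wt r y))
        ≤ Real.exp (M * (r - s)) * (Δ (v r) y - Δ (w r) y + 2 * M * max (v r y - w r y) 0) := by
          gcongr
      _ = _ := by ring

theorem ofReal_le_lint {α : Type*} [MeasurableSpace α] {μ : Measure α} {F : α → ℝ}
    (hF : ∀ᵐ a ∂μ, 0 ≤ F a) : ENNReal.ofReal (∫ a, F a ∂μ) ≤ ∫⁻ a, ENNReal.ofReal (F a) ∂μ := by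
  have h0 : 0 ≤ ∫ a, F a ∂μ := integral_nonneg_of_ae hF
  have h1 := enorm_integral_le_lintegral_enorm (μ := μ) F
  rw [Real.enorm_eq_ofReal h0] at h1
  refine h1.trans (le_of_eq (lintegral_congr_ae ?_))
  filter_upwards [hF] with a ha
  rw [Real.enorm_eq_ofReal ha]

/-- `v` subsolution, `w` supersolution. -/
theorem compare {f : ℝ → ℝ} {M : ℝ} (hf : NL f M) {v vt w wt : ℝ → E N → ℝ} {s t : ℝ}
    (hst : s < t) (hv : Reg v vt s t) (hw : Reg w wt s t)
    (hv01 : ∀ r ∈ Icc s t, ∀ y, v r y ∈ Icc (0:ℝ) 1)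
    (hw01 : ∀ r ∈ Icc s t, ∀ y, w r y ∈ Icc (0:ℝ) 1)
    (hvs : ∀ r ∈ Ioo s t, ∀ y, vt r y ≤ Δ (v r) y + f (v r y))
    (hws : ∀ r ∈ Ioo s t, ∀ y, Δ (w r) y + f (w r y) ≤ wt r y) (x : E N) :
    v t x - w t x ≤
      Real.exp (M * (t - s)) * heatP (t - s) (fun y => max (v s y - w s y) 0) x := by
  have hM := hf.M0
  have hZ := zz_reg M hv hw
  set K : ℝ := Real.exp (M * (t - s)) with hK
  have hK0 : 0 < K := Real.exp_pos _
  set Z := zz M s v w with hZdef
  have hb : ∀ r ∈ Icc s t, ∀ y, |Z r y| ≤ K := fun r hr y => zz_bound hM hv01 hw01 hr y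
  set D0 : E N → ℝ := fun y => max (v s y - w s y) 0 with hD0
  have hsm : s ∈ Icc s t := left_mem_Icc.2 hst.le
  have hvsc : Continuous (v s) := hv.cont_slice hsm
  have hwsc : Continuous (w s) := hw.cont_slice hsm
  have hD0c : Continuous D0 := (hvsc.sub hwsc).max continuous_const
  have hD00 : ∀ y, 0 ≤ D0 y := fun y => le_max_right _ _
  have hD01 : ∀ y, D0 y ≤ 1 := by
    intro y
    have h1 := hv01 s hsm y
    have h2 := hw01 s hsm y
    exact max_le (by linarith [h1.2, h2.1]) zero_le_one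
  have hZs : ∀ y, Z s y ≤ D0 y := by
    intro y
    have : Z s y = v s y - w s y := by simp [hZdef, zz]
    rw [this]
    exact le_max_left _ _
  -- the function for Gronwall
  let d : ℝ → E N → ℝ≥0∞ := fun τ y =>
    if τ ≤ t - s then ENNReal.ofReal (max (Z (s + τ) y) 0 / K) else 0
  have hint : ∀ (τ : ℝ) (_ : 0 < τ) (x : E N),
      ENNReal.ofReal (heatP τ (fun y => D0 y / K) x) =
        ∫⁻ y, ENNReal.ofReal (heatK τ (x - y)) * ENNReal.ofReal (D0 y / K) := by
    intro τ hτ x
    unfold heatP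
    rw [ofReal_integral_eq_lintegral_ofReal]
    · refine lintegral_congr fun y => ?_
      rw [ENNReal.ofReal_mul (heatK_nonneg hτ _)]
    · refine int_bdd_mul hτ x (hD0c.div_const K).measurable (C := 1 / K) fun y => ?_
      rw [abs_of_nonneg (by have := hD00 y; positivity)]
      gcongr
      exact hD01 y
    · refine Eventually.of_forall fun y => ?_
      have h1 := heatK_nonneg hτ (x - y)
      have h2 := hD00 y
      exact mul_nonneg h1 (by positivity)
  have hg := gronwall (d := d) (D := fun y => ENNReal.ofReal (D0 y / K)) (M := 2 * M) ?_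
    (by have := hD0c.measurable; fun_prop) (by positivity) ?_ (t - s) (by linarith) x
  · -- conclusion
    have h1 : d (t - s) x = ENNReal.ofReal (max (Z t x) 0 / K) := by
      simp only [d, le_refl, if_true, add_sub_cancel]
    rw [h1, ← hint (t - s) (by linarith) x, ← ENNReal.ofReal_mul (Real.exp_pos _).le,
      ENNReal.ofReal_le_ofReal_iff] at hg
    · have h2 : heatP (t - s) (fun y => D0 y / K) x = heatP (t - s) D0 x / K := by
        have : (fun y => D0 y / K) = fun y => K⁻¹ * D0 y := by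
          funext y; ring
        rw [this, heatP_smul]; ring
      rw [h2] at hg
      have h3 : max (Z t x) 0 ≤ Real.exp (2 * M * (t - s)) * heatP (t - s) D0 x := by
        rw [← mul_div_assoc] at hg
        exact (div_le_div_iff_of_pos_right hK0).1 hg
      have h4 : Z t x ≤ Real.exp (2 * M * (t - s)) * heatP (t - s) D0 x :=
        (le_max_left _ _).trans h3
      have h5 : Z t x = K * (v t x - w t x) := by simp [hZdef, zz, hK]
      have h6 : Real.exp (2 * M * (t - s)) = K * K := by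
        rw [hK, ← Real.exp_add]; congr 1; ring
      rw [h5, h6, mul_assoc] at h4
      exact le_of_mul_le_mul_left h4 hK0
    · have h2 : 0 ≤ heatP (t - s) (fun y => D0 y / K) x :=
        heatP_nonneg (by linarith) (fun y => by have := hD00 y; positivity) x
      positivity
  · -- bound by 1
    intro τ hτ y
    simp only [d]
    split_ifs with h
    · rw [← ENNReal.ofReal_one]
      refine ENNReal.ofReal_le_ofReal ?_
      rw [div_le_one hK0]
      exact max_le ((le_abs_self _).trans (hb (s + τ) ⟨by linarith, by linarith⟩ y)) hK0.le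
    · exact bot_le
  · -- Duhamel inequality
    intro τ hτ y
    simp only [d]
    split_ifs with h
    swap
    · exact bot_le
    have hst' : s < s + τ := by linarith
    have hle : s + τ ≤ t := by linarith
    have hdual := zz_dual hf hst' (hv.mono_right hle) (hw.mono_right hle)
      (fun r hr y => hv01 r ⟨hr.1, hr.2.trans hle⟩ y) (fun r hr y => hw01 r ⟨hr.1, hr.2.trans hle⟩ y)
      (fun r hr y => hvs r ⟨hr.1, hr.2.trans_le hle⟩ y)
      (fun r hr y => hws r ⟨hr.1, hr.2.trans_le hle⟩ y) y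
    rw [show s + τ - s = τ by ring] at hdual
    have hI : ∫ r in s..(s + τ), heatP (s + τ - r) (fun y => 2 * M * max (Z r y) 0) y =
        ∫ r in (0:ℝ)..τ, heatP (τ - r) (fun y => 2 * M * max (Z (s + r) y) 0) y := by
      have := intervalIntegral.integral_comp_add_left (a := 0) (b := τ)
        (fun r => heatP (s + τ - r) (fun y => 2 * M * max (Z r y) 0) y) s
      rw [add_zero] at this
      rw [← this]
      refine intervalIntegral.integral_congr fun r _ => ?_
      show heatP (s + τ - (s + r)) _ y = heatP (τ - r) _ y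
      congr 1
      ring
    change Z (s + τ) y ≤ heatP τ (Z s) y + ∫ r in s..(s + τ),
      heatP (s + τ - r) (fun y => 2 * M * max (Z r y) 0) y at hdual
    rw [hI] at hdual
    have hnn : ∀ r ∈ Ioo 0 τ, ∀ y, 0 ≤ heatP (τ - r) (fun y => 2 * M * max (Z (s + r) y) 0) y := by
      intro r hr y
      exact heatP_nonneg (by linarith [hr.2]) (fun y => mul_nonneg (by positivity) (le_max_right _ _)) y
    have hI0 : 0 ≤ ∫ r in (0:ℝ)..τ, heatP (τ - r) (fun y => 2 * M * max (Z (s + r) y) 0) y := by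
      rw [intervalIntegral.integral_of_le hτ.le, integral_Ioc_eq_integral_Ioo]
      exact setIntegral_nonneg measurableSet_Ioo fun r hr => hnn r hr y
    have hP0 : 0 ≤ heatP τ D0 y := heatP_nonneg hτ hD00 y
    have hZsc : Continuous (Z s) := hZ.cont_slice hsm
    have h1 : heatP τ (Z s) y ≤ heatP τ D0 y :=
      heatP_mono hτ hZsc.measurable hD0c.measurable (B := max K 1)
        (fun y => (hb s hsm y).trans (le_max_left _ _))
        (fun y => by rw [abs_of_nonneg (hD00 y)]; exact (hD01 y).trans (le_max_right _ _)) hZs y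
    have h2 : max (Z (s + τ) y) 0 ≤ heatP τ D0 y +
        ∫ r in (0:ℝ)..τ, heatP (τ - r) (fun y => 2 * M * max (Z (s + r) y) 0) y :=
      max_le (by linarith) (by linarith)
    have h3 : max (Z (s + τ) y) 0 / K ≤ heatP τ (fun y => D0 y / K) y +
        (∫ r in (0:ℝ)..τ, heatP (τ - r) (fun y => 2 * M * max (Z (s + r) y) 0) y) / K := by
      have e1 : heatP τ (fun y => D0 y / K) y = heatP τ D0 y / K := by
        have : (fun y => D0 y / K) = fun y => K⁻¹ * D0 y := by
          funext y; ring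
        rw [this, heatP_smul]; ring
      rw [e1, ← add_div]
      gcongr
    refine (ENNReal.ofReal_le_ofReal h3).trans ?_
    rw [ENNReal.ofReal_add (heatP_nonneg hτ (fun y => by have := hD00 y; positivity) y)
      (by positivity), hint τ hτ y]
    gcongr
    rw [← intervalIntegral.integral_div, intervalIntegral.integral_of_le hτ.le,
      integral_Ioc_eq_integral_Ioo]
    refine (ofReal_le_lint ?_).trans ?_
    · filter_upwards [ae_restrict_mem measurableSet_Ioo] with r hr
      have := hnn r hr y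
      positivity
    refine setLIntegral_mono' measurableSet_Ioo fun r hr => ?_
    have hτr : 0 < τ - r := by linarith [hr.2]
    have e2 : heatP (τ - r) (fun y => 2 * M * max (Z (s + r) y) 0) y / K =
        ∫ z, heatK (τ - r) (y - z) * (2 * M * (max (Z (s + r) z) 0 / K)) := by
      unfold heatP
      rw [← integral_div]
      refine integral_congr_ae (Eventually.of_forall fun z => ?_)
      simp only
      ring
    rw [e2]
    refine (ofReal_le_lint ?_).trans ?_
    · refine Eventually.of_forall fun z => ?_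
      have h5 := heatK_nonneg hτr (y - z)
      have h6 : 0 ≤ max (Z (s + r) z) 0 := le_max_right _ _
      positivity
    refine lintegral_mono fun z => ?_
    simp only
    rw [if_pos (by linarith [hr.2]), ENNReal.ofReal_mul (heatK_nonneg hτr _),
      ENNReal.ofReal_mul (by positivity : 0 ≤ 2 * M)]

theorem upper_lin {f : ℝ → ℝ} {M : ℝ} (hf : NL f M) {v vt : ℝ → E N → ℝ} {s t : ℝ}
    (hst : s < t) (hv : Reg v vt s t) (hv01 : ∀ r ∈ Icc s t, ∀ y, v r y ∈ Icc (0:ℝ) 1)
    (hvs : ∀ r ∈ Ioo s t, ∀ y, vt r y ≤ Δ (v r) y + f (v r y)) (x : E N) :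
    v t x ≤ Real.exp (M * (t - s)) * heatP (t - s) (v s) x := by
  have hw : Reg (fun _ _ => (0:ℝ)) (fun _ _ => (0:ℝ)) s t (N := N) :=
    ⟨continuousOn_const, fun r _ y => hasDerivAt_const _ _, continuousOn_const,
      fun r _ => contDiff_const⟩
  have h := compare hf hst hv hw hv01 (fun _ _ _ => ⟨le_rfl, zero_le_one⟩) hvs (fun r _ y => by
    rw [hf.zero]
    simp) x
  have e : (fun y => max (v s y - 0) 0) = v s := by
    funext y
    rw [sub_zero, max_eq_left (hv01 s (left_mem_Icc.2 hst.le) y).1]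
  rw [e, sub_zero] at h
  exact h

end

end Pool.Agent.T2H75.FK
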