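import Pool.Agent.T2H75.FK.Cmp

set_option autoImplicit false

/-!
Package B2: lower comparison estimates (from `duality` and `compare`).

`compare`: put `Z = e^{M(r-s)} (v-w)`; then `Z_r - ΔZ ≤ 2M Z⁺` (if `v ≥ w` use
`f v - f w ≤ M (v-w)`, if `v < w` the right-hand side `M(v-w) + f v - f w` is `≤ 0`).  `duality` on
`[s,t']` for every `t' ∈ (s,t]` gives `Z⁺(t') ≤ G_{t'-s} * Z⁺(s) + ∫_s^{t'} G_{t'-r} * (2M Z⁺(r)) dr`,
and `Pool.Agent.X297.KP.gronwall` (applied to `Z⁺(s+τ)/e^{M(t-s)}`, set to be `0` for `τ > t-s`)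
gives `Z⁺(t) ≤ e^{2M(t-s)} G_{t-s} * Z⁺(s)`.

`step_lower`: `Q = e^{M(r-s)} (v-w)`, `(-Q)_r - Δ(-Q) ≤ 2M Q⁻`, `duality` for `-Q`, and
`Q⁻(r) ≤ e^{2M(r-s)} G_{r-s} * (w_s-v_s)⁺` by `compare` on `[s,r]`; the semigroup property gives
`Q(t) ≥ G_{t-s} * Q(s) - (e^{2M(t-s)} - 1) G_{t-s} * (w_s - v_s)⁺`.
-/

open MeasureTheory Set Filter Topology
open scoped ENNReal InnerProductSpace Laplacian

namespace Pool.Agent.T2H75.FK

open Pool.Agent.X297.KP

noncomputable section

variable {N : ℕ}

/-- `v` supersolution, `w` subsolution. -/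
theorem step_lower {f : ℝ → ℝ} {M : ℝ} (hf : NL f M) {v vt w wt : ℝ → E N → ℝ} {s t : ℝ}
    (hst : s < t) (hv : Reg v vt s t) (hw : Reg w wt s t)
    (hv01 : ∀ r ∈ Icc s t, ∀ y, v r y ∈ Icc (0:ℝ) 1)
    (hw01 : ∀ r ∈ Icc s t, ∀ y, w r y ∈ Icc (0:ℝ) 1)
    (hvs : ∀ r ∈ Ioo s t, ∀ y, Δ (v r) y + f (v r y) ≤ vt r y)
    (hws : ∀ r ∈ Ioo s t, ∀ y, wt r y ≤ Δ (w r) y + f (w r y)) (x : E N) :
    Real.exp (-(M * (t - s))) * heatP (t - s) (fun y => v s y - w s y) x -
      Real.exp (M * (t - s)) * heatP (t - s) (fun y => max (w s y - v s y) 0) x ≤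
      v t x - w t x := by
  have hM := hf.M0
  have hdual := zz_dual hf hst hw hv hw01 hv01 hws hvs x
  have hZ := zz_reg M hw hv
  set Z := zz M s w v with hZdef
  set D0 : E N → ℝ := fun y => max (w s y - v s y) 0 with hD0
  have hsm : s ∈ Icc s t := left_mem_Icc.2 hst.le
  have hvsc : Continuous (v s) := hv.cont_slice hsm
  have hwsc : Continuous (w s) := hw.cont_slice hsm
  have hD0c : Continuous D0 := (hwsc.sub hvsc).max continuous_const
  have hD00 : ∀ y, 0 ≤ D0 y := fun y => le_max_right _ _
  have hD01 : ∀ y, D0 y ≤ 1 := by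
    intro y
    have h1 := hv01 s hsm y
    have h2 := hw01 s hsm y
    exact max_le (by linarith [h1.1, h2.2]) zero_le_one
  have hD0b : ∀ y, |D0 y| ≤ 1 := fun y => by rw [abs_of_nonneg (hD00 y)]; exact hD01 y
  have hts : 0 < t - s := by linarith
  set P := heatP (t - s) D0 x with hP
  have hP0 : 0 ≤ P := heatP_nonneg hts hD00 x
  -- bound on the positive part of `Z`
  have hZr : ∀ r ∈ Ioo s t, ∀ y, max (Z r y) 0 ≤ Real.exp (2 * M * (r - s)) * heatP (r - s) D0 y := by
    intro r hr y
    have hle : r ≤ t := hr.2.le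
    have h := compare hf hr.1 (hw.mono_right hle) (hv.mono_right hle)
      (fun q hq y => hw01 q ⟨hq.1, hq.2.trans hle⟩ y) (fun q hq y => hv01 q ⟨hq.1, hq.2.trans hle⟩ y)
      (fun q hq y => hws q ⟨hq.1, hq.2.trans_le hle⟩ y)
      (fun q hq y => hvs q ⟨hq.1, hq.2.trans_le hle⟩ y) y
    have hh0 : 0 ≤ heatP (r - s) D0 y := heatP_nonneg (by linarith [hr.1]) hD00 y
    refine max_le ?_ (by positivity)
    have e1 : Z r y = Real.exp (M * (r - s)) * (w r y - v r y) := rfl
    have e2 : Real.exp (2 * M * (r - s)) = Real.exp (M * (r - s)) * Real.exp (M * (r - s)) := by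
      rw [← Real.exp_add]; congr 1; ring
    rw [e1, e2, mul_assoc]
    gcongr
  -- bound for the integral
  have hI : ∫ r in s..t, heatP (t - r) (fun y => 2 * M * max (Z r y) 0) x ≤
      (Real.exp (2 * M * (t - s)) - 1) * P := by
    have hG : ∫ r in s..t, (2 * M * Real.exp (2 * M * (r - s))) * P =
        (Real.exp (2 * M * (t - s)) - 1) * P := by
      rw [intervalIntegral.integral_mul_const]
      congr 1
      have := intervalIntegral.integral_eq_sub_of_hasDerivAt (a := s) (b := t)
        (f := fun r => Real.exp (2 * M * (r - s))) (f' := fun r => 2 * M * Real.exp (2 * M * (r - s)))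
        (fun r _ => by
          have := (((hasDerivAt_id' r).sub_const s).const_mul (2 * M)).exp
          refine this.congr_deriv ?_
          ring) (Continuous.intervalIntegrable (by fun_prop) _ _)
      rw [this]
      simp
    rw [← hG, intervalIntegral.integral_of_le hst.le, intervalIntegral.integral_of_le hst.le,
      integral_Ioc_eq_integral_Ioo, integral_Ioc_eq_integral_Ioo]
    refine integral_mono_of_nonneg ?_ ?_ ?_
    · filter_upwards [ae_restrict_mem measurableSet_Ioo] with r hr
      exact heatP_nonneg (by linarith [hr.2])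
        (fun y => mul_nonneg (by positivity) (le_max_right _ _)) x
    · exact ((by fun_prop : Continuous fun r : ℝ =>
        (2 * M * Real.exp (2 * M * (r - s))) * P).integrableOn_Icc (a := s) (b := t)).mono_set
          Ioo_subset_Icc_self
    · filter_upwards [ae_restrict_mem measurableSet_Ioo] with r hr
      have hrI : r ∈ Icc s t := Ioo_subset_Icc_self hr
      have hZc : Continuous (Z r) := hZ.cont_slice hrI
      have h1 : 0 < t - r := by linarith [hr.2]
      have h2 : 0 < r - s := by linarith [hr.1]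
      have hPm : Measurable (heatP (r - s) D0) := by
        have h3 : Measurable (fun p : E N × E N => heatK (r - s) (p.1 - p.2) * D0 p.2) := by
          refine Measurable.mul ?_ (hD0c.measurable.comp measurable_snd)
          exact (heatK_cont (N := N) (t := r - s)).measurable.comp (by fun_prop)
        exact (h3.stronglyMeasurable.integral_prod_right').measurable
      have hPb : ∀ y, |heatP (r - s) D0 y| ≤ 1 := by
        intro y
        rw [abs_of_nonneg (heatP_nonneg h2 hD00 y)]
        have := heatP_mono h2 hD0c.measurable measurable_const (B := 1) (ψ := fun _ => (1:ℝ)) hD0b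
          (fun y => by simp) hD01 y
        rwa [heatP_const h2] at this
      have h4 : heatP (t - r) (fun y => 2 * M * max (Z r y) 0) x ≤
          heatP (t - r) (fun y => (2 * M * Real.exp (2 * M * (r - s))) * heatP (r - s) D0 y) x := by
        refine heatP_mono h1 ?_ ?_ (B := 2 * M * Real.exp (2 * M * (r - s))) ?_ ?_ ?_ x
        · exact (continuous_const.mul (hZc.max continuous_const)).measurable
        · exact hPm.const_mul _
        · intro y
          have h5 := hZr r hr y
          have h6 : 0 ≤ max (Z r y) 0 := le_max_right _ _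
          rw [abs_of_nonneg (mul_nonneg (by positivity) h6)]
          have h7 : heatP (r - s) D0 y ≤ 1 := (le_abs_self _).trans (hPb y)
          have h8 : max (Z r y) 0 ≤ Real.exp (2 * M * (r - s)) := by
            refine h5.trans ?_
            have := Real.exp_pos (2 * M * (r - s))
            nlinarith
          gcongr
        · intro y
          rw [abs_mul, abs_of_nonneg (by positivity : 0 ≤ 2 * M * Real.exp (2 * M * (r - s)))]
          have := hPb y
          have h9 : 0 ≤ 2 * M * Real.exp (2 * M * (r - s)) := by positivity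
          nlinarith
        · intro y
          have h12 := mul_le_mul_of_nonneg_left (hZr r hr y) (by positivity : 0 ≤ 2 * M)
          rwa [← mul_assoc] at h12
      refine h4.trans (le_of_eq ?_)
      rw [heatP_smul, heatP_heatP h1 h2 hD0c.measurable hD0b, hP,
        show t - r + (r - s) = t - s by ring]
  have e0 : heatP (t - s) (Z s) x = - heatP (t - s) (fun y => v s y - w s y) x := by
    have : Z s = fun y => (-1) * (v s y - w s y) := by
      funext y
      simp [hZdef, zz]
    rw [this, heatP_smul]
    ring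
  have e1 : Z t x = - (Real.exp (M * (t - s)) * (v t x - w t x)) := by
    simp only [hZdef, zz]
    ring
  rw [e0, e1] at hdual
  have h10 : heatP (t - s) (fun y => v s y - w s y) x - (Real.exp (2 * M * (t - s)) - 1) * P ≤
      Real.exp (M * (t - s)) * (v t x - w t x) := by linarith
  have hK : 0 < Real.exp (-(M * (t - s))) := Real.exp_pos _
  have h11 := mul_le_mul_of_nonneg_left h10 hK.le
  have e3 : Real.exp (-(M * (t - s))) * (Real.exp (M * (t - s)) * (v t x - w t x)) =
      v t x - w t x := by
    rw [← mul_assoc, ← Real.exp_add]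
    simp
  have e4 : Real.exp (-(M * (t - s))) * (heatP (t - s) (fun y => v s y - w s y) x -
      (Real.exp (2 * M * (t - s)) - 1) * P) =
      Real.exp (-(M * (t - s))) * heatP (t - s) (fun y => v s y - w s y) x -
        Real.exp (M * (t - s)) * P + Real.exp (-(M * (t - s))) * P := by
    have : Real.exp (M * (t - s)) = Real.exp (-(M * (t - s))) * Real.exp (2 * M * (t - s)) := by
      rw [← Real.exp_add]; congr 1; ring
    rw [this]; ring
  rw [e3, e4] at h11
  have : 0 ≤ Real.exp (-(M * (t - s))) * P := by positivity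
  linarith

theorem lower_lin {f : ℝ → ℝ} {M : ℝ} (hf : NL f M) {v vt : ℝ → E N → ℝ} {s t : ℝ}
    (hst : s < t) (hv : Reg v vt s t) (hv01 : ∀ r ∈ Icc s t, ∀ y, v r y ∈ Icc (0:ℝ) 1)
    (hvs : ∀ r ∈ Ioo s t, ∀ y, Δ (v r) y + f (v r y) ≤ vt r y) (x : E N) :
    heatP (t - s) (v s) x ≤ v t x := by
  have hw : Reg (fun r y => - v r y) (fun r y => - vt r y) s t (N := N) :=
    ⟨hv.cont.neg, fun r hr y => (hv.dt r hr y).neg, hv.dtc.neg, fun r hr => (hv.sp r hr).neg⟩
  have h := duality (B := 1) (h := fun _ _ => (0:ℝ)) hst hw ?_ continuousOn_const ?_ ?_ x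
  · have e1 : heatP (t - s) (fun y => - v s y) x = - heatP (t - s) (v s) x := by
      have : (fun y => - v s y) = fun y => (-1) * v s y := by
        funext y; ring
      rw [this, heatP_smul]; ring
    have e2 : ∀ r, heatP (t - r) (fun _ => (0:ℝ)) x = 0 := by
      intro r
      simp [heatP]
    simp only [e2, intervalIntegral.integral_zero, add_zero, e1] at h
    linarith
  · intro r hr y
    have := hv01 r hr y
    rw [abs_neg, abs_of_nonneg this.1]
    exact this.2
  · intro r _ y
    simp
  · intro r hr y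
    have h1 := hvs r hr y
    have h2 := hf.nonneg _ (hv01 r (Ioo_subset_Icc_self hr) y)
    have h3 : Δ (fun y => - v r y) y = - Δ (v r) y := by
      have := congrFun (InnerProductSpace.laplacian_neg (f := v r)) y
      exact this
    rw [h3]
    linarith

end

end Pool.Agent.T2H75.FK
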