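import Pool.Agent.X297.KP.Lim

set_option autoImplicit false

/-!
# MP_b84e2d_an: definitions

Fisher-KPP equation `∂_t u = Δu + f(u)` with initial datum the indicator function of a set.
-/

open MeasureTheory Set Filter Topology
open scoped ENNReal InnerProductSpace Laplacian

namespace Pool.Agent.T2H75.FK

open Pool.Agent.X297.KP

noncomputable section

variable {N : ℕ}

/-- `f` is a Fisher-KPP nonlinearity: `f ∈ C¹([0,1])`, `f(0) = f(1) = 0`, `f > 0` on `(0,1)` and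
`s ↦ f(s)/s` is nonincreasing on `(0,1]`. -/
structure IsFisherKPP (f : ℝ → ℝ) : Prop where
  contDiff : ContDiffOn ℝ 1 f (Icc 0 1)
  zero : f 0 = 0
  one : f 1 = 0
  pos : ∀ s ∈ Ioo (0:ℝ) 1, 0 < f s
  anti : AntitoneOn (fun s => f s / s) (Ioc 0 1)

/-- `u` is the bounded classical solution `u_U` of `∂_t u = Δu + f(u)` for `t > 0`, `x ∈ ℝ^N`: it
has values in `[0,1]`, it is `C¹` in `(t,x)` and `C²` in `x` (with `D²_x u` continuous in `(t,x)`)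
for `t > 0`, it satisfies the equation, and `u(t,·) → 1_U` in `L¹_loc` as `t → 0+`. -/
structure IsClassicalSolution (f : ℝ → ℝ) (U : Set (E N)) (u : ℝ → E N → ℝ) : Prop where
  range : ∀ t, 0 < t → ∀ x, u t x ∈ Icc (0:ℝ) 1
  contDiff_one : ContDiffOn ℝ 1 (fun p : ℝ × E N => u p.1 p.2) (Ioi 0 ×ˢ univ)
  contDiff_two : ∀ t, 0 < t → ContDiff ℝ 2 (u t)
  cont_two : ContinuousOn (fun p : ℝ × E N => iteratedFDeriv ℝ 2 (u p.1) p.2) (Ioi 0 ×ˢ univ)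
  eq : ∀ t, 0 < t → ∀ x, deriv (fun s => u s x) t = Δ (u t) x + f (u t x)
  initial : ∀ R : ℝ, Tendsto (fun t => ∫ x in Metric.ball (0 : E N) R, |u t x - U.indicator 1 x|)
    (𝓝[>] 0) (𝓝 0)

/-- Condition (H): there is `δ > 0` with `d_H(U, U_δ) < ∞`, where
`U_δ = {x ∈ U : dist(x, ∂U) ≥ δ}`. -/
def CondH (U : Set (E N)) : Prop := ∃ δ : ℝ, 0 < δ ∧ Metric.hausdorffEDist U (shrink U δ) < ⊤

/-- `ψ` is one-dimensional: `ψ(x) = Ψ(x·e)` for some unit vector `e` and some `Ψ ∈ C²(ℝ)`. -/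
def OneDimC2 (ψ : E N → ℝ) : Prop :=
  ∃ e : E N, ‖e‖ = 1 ∧ ∃ Ψ : ℝ → ℝ, ContDiff ℝ 2 Ψ ∧ ψ =ᵐ[volume] fun x => Ψ (inner ℝ x e)

/-- `u` is asymptotically locally planar: every element of `Ω(u)` is one-dimensional. -/
def Planar (u : ℝ → E N → ℝ) : Prop := ∀ ψ ∈ OmegaLimit u, OneDimC2 ψ

/-! ## Working definitions -/

/-- The heat semigroup. -/
def heatP (τ : ℝ) (φ : E N → ℝ) (x : E N) : ℝ := ∫ y, heatK τ (x - y) * φ y

/-- The properties of `f` used in the proofs. -/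
structure NL (f : ℝ → ℝ) (M : ℝ) : Prop where
  M0 : 0 ≤ M
  cont : ContinuousOn f (Icc 0 1)
  lip : ∀ a ∈ Icc (0:ℝ) 1, ∀ b ∈ Icc (0:ℝ) 1, |f a - f b| ≤ M * |a - b|
  zero : f 0 = 0
  nonneg : ∀ s ∈ Icc (0:ℝ) 1, 0 ≤ f s
  sub : ∀ κ ∈ Icc (0:ℝ) 1, ∀ s ∈ Icc (0:ℝ) 1, κ * f s ≤ f (κ * s)

/-- Regularity on the time interval `[s,t]`: `v` is continuous on `[s,t] × ℝ^N`, it has a time
derivative `vt` which is continuous on `(s,t) × ℝ^N`, and it is `C²` in space. -/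
structure Reg (v vt : ℝ → E N → ℝ) (s t : ℝ) : Prop where
  cont : ContinuousOn (fun p : ℝ × E N => v p.1 p.2) (Icc s t ×ˢ univ)
  dt : ∀ r ∈ Ioo s t, ∀ y, HasDerivAt (fun r => v r y) (vt r y) r
  dtc : ContinuousOn (fun p : ℝ × E N => vt p.1 p.2) (Ioo s t ×ˢ univ)
  sp : ∀ r ∈ Ioo s t, ContDiff ℝ 2 (v r)

end

end Pool.Agent.T2H75.FK
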