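import Pool.Agent.T2H75.FK.DualD

set_option autoImplicit false

/-!
Package A: the duality inequality.  If `v_t ≤ Δv + h` on `(s,t) × ℝ^N`, `v`, `h` bounded, then
`v(t) ≤ G_{t-s} * v(s) + ∫_s^t G_{t-r} * h(r) dr`.

Proof.  Let `χ_R(y) = ρ(y/R)`, `ρ` a smooth bump function equal to `1` near `0` with compact support
(e.g. a `ContDiffBump`), and `I_R(r) = ∫ G_{t-r}(x-y) χ_R(y) v(r,y) dy` for `r ∈ [s, t-ε]`.  Then
`I_R` is continuous on `[s,t-ε]`, differentiable inside, with
`I_R' = ∫ (-∂_τ G)(t-r, x-y) χ_R v + G χ_R v_t ≤ ∫ -(ΔG) χ_R v + G χ_R (Δv + h)`, and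
`∫ G χ_R Δv = ∫ Δ(G χ_R) v = ∫ (ΔG χ_R + 2 ∇G·∇χ_R + G Δχ_R) v` (two integrations by parts, compact
support; Mathlib: `integral_mul_fderiv_eq_neg_fderiv_mul_of_integrable`, and
`InnerProductSpace.laplacian_eq_iteratedFDeriv_orthonormalBasis`).  Hence
`I_R' ≤ ∫ G χ_R h + ∫ (2∇G·∇χ_R + G Δχ_R) v`.  Integrate over `[s,t-ε]`
(`intervalIntegral.sub_le_integral_of_hasDeriv_right_of_le`), let `R → ∞` (dominated convergence;
`∇χ_R = O(1/R)`, `Δχ_R = O(1/R²)`), then `ε → 0` (`G_ε * v(t-ε)(x) → v(t,x)` because `v` is bounded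
and continuous on `[s,t] × ℝ^N`).
-/

open MeasureTheory Set Filter Topology
open scoped ENNReal InnerProductSpace Laplacian

namespace Pool.Agent.T2H75.FK

open Pool.Agent.X297.KP

noncomputable section

variable {N : ℕ}

namespace DualAux

theorem heatP_bound {τ : ℝ} (hτ : 0 < τ) {g : E N → ℝ} {B : ℝ} (hB : ∀ y, |g y| ≤ B) (x : E N) :
    |heatP τ g x| ≤ B := by
  unfold heatP
  calc |∫ y, heatK τ (x - y) * g y| ≤ ∫ y, |heatK τ (x - y) * g y| := abs_integral_le_integral_abs
    _ ≤ ∫ y, heatK τ (x - y) * B := by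
        apply integral_mono_of_nonneg (Eventually.of_forall fun y => abs_nonneg _)
          ((heatK_integrable' hτ x).mul_const _)
        refine Eventually.of_forall fun y => ?_
        simp only
        rw [abs_mul, abs_of_nonneg (heatK_nonneg hτ _)]
        exact mul_le_mul_of_nonneg_left (hB y) (heatK_nonneg hτ _)
    _ = B := by rw [integral_mul_const, heatK_int1' hτ, one_mul]

theorem heatP_intOn {h : ℝ → E N → ℝ} {s t B : ℝ}
    (hhc : ContinuousOn (fun p : ℝ × E N => h p.1 p.2) (Ioo s t ×ˢ univ))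
    (hhB : ∀ r ∈ Ioo s t, ∀ y, |h r y| ≤ B) (x : E N) :
    IntegrableOn (fun r => heatP (t - r) (h r) x) (Icc s t) := by
  rw [integrableOn_Icc_iff_integrableOn_Ioo]
  have hHm : Measurable ((Ioo s t ×ˢ univ : Set (ℝ × E N)).indicator
      (fun p : ℝ × E N => h p.1 p.2)) := by
    classical
    rw [← Set.piecewise_eq_indicator]
    exact hhc.measurable_piecewise continuousOn_const (measurableSet_Ioo.prod MeasurableSet.univ)
  have hm : StronglyMeasurable (fun r => ∫ y, heatK (t - r) (x - y) *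
      ((Ioo s t ×ˢ univ : Set (ℝ × E N)).indicator (fun p : ℝ × E N => h p.1 p.2)) (r, y)) := by
    apply StronglyMeasurable.integral_prod_right
      (f := fun r y => heatK (t - r) (x - y) *
        ((Ioo s t ×ˢ univ : Set (ℝ × E N)).indicator (fun p : ℝ × E N => h p.1 p.2)) (r, y))
    apply Measurable.stronglyMeasurable
    apply Measurable.mul
    · exact heatK_meas.comp (f := fun q : ℝ × E N => (t - q.1, x - q.2)) (by fun_prop)
    · exact hHm
  have hm2 : AEStronglyMeasurable (fun r => heatP (t - r) (h r) x)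
      (volume.restrict (Ioo s t)) := by
    refine hm.aestronglyMeasurable.congr ?_
    filter_upwards [ae_restrict_mem measurableSet_Ioo] with r hr
    unfold heatP
    congr 1
    funext y
    rw [indicator_of_mem]
    exact ⟨hr, mem_univ _⟩
  have : IsFiniteMeasure (volume.restrict (Ioo s t)) := ⟨by simp⟩
  apply Integrable.of_bound hm2 B
  filter_upwards [ae_restrict_mem measurableSet_Ioo] with r hr
  exact heatP_bound (by linarith [hr.2]) (hhB r hr) x

/-- The inequality up to a time `t' < t`. -/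
theorem step {v vt h : ℝ → E N → ℝ} {s t B : ℝ} (hv : Reg v vt s t)
    (hB : ∀ r ∈ Icc s t, ∀ y, |v r y| ≤ B)
    (hhc : ContinuousOn (fun p : ℝ × E N => h p.1 p.2) (Ioo s t ×ˢ univ))
    (hhB : ∀ r ∈ Ioo s t, ∀ y, |h r y| ≤ B)
    (hle : ∀ r ∈ Ioo s t, ∀ y, vt r y ≤ Δ (v r) y + h r y) (x : E N) {t' : ℝ}
    (ht' : t' ∈ Ioo s t) :
    heatP (t - t') (v t') x ≤
      heatP (t - s) (v s) x + ∫ r in s..t', heatP (t - r) (h r) x := by
  have hst : s < t := ht'.1.trans ht'.2
  have hB0 : 0 ≤ B := (abs_nonneg _).trans (hB s ⟨le_rfl, hst.le⟩ x)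
  obtain ⟨C, hC, hcut⟩ := exists_cutoff N
  have hc2 := c2_pos N
  have hτ' : 0 < t - t' := by linarith [ht'.2]
  have hτs : 0 < t - s := by linarith
  set E1 : ℝ := B * (‖x‖ + 1 + 8 * (t - s) * c2 N) with hE1
  set E2 : ℝ := C * (N / (t - t') * (1 + 8 * (t - s) * c2 N) + 1) * B with hE2
  have hE10 : 0 ≤ E1 := by positivity
  have hE20 : 0 ≤ E2 := by positivity
  set E3 : ℝ := (E1 + E2) * (t' - s) + 2 * E1 with hE3
  have hs't : 0 ≤ t' - s := by linarith [ht'.1]
  have hE30 : 0 ≤ E3 := by positivity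
  have hint : IntegrableOn (fun r => heatP (t - r) (h r) x) (Icc s t') :=
    (heatP_intOn hhc hhB x).mono_set (Icc_subset_Icc_right ht'.2.le)
  have key : ∀ R : ℝ, 1 ≤ R → heatP (t - t') (v t') x ≤
      heatP (t - s) (v s) x + (∫ r in s..t', heatP (t - r) (h r) x) + E3 / R := by
    intro R hR
    have hR0 : 0 < R := by linarith
    obtain ⟨χ, hχ, hc, h0, h1, hχR, hD1, hD2⟩ := hcut R hR
    have c1 : II χ v t x t' - II χ v t x s ≤
        ∫ r in s..t', (heatP (t - r) (h r) x + (E1 + E2) / R) := by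
      apply intervalIntegral.sub_le_integral_of_hasDeriv_right_of_le ht'.1.le
        (II_contOn hχ.continuous hc ht'.2 hv.cont x)
        (fun r hr => (II_deriv hχ.continuous hc hv x ⟨hr.1, hr.2.trans ht'.2⟩).hasDerivWithinAt)
      · exact hint.add (integrableOn_const (by simp))
      · intro r hr
        have hr2 : r ∈ Ioo s t := ⟨hr.1, hr.2.trans ht'.2⟩
        have hτ : 0 < t - r := by linarith [hr2.2]
        have hvr : ∀ y, |v r y| ≤ B := hB r (Ioo_subset_Icc_self hr2)
        have d1 := FF_int_le hχ hc h0 hv hhc hle x hr2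
        have d2 := er_int_le hχ hτ hC hR0 hD1 hD2 x hB0 hvr
        have d3 := cut_close hχ.continuous h0 h1 hR0 hχR hτ (slice_cont hhc hr2) (hhB r hr2) x
        have d4 : B * (‖x‖ + 1 + 8 * (t - r) * c2 N) / R ≤ E1 / R := by
          rw [hE1]
          gcongr
          exact hr.1.le
        have d5 : C / R * (N / (t - r) * (1 + 8 * (t - r) * c2 N) + 1) * B ≤ E2 / R := by
          have : E2 / R = C / R * (N / (t - t') * (1 + 8 * (t - s) * c2 N) + 1) * B := by
            rw [hE2]; ring
          rw [this]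
          have g1 : t - t' ≤ t - r := by linarith [hr.2]
          have g2 : t - r ≤ t - s := by linarith [hr.1]
          gcongr
        have d6 := (abs_le.1 d3).2
        have d7 : (E1 + E2) / R = E1 / R + E2 / R := add_div _ _ _
        rw [d7]
        linarith
    have c2' : ∫ r in s..t', (heatP (t - r) (h r) x + (E1 + E2) / R) =
        (∫ r in s..t', heatP (t - r) (h r) x) + (t' - s) * ((E1 + E2) / R) := by
      rw [intervalIntegral.integral_add _ (intervalIntegrable_const)]
      · simp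
        ring
      · rw [intervalIntegrable_iff_integrableOn_Icc_of_le ht'.1.le]
        exact hint
    have c3 := cut_close hχ.continuous h0 h1 hR0 hχR hτ'
      (slice_cont hv.cont (Ioo_subset_Icc_self ht')) (hB t' (Ioo_subset_Icc_self ht')) x
    have c4 := cut_close hχ.continuous h0 h1 hR0 hχR hτs
      (slice_cont hv.cont ⟨le_rfl, hst.le⟩) (hB s ⟨le_rfl, hst.le⟩) x
    have c5 : B * (‖x‖ + 1 + 8 * (t - t') * c2 N) / R ≤ E1 / R := by
      rw [hE1]
      gcongr
      exact ht'.1.le
    have c6 := (abs_le.1 c3).1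
    have c7 := (abs_le.1 c4).2
    have c8 : E3 / R = (t' - s) * ((E1 + E2) / R) + E1 / R + E1 / R := by
      rw [hE3]; ring
    unfold II at c1
    rw [c8]
    linarith
  apply le_of_forall_pos_le_add
  intro ε hε
  have h2 := key (max 1 (E3 / ε)) (le_max_left _ _)
  have h3 : E3 / max 1 (E3 / ε) ≤ ε := by
    rw [div_le_iff₀ (lt_of_lt_of_le one_pos (le_max_left _ _))]
    have h4 : E3 / ε ≤ max 1 (E3 / ε) := le_max_right _ _
    rw [div_le_iff₀ hε] at h4
    linarith
  linarith

/-- The approximation of the identity. -/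
theorem approx {v : ℝ → E N → ℝ} {s t B : ℝ} (hst : s < t)
    (hv : ContinuousOn (fun p : ℝ × E N => v p.1 p.2) (Icc s t ×ˢ univ))
    (hB : ∀ r ∈ Icc s t, ∀ y, |v r y| ≤ B) (x : E N) :
    Tendsto (fun t' => heatP (t - t') (v t') x) (𝓝[<] t) (𝓝 (v t x)) := by
  have hB0 : 0 ≤ B := (abs_nonneg _).trans (hB s ⟨le_rfl, hst.le⟩ x)
  have hc2 := c2_pos N
  rw [Metric.tendsto_nhdsWithin_nhds]
  intro ε hε
  have hc := hv (t, x) ⟨⟨hst.le, le_rfl⟩, mem_univ _⟩
  obtain ⟨δ, hδ, hd⟩ := Metric.continuousWithinAt_iff.1 hc (ε / 2) (half_pos hε)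
  obtain ⟨η, hη, hη2⟩ : ∃ η : ℝ, 0 < η ∧ 2 * B / δ ^ 2 * (8 * η * c2 N) < ε / 2 := by
    refine ⟨(ε / 2) / (16 * B * c2 N / δ ^ 2 + 1), by positivity, ?_⟩
    have h1 : 0 ≤ 16 * B * c2 N / δ ^ 2 := by positivity
    have h2 : 2 * B / δ ^ 2 * (8 * ((ε / 2) / (16 * B * c2 N / δ ^ 2 + 1)) * c2 N) =
        (ε / 2) * ((16 * B * c2 N / δ ^ 2) / (16 * B * c2 N / δ ^ 2 + 1)) := by
      field_simp
      ring
    rw [h2]
    have h3 : (16 * B * c2 N / δ ^ 2) / (16 * B * c2 N / δ ^ 2 + 1) < 1 := by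
      rw [div_lt_one (by positivity)]
      linarith
    have h4 : 0 < ε / 2 := by positivity
    nlinarith
  refine ⟨min (min δ η) (t - s), lt_min (lt_min hδ hη) (by linarith), ?_⟩
  intro t' ht' hdist
  have ht'' : t' < t := ht'
  rw [Real.dist_eq, abs_sub_comm, abs_of_pos (by linarith : 0 < t - t')] at hdist
  have hm1 : t - t' < δ := lt_of_lt_of_le hdist ((min_le_left _ _).trans (min_le_left _ _))
  have hm2 : t - t' < η := lt_of_lt_of_le hdist ((min_le_left _ _).trans (min_le_right _ _))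
  have hm3 : t - t' < t - s := lt_of_lt_of_le hdist (min_le_right _ _)
  have hτ : 0 < t - t' := by linarith
  have htm : t' ∈ Icc s t := ⟨by linarith, ht''.le⟩
  have hvc : Continuous (v t') := slice_cont hv htm
  have i1 : Integrable (fun y => heatK (t - t') (x - y) * v t' y) :=
    int_bdd_mul hτ x hvc.measurable (hB t' htm)
  have e1 : heatP (t - t') (v t') x - v t x =
      ∫ y, heatK (t - t') (x - y) * (v t' y - v t x) := by
    unfold heatP
    have : v t x = ∫ y, heatK (t - t') (x - y) * v t x := by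
      rw [integral_mul_const, heatK_int1' hτ, one_mul]
    conv_lhs => rw [this]
    rw [← integral_sub i1 ((heatK_integrable' hτ x).mul_const _)]
    congr 1
    funext y
    ring
  rw [Real.dist_eq, e1]
  have i2 : Integrable (fun y => heatK (t - t') (x - y) * (ε / 2) +
      2 * B / δ ^ 2 * (‖x - y‖ ^ 2 * heatK (t - t') (x - y))) :=
    ((heatK_integrable' hτ x).mul_const _).add ((sq_integrable hτ x).const_mul _)
  calc |∫ y, heatK (t - t') (x - y) * (v t' y - v t x)|
      ≤ ∫ y, |heatK (t - t') (x - y) * (v t' y - v t x)| := abs_integral_le_integral_abs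
    _ ≤ ∫ y, (heatK (t - t') (x - y) * (ε / 2) +
        2 * B / δ ^ 2 * (‖x - y‖ ^ 2 * heatK (t - t') (x - y))) := by
        apply integral_mono_of_nonneg (Eventually.of_forall fun y => abs_nonneg _) i2
        refine Eventually.of_forall fun y => ?_
        have hk := heatK_nonneg hτ (x - y)
        simp only
        rw [abs_mul, abs_of_nonneg hk]
        by_cases hy : ‖x - y‖ < δ
        · have h5 : |v t' y - v t x| < ε / 2 := by
            have := hd (x := (t', y)) ⟨htm, mem_univ _⟩ (by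
              rw [Prod.dist_eq, max_lt_iff]
              constructor
              · simp only [Real.dist_eq]
                rw [abs_sub_comm, abs_of_pos hτ]
                exact hm1
              · simp only
                rw [dist_comm, dist_eq_norm]
                exact hy)
            exact this
          have h6 : 0 ≤ 2 * B / δ ^ 2 * (‖x - y‖ ^ 2 * heatK (t - t') (x - y)) := by positivity
          have h7 := mul_le_mul_of_nonneg_left h5.le hk
          linarith
        · push Not at hy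
          have h5 : |v t' y - v t x| ≤ 2 * B := by
            have a1 := abs_le.1 (hB t' htm y)
            have a2 := abs_le.1 (hB t ⟨hst.le, le_rfl⟩ x)
            rw [abs_le]
            constructor <;> linarith [a1.1, a1.2, a2.1, a2.2]
          have h6 : 2 * B ≤ 2 * B / δ ^ 2 * ‖x - y‖ ^ 2 := by
            rw [div_mul_eq_mul_div, le_div_iff₀ (by positivity)]
            gcongr
          have h7 := mul_le_mul_of_nonneg_left (h5.trans h6) hk
          have h8 : 0 ≤ heatK (t - t') (x - y) * (ε / 2) := by positivity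
          linarith
    _ = ε / 2 + 2 * B / δ ^ 2 * ∫ y, ‖x - y‖ ^ 2 * heatK (t - t') (x - y) := by
        rw [integral_add ((heatK_integrable' hτ x).mul_const _)
          ((sq_integrable hτ x).const_mul _), integral_mul_const, integral_const_mul,
          heatK_int1' hτ, one_mul]
    _ ≤ ε / 2 + 2 * B / δ ^ 2 * (8 * (t - t') * c2 N) := by
        gcongr
        exact int_sq_le hτ x
    _ ≤ ε / 2 + 2 * B / δ ^ 2 * (8 * η * c2 N) := by gcongr
    _ < ε := by linarith

end DualAux

theorem duality {v vt h : ℝ → E N → ℝ} {s t B : ℝ} (hst : s < t) (hv : Reg v vt s t)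
    (hB : ∀ r ∈ Icc s t, ∀ y, |v r y| ≤ B)
    (hhc : ContinuousOn (fun p : ℝ × E N => h p.1 p.2) (Ioo s t ×ˢ univ))
    (hhB : ∀ r ∈ Ioo s t, ∀ y, |h r y| ≤ B)
    (hle : ∀ r ∈ Ioo s t, ∀ y, vt r y ≤ Δ (v r) y + h r y) (x : E N) :
    v t x ≤ heatP (t - s) (v s) x + ∫ r in s..t, heatP (t - r) (h r) x := by
  have h1 := DualAux.approx hst hv.cont hB x
  have hint : IntegrableOn (fun r => heatP (t - r) (h r) x) (uIcc s t) := by
    rw [uIcc_of_le hst.le]
    exact DualAux.heatP_intOn hhc hhB x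
  have h2 : Tendsto (fun t' => heatP (t - s) (v s) x + ∫ r in s..t', heatP (t - r) (h r) x)
      (𝓝[<] t) (𝓝 (heatP (t - s) (v s) x + ∫ r in s..t, heatP (t - r) (h r) x)) := by
    apply Tendsto.const_add
    have h3 := intervalIntegral.continuousOn_primitive_interval hint t right_mem_uIcc
    rw [uIcc_of_le hst.le] at h3
    have h4 : 𝓝[Ioo s t] t ≤ 𝓝[Icc s t] t := nhdsWithin_mono _ Ioo_subset_Icc_self
    rw [← nhdsWithin_Ioo_eq_nhdsLT hst]
    exact h3.tendsto.mono_left h4
  apply le_of_tendsto_of_tendsto h1 h2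
  filter_upwards [Ioo_mem_nhdsLT hst] with t' ht'
  exact DualAux.step hv hB hhc hhB hle x ht'

end

end Pool.Agent.T2H75.FK
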