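import Pool.Agent.T2H75.FK.Defs

set_option autoImplicit false

/-!
Lemmas for package A.
-/

open MeasureTheory Set Filter Topology
open scoped ENNReal InnerProductSpace Laplacian ContDiff

namespace Pool.Agent.T2H75.FK

open Pool.Agent.X297.KP

noncomputable section

variable {N : ℕ}

namespace DualAux

/-- Basis vector. -/
def eb (i : Fin N) : E N := EuclideanSpace.basisFun (Fin N) ℝ i

theorem eb_inner (z : E N) (i : Fin N) : inner ℝ z (eb i) = z i := by
  unfold eb
  simp [EuclideanSpace.inner_single_right]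

/-- First and second derivatives in the direction of the basis vectors. -/
def D1 (g : E N → ℝ) (i : Fin N) (y : E N) : ℝ := fderiv ℝ g y (eb i)

def D2 (g : E N → ℝ) (i : Fin N) (y : E N) : ℝ := fderiv ℝ (D1 g i) y (eb i)

theorem D1_contDiff {g : E N → ℝ} (hg : ContDiff ℝ 2 g) (i : Fin N) : ContDiff ℝ 1 (D1 g i) := by
  unfold D1
  exact (hg.fderiv_right (m := 1) (by norm_num)).clm_apply contDiff_const

theorem D2_cont {g : E N → ℝ} (hg : ContDiff ℝ 2 g) (i : Fin N) : Continuous (D2 g i) := by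
  unfold D2
  exact ((D1_contDiff hg i).continuous_fderiv (by norm_num)).clm_apply continuous_const

theorem lap_eq {g : E N → ℝ} (hg : ContDiff ℝ 2 g) (y : E N) : Δ g y = ∑ i, D2 g i y := by
  rw [InnerProductSpace.laplacian_eq_iteratedFDeriv_orthonormalBasis g
    (EuclideanSpace.basisFun (Fin N) ℝ)]
  simp only
  refine Finset.sum_congr rfl fun i _ => ?_
  rw [iteratedFDeriv_two_apply]
  unfold D2 D1
  have h1 : DifferentiableAt ℝ (fderiv ℝ g) y :=
    (hg.fderiv_right (m := 1) (by norm_num)).differentiable (by norm_num) y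
  have h2 : fderiv ℝ (fun y => fderiv ℝ g y (eb i)) y (eb i) =
      fderiv ℝ (fderiv ℝ g) y (eb i) (eb i) := by
    rw [fderiv_clm_apply h1 (differentiableAt_const _)]
    simp
  rw [h2]
  simp [eb]

theorem tsupport_D1 (g : E N → ℝ) (i : Fin N) : tsupport (D1 g i) ⊆ tsupport g := by
  apply closure_minimal _ (isClosed_tsupport g)
  intro y hy
  by_contra hn
  apply hy
  have : g =ᶠ[𝓝 y] 0 := notMem_tsupport_iff_eventuallyEq.1 hn
  unfold D1
  rw [this.fderiv_eq]
  simp

theorem D1_compact {g : E N → ℝ} (hg : HasCompactSupport g) (i : Fin N) :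
    HasCompactSupport (D1 g i) :=
  hg.of_isClosed_subset (isClosed_tsupport _) (tsupport_D1 g i)

theorem D2_compact {g : E N → ℝ} (hg : HasCompactSupport g) (i : Fin N) :
    HasCompactSupport (D2 g i) :=
  (D1_compact hg i).of_isClosed_subset (isClosed_tsupport _) (tsupport_D1 (D1 g i) i)

/-- Green's identity. -/
theorem green {φ g : E N → ℝ} (hφ : ContDiff ℝ 2 φ) (hc : HasCompactSupport φ)
    (hg : ContDiff ℝ 2 g) : ∫ y, φ y * Δ g y = ∫ y, Δ φ y * g y := by
  have hφ0 := hφ.continuous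
  have hg0 := hg.continuous
  have e1 : ∀ y, φ y * Δ g y = ∑ i, φ y * D2 g i y := fun y => by
    rw [lap_eq hg, Finset.mul_sum]
  have e2 : ∀ y, Δ φ y * g y = ∑ i, D2 φ i y * g y := fun y => by
    rw [lap_eq hφ, Finset.sum_mul]
  simp_rw [e1, e2]
  have i1 : ∀ i, Integrable (fun y => φ y * D2 g i y) := fun i =>
    (hφ0.mul (D2_cont hg i)).integrable_of_hasCompactSupport hc.mul_right
  have i2 : ∀ i, Integrable (fun y => D2 φ i y * g y) := fun i =>
    ((D2_cont hφ i).mul hg0).integrable_of_hasCompactSupport (D2_compact hc i).mul_right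
  have i3 : ∀ i, Integrable (fun y => D1 φ i y * D1 g i y) := fun i =>
    (((D1_contDiff hφ i).continuous).mul ((D1_contDiff hg i).continuous)).integrable_of_hasCompactSupport
      (D1_compact hc i).mul_right
  have i4 : ∀ i, Integrable (fun y => φ y * D1 g i y) := fun i =>
    (hφ0.mul ((D1_contDiff hg i).continuous)).integrable_of_hasCompactSupport hc.mul_right
  have i5 : ∀ i, Integrable (fun y => D1 φ i y * g y) := fun i =>
    (((D1_contDiff hφ i).continuous).mul hg0).integrable_of_hasCompactSupport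
      (D1_compact hc i).mul_right
  rw [integral_finsetSum _ (fun i _ => i1 i), integral_finsetSum _ (fun i _ => i2 i)]
  refine Finset.sum_congr rfl fun i _ => ?_
  have s1 : ∫ y, φ y * D2 g i y = - ∫ y, D1 φ i y * D1 g i y := by
    have := integral_mul_fderiv_eq_neg_fderiv_mul_of_integrable (μ := volume) (f := φ)
      (g := D1 g i) (v := eb i) (i3 i) (i1 i) (i4 i)
      (fun x _ => (hφ.differentiable (by norm_num)) x)
      (fun x _ => (((D1_contDiff hg i).differentiable (by norm_num)) x))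
    exact this
  have s2 : ∫ y, D1 φ i y * D1 g i y = - ∫ y, D2 φ i y * g y := by
    have := integral_mul_fderiv_eq_neg_fderiv_mul_of_integrable (μ := volume) (f := D1 φ i)
      (g := g) (v := eb i) (i2 i) (i3 i) (i5 i)
      (fun x _ => (((D1_contDiff hφ i).differentiable (by norm_num)) x))
      (fun x _ => (hg.differentiable (by norm_num)) x)
    exact this
  rw [s1, s2, neg_neg]

theorem D1_mul {a b : E N → ℝ} (ha : ContDiff ℝ 2 a) (hb : ContDiff ℝ 2 b) (i : Fin N) :
    D1 (fun y => a y * b y) i = fun y => D1 a i y * b y + a y * D1 b i y := by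
  funext y
  unfold D1
  rw [fderiv_fun_mul (ha.differentiable (by norm_num) y) (hb.differentiable (by norm_num) y)]
  simp
  ring

theorem D2_mul {a b : E N → ℝ} (ha : ContDiff ℝ 2 a) (hb : ContDiff ℝ 2 b) (i : Fin N) (y : E N) :
    D2 (fun y => a y * b y) i y =
      D2 a i y * b y + 2 * (D1 a i y * D1 b i y) + a y * D2 b i y := by
  unfold D2
  rw [D1_mul ha hb]
  have h1 : DifferentiableAt ℝ (D1 a i) y := (D1_contDiff ha i).differentiable (by norm_num) y
  have h2 : DifferentiableAt ℝ (D1 b i) y := (D1_contDiff hb i).differentiable (by norm_num) y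
  have h3 : DifferentiableAt ℝ a y := ha.differentiable (by norm_num) y
  have h4 : DifferentiableAt ℝ b y := hb.differentiable (by norm_num) y
  rw [fderiv_fun_add (h1.fun_mul h4) (h3.fun_mul h2), fderiv_fun_mul h1 h4, fderiv_fun_mul h3 h2]
  simp [D1]
  ring

theorem lap_mul {a b : E N → ℝ} (ha : ContDiff ℝ 2 a) (hb : ContDiff ℝ 2 b) (y : E N) :
    (Δ (fun y => a y * b y)) y =
      Δ a y * b y + 2 * (∑ i, D1 a i y * D1 b i y) + a y * Δ b y := by
  rw [lap_eq (ha.mul hb), lap_eq ha, lap_eq hb, Finset.sum_mul, Finset.mul_sum, Finset.mul_sum,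
    ← Finset.sum_add_distrib, ← Finset.sum_add_distrib]
  exact Finset.sum_congr rfl fun i _ => D2_mul ha hb i y

/-! ### The heat kernel -/

theorem heatK_pos' {t : ℝ} (ht : 0 < t) (z : E N) : 0 < heatK t z := by
  unfold heatK; positivity

theorem hasDerivAt_heatK {τ : ℝ} (hτ : 0 < τ) (z : E N) :
    HasDerivAt (fun τ => heatK τ z)
      ((‖z‖ ^ 2 / (4 * τ ^ 2) - N / (2 * τ)) * heatK τ z) τ := by
  unfold heatK
  have h1 : HasDerivAt (fun τ : ℝ => 4 * Real.pi * τ) (4 * Real.pi) τ := by
    simpa using (hasDerivAt_id τ).const_mul (4 * Real.pi)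
  have hp : 0 < 4 * Real.pi * τ := by positivity
  have h2 := h1.rpow_const (p := -((N : ℝ) / 2)) (Or.inl hp.ne')
  have h3 : HasDerivAt (fun τ : ℝ => -(‖z‖ ^ 2 / (4 * τ))) (‖z‖ ^ 2 / (4 * τ ^ 2)) τ := by
    have h4 : HasDerivAt (fun τ : ℝ => 4 * τ) 4 τ := by
      simpa using (hasDerivAt_id τ).const_mul (4 : ℝ)
    have h5 := ((hasDerivAt_const τ (‖z‖ ^ 2)).fun_div h4 (by positivity)).fun_neg
    refine h5.congr_deriv ?_
    field_simp
    ring
  have h6 := h2.fun_mul h3.exp
  refine h6.congr_deriv ?_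
  rw [Real.rpow_sub_one hp.ne']
  field_simp
  ring

theorem contDiff_heatK (τ : ℝ) (x : E N) : ContDiff ℝ 2 (fun y => heatK τ (x - y)) := by
  unfold heatK
  apply ContDiff.mul contDiff_const
  apply ContDiff.exp
  apply ContDiff.neg
  apply ContDiff.div_const
  exact (contDiff_const.sub contDiff_id).norm_sq ℝ

theorem D1_heatK {τ : ℝ} (hτ : 0 < τ) (x : E N) (i : Fin N) :
    D1 (fun y => heatK τ (x - y)) i = fun y => (x - y) i / (2 * τ) * heatK τ (x - y) := by
  funext y
  unfold D1 heatK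
  have h0 : HasFDerivAt (fun y : E N => x - y) (-(ContinuousLinearMap.id ℝ (E N))) y := by
    simpa using (hasFDerivAt_const x y).fun_sub (hasFDerivAt_id y)
  have h1 : HasFDerivAt (fun y : E N => ‖x - y‖ ^ 2)
      ((2 • (innerSL ℝ (x - y))).comp (-(ContinuousLinearMap.id ℝ (E N)))) y :=
    h0.norm_sq
  have h2 : HasFDerivAt (fun y : E N => -(‖x - y‖ ^ 2 / (4 * τ)))
      (-((4 * τ)⁻¹ • ((2 • (innerSL ℝ (x - y))).comp (-(ContinuousLinearMap.id ℝ (E N)))))) y := by
    simpa only [div_eq_mul_inv] using (h1.mul_const ((4 * τ)⁻¹)).fun_neg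
  have h3 := (h2.exp).const_mul ((4 * Real.pi * τ) ^ (-((N : ℝ) / 2)))
  rw [h3.fderiv]
  have h4 := eb_inner x i
  have h5 := eb_inner y i
  simp [h4, h5]
  field_simp
  ring

theorem D2_heatK {τ : ℝ} (hτ : 0 < τ) (x : E N) (i : Fin N) (y : E N) :
    D2 (fun y => heatK τ (x - y)) i y =
      (((x - y) i) ^ 2 / (4 * τ ^ 2) - 1 / (2 * τ)) * heatK τ (x - y) := by
  unfold D2
  rw [D1_heatK hτ]
  have h1 : HasFDerivAt (fun y : E N => (x - y) i / (2 * τ))
      ((2 * τ)⁻¹ • (-(EuclideanSpace.proj i : E N →L[ℝ] ℝ))) y := by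
    have h2 : HasFDerivAt (fun y : E N => (x - y) i) (-(EuclideanSpace.proj i : E N →L[ℝ] ℝ)) y := by
      have h0 : HasFDerivAt (fun y : E N => x - y) (-(ContinuousLinearMap.id ℝ (E N))) y := by
        simpa using (hasFDerivAt_const x y).fun_sub (hasFDerivAt_id y)
      have := (EuclideanSpace.proj i : E N →L[ℝ] ℝ).hasFDerivAt.comp y h0
      have e : (EuclideanSpace.proj i : E N →L[ℝ] ℝ).comp (-(ContinuousLinearMap.id ℝ (E N))) =
          -(EuclideanSpace.proj i : E N →L[ℝ] ℝ) := by
        ext z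
        simp
      rw [e] at this
      exact this
    simpa only [div_eq_mul_inv] using h2.mul_const ((2 * τ)⁻¹)
  have h3 : DifferentiableAt ℝ (fun y : E N => heatK τ (x - y)) y :=
    (contDiff_heatK τ x).differentiable (by norm_num) y
  rw [fderiv_fun_mul h1.differentiableAt h3, h1.fderiv]
  have h4 := congrFun (D1_heatK hτ x i) y
  unfold D1 at h4
  simp only [add_apply, smul_apply, h4]
  simp [eb]
  field_simp
  ring

theorem lap_heatK {τ : ℝ} (hτ : 0 < τ) (x y : E N) :
    (Δ (fun y : E N => heatK τ (x - y))) y =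
      (‖x - y‖ ^ 2 / (4 * τ ^ 2) - N / (2 * τ)) * heatK τ (x - y) := by
  rw [lap_eq (contDiff_heatK τ x)]
  simp_rw [D2_heatK hτ]
  rw [← Finset.sum_mul, Finset.sum_sub_distrib, ← Finset.sum_div, EuclideanSpace.real_norm_sq_eq]
  simp
  left
  ring

end DualAux

end

end Pool.Agent.T2H75.FK
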