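import Pool.Agent.T2H75.FK.DualA

set_option autoImplicit false

/-!
Lemmas for package A: moments of the heat kernel and cut-off functions.
-/

open MeasureTheory Set Filter Topology
open scoped ENNReal InnerProductSpace Laplacian ContDiff

namespace Pool.Agent.T2H75.FK

open Pool.Agent.X297.KP

noncomputable section

variable {N : ℕ}

namespace DualAux

/-! ### Moments -/

/-- `2^{N/2}`. -/
def c2 (N : ℕ) : ℝ := 2 ^ ((N : ℝ) / 2)

theorem c2_pos (N : ℕ) : 0 < c2 N := by unfold c2; positivity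

theorem sq_le {τ : ℝ} (hτ : 0 < τ) (z : E N) :
    ‖z‖ ^ 2 * heatK τ z ≤ 8 * τ * c2 N * heatK (2 * τ) z := by
  unfold heatK c2
  have h1 : (4 * Real.pi * (2 * τ)) ^ (-((N : ℝ) / 2)) =
      (2:ℝ) ^ (-((N : ℝ) / 2)) * (4 * Real.pi * τ) ^ (-((N : ℝ) / 2)) := by
    rw [← Real.mul_rpow (by norm_num) (by positivity)]
    congr 1
    ring
  have h2 : (2:ℝ) ^ ((N : ℝ) / 2) * (2:ℝ) ^ (-((N : ℝ) / 2)) = 1 := by
    rw [← Real.rpow_add (by norm_num)]
    simp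
  have h3 : ‖z‖ ^ 2 * Real.exp (-(‖z‖ ^ 2 / (4 * τ))) ≤
      8 * τ * Real.exp (-(‖z‖ ^ 2 / (4 * (2 * τ)))) := by
    have e1 : -(‖z‖ ^ 2 / (4 * τ)) = -(‖z‖ ^ 2 / (8 * τ)) + -(‖z‖ ^ 2 / (4 * (2 * τ))) := by
      field_simp
      ring
    rw [e1, Real.exp_add, ← mul_assoc]
    apply mul_le_mul_of_nonneg_right _ (Real.exp_pos _).le
    have e2 : ‖z‖ ^ 2 / (8 * τ) ≤ Real.exp (‖z‖ ^ 2 / (8 * τ)) := by
      have := Real.add_one_le_exp (‖z‖ ^ 2 / (8 * τ))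
      linarith
    rw [Real.exp_neg, ← div_eq_mul_inv, div_le_iff₀ (Real.exp_pos _)]
    calc ‖z‖ ^ 2 = 8 * τ * (‖z‖ ^ 2 / (8 * τ)) := by field_simp
      _ ≤ _ := by gcongr
  rw [h1]
  have hp : 0 ≤ (4 * Real.pi * τ) ^ (-((N : ℝ) / 2)) := by positivity
  calc ‖z‖ ^ 2 * ((4 * Real.pi * τ) ^ (-((N : ℝ) / 2)) * Real.exp (-(‖z‖ ^ 2 / (4 * τ))))
      = (4 * Real.pi * τ) ^ (-((N : ℝ) / 2)) * (‖z‖ ^ 2 * Real.exp (-(‖z‖ ^ 2 / (4 * τ)))) := by
        ring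
    _ ≤ (4 * Real.pi * τ) ^ (-((N : ℝ) / 2)) *
        (8 * τ * Real.exp (-(‖z‖ ^ 2 / (4 * (2 * τ))))) := by gcongr
    _ = ((2:ℝ) ^ ((N : ℝ) / 2) * (2:ℝ) ^ (-((N : ℝ) / 2))) *
        ((4 * Real.pi * τ) ^ (-((N : ℝ) / 2)) *
        (8 * τ * Real.exp (-(‖z‖ ^ 2 / (4 * (2 * τ)))))) := by rw [h2, one_mul]
    _ = _ := by ring

theorem sq_integrable {τ : ℝ} (hτ : 0 < τ) (x : E N) :
    Integrable (fun y : E N => ‖x - y‖ ^ 2 * heatK τ (x - y)) := by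
  have h1 : Integrable (fun y : E N => 8 * τ * c2 N * heatK (2 * τ) (x - y)) :=
    (heatK_integrable' (by positivity) x).const_mul _
  refine h1.mono' ?_ ?_
  · apply Continuous.aestronglyMeasurable
    have := (contDiff_heatK τ x).continuous
    fun_prop
  · refine Eventually.of_forall fun y => ?_
    rw [Real.norm_eq_abs, abs_of_nonneg (mul_nonneg (sq_nonneg _) (heatK_nonneg hτ _))]
    exact sq_le hτ _

theorem int_sq_le {τ : ℝ} (hτ : 0 < τ) (x : E N) :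
    ∫ y : E N, ‖x - y‖ ^ 2 * heatK τ (x - y) ≤ 8 * τ * c2 N := by
  calc ∫ y : E N, ‖x - y‖ ^ 2 * heatK τ (x - y)
      ≤ ∫ y : E N, 8 * τ * c2 N * heatK (2 * τ) (x - y) :=
        integral_mono (sq_integrable hτ x)
          ((heatK_integrable' (by positivity) x).const_mul _) (fun y => sq_le hτ _)
    _ = 8 * τ * c2 N := by
        rw [integral_const_mul, heatK_int1' (by positivity), mul_one]

theorem norm_integrable {τ : ℝ} (hτ : 0 < τ) (x : E N) :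
    Integrable (fun y : E N => ‖x - y‖ * heatK τ (x - y)) := by
  refine ((heatK_integrable' hτ x).add (sq_integrable hτ x)).mono' ?_ ?_
  · apply Continuous.aestronglyMeasurable
    have := (contDiff_heatK τ x).continuous
    fun_prop
  · refine Eventually.of_forall fun y => ?_
    have h0 := heatK_nonneg hτ (x - y)
    rw [Real.norm_eq_abs, abs_of_nonneg (mul_nonneg (norm_nonneg _) h0)]
    simp only [Pi.add_apply]
    nlinarith [sq_nonneg (‖x - y‖ - 1), norm_nonneg (x - y),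
      mul_nonneg h0 (sq_nonneg (‖x - y‖ - 1)), mul_nonneg h0 (norm_nonneg (x - y)),
      mul_nonneg h0 (sq_nonneg (‖x - y‖))]

theorem int_norm_le {τ : ℝ} (hτ : 0 < τ) (x : E N) :
    ∫ y : E N, ‖x - y‖ * heatK τ (x - y) ≤ 1 + 8 * τ * c2 N := by
  calc ∫ y : E N, ‖x - y‖ * heatK τ (x - y)
      ≤ ∫ y : E N, (heatK τ (x - y) + ‖x - y‖ ^ 2 * heatK τ (x - y)) := by
        apply integral_mono (norm_integrable hτ x)
          ((heatK_integrable' hτ x).add (sq_integrable hτ x))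
        intro y
        have h0 := heatK_nonneg hτ (x - y)
        simp only [Pi.add_apply]
        nlinarith [sq_nonneg (‖x - y‖ - 1), norm_nonneg (x - y),
          mul_nonneg h0 (sq_nonneg (‖x - y‖ - 1)), mul_nonneg h0 (norm_nonneg (x - y)),
          mul_nonneg h0 (sq_nonneg (‖x - y‖))]
    _ = (∫ y : E N, heatK τ (x - y)) + ∫ y : E N, ‖x - y‖ ^ 2 * heatK τ (x - y) :=
        integral_add (heatK_integrable' hτ x) (sq_integrable hτ x)
    _ ≤ 1 + 8 * τ * c2 N := by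
        rw [heatK_int1' hτ x]
        linarith [int_sq_le hτ x]

/-! ### Cut-off functions -/

theorem D1_scale {g : E N → ℝ} (hg : Differentiable ℝ g) (c : ℝ) (i : Fin N) :
    D1 (fun y => g (c • y)) i = fun y => c * D1 g i (c • y) := by
  funext y
  unfold D1
  have h1 : HasFDerivAt (fun y : E N => c • y) (c • (ContinuousLinearMap.id ℝ (E N))) y :=
    (hasFDerivAt_id y).const_smul c
  have h2 := (hg (c • y)).hasFDerivAt.comp y h1
  have h3 : fderiv ℝ (fun y => g (c • y)) y =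
      (fderiv ℝ g (c • y)).comp (c • (ContinuousLinearMap.id ℝ (E N))) := h2.fderiv
  rw [h3]
  simp

theorem D2_scale {g : E N → ℝ} (hg : ContDiff ℝ 2 g) (c : ℝ) (i : Fin N) (y : E N) :
    D2 (fun y => g (c • y)) i y = c ^ 2 * D2 g i (c • y) := by
  unfold D2
  rw [D1_scale (hg.differentiable (by norm_num))]
  have h1 : Differentiable ℝ (D1 g i) := (D1_contDiff hg i).differentiable (by norm_num)
  have h2 : Differentiable ℝ (fun y => D1 g i (c • y)) := h1.comp (by fun_prop)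
  rw [fderiv_const_mul (h2 y)]
  have h3 := congrFun (D1_scale h1 c i) y
  unfold D1 at h3 ⊢
  simp only [smul_apply, smul_eq_mul]
  rw [h3]
  ring

theorem exists_cutoff (N : ℕ) : ∃ C : ℝ, 0 ≤ C ∧ ∀ R : ℝ, 1 ≤ R → ∃ χ : E N → ℝ,
    ContDiff ℝ 2 χ ∧ HasCompactSupport χ ∧ (∀ y, 0 ≤ χ y) ∧ (∀ y, χ y ≤ 1) ∧
    (∀ y, ‖y‖ ≤ R → χ y = 1) ∧ (∀ i y, |D1 χ i y| ≤ C / R) ∧ (∀ y, |(Δ χ) y| ≤ C / R) := by
  let ρ : ContDiffBump (0 : E N) := ⟨1, 2, one_pos, one_lt_two⟩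
  have hρ : ContDiff ℝ 2 ρ := ρ.contDiff
  have hρc : HasCompactSupport ρ := ρ.hasCompactSupport
  have h1 : ∀ i, ∃ C, ∀ y, ‖D1 ρ i y‖ ≤ C := fun i =>
    (D1_compact hρc i).exists_bound_of_continuous (D1_contDiff hρ i).continuous
  have h2 : ∀ i, ∃ C, ∀ y, ‖D2 ρ i y‖ ≤ C := fun i =>
    (D2_compact hρc i).exists_bound_of_continuous (D2_cont hρ i)
  choose C1 hC1 using h1
  choose C2 hC2 using h2
  have hC1' : ∀ i, 0 ≤ C1 i := fun i => (norm_nonneg _).trans (hC1 i 0)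
  have hC2' : ∀ i, 0 ≤ C2 i := fun i => (norm_nonneg _).trans (hC2 i 0)
  refine ⟨(∑ i, C1 i) + ∑ i, C2 i, add_nonneg (Finset.sum_nonneg fun i _ => hC1' i)
    (Finset.sum_nonneg fun i _ => hC2' i), fun R hR => ?_⟩
  have hR0 : 0 < R := by linarith
  have hρR : ContDiff ℝ 2 (fun y : E N => ρ (R⁻¹ • y)) := hρ.comp (by fun_prop)
  refine ⟨fun y => ρ (R⁻¹ • y), hρR, ?_, fun y => ρ.nonneg, fun y => ρ.le_one,
    ?_, ?_, ?_⟩
  · exact hρc.comp_smul (inv_ne_zero hR0.ne')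
  · intro y hy
    apply ρ.one_of_mem_closedBall
    rw [mem_closedBall_zero_iff, norm_smul, norm_inv, Real.norm_eq_abs, abs_of_pos hR0]
    change R⁻¹ * ‖y‖ ≤ 1
    rw [inv_mul_le_iff₀ hR0]
    linarith
  · intro i y
    rw [D1_scale (hρ.differentiable (by norm_num))]
    simp only
    rw [abs_mul, abs_of_pos (inv_pos.2 hR0), div_eq_inv_mul]
    have h3 : |D1 ρ i (R⁻¹ • y)| ≤ C1 i := hC1 i _
    have h4 : C1 i ≤ ∑ i, C1 i := Finset.single_le_sum (fun i _ => hC1' i) (Finset.mem_univ i)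
    have h5 : 0 ≤ ∑ i, C2 i := Finset.sum_nonneg fun i _ => hC2' i
    gcongr
    linarith
  · intro y
    rw [lap_eq hρR]
    have e1 : ∀ i, D2 (fun y => ρ (R⁻¹ • y)) i y = R⁻¹ ^ 2 * D2 ρ i (R⁻¹ • y) :=
      fun i => D2_scale hρ _ i y
    have e2 : ∑ i, D2 (fun y => ρ (R⁻¹ • y)) i y = ∑ i, R⁻¹ ^ 2 * D2 ρ i (R⁻¹ • y) :=
      Finset.sum_congr rfl fun i _ => e1 i
    rw [e2]
    have h6 : R⁻¹ ^ 2 ≤ R⁻¹ := by
      rw [sq]
      have : R⁻¹ ≤ 1 := inv_le_one_of_one_le₀ hR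
      have h0 : 0 ≤ R⁻¹ := by positivity
      nlinarith
    have h7 : 0 ≤ ∑ i, C1 i := Finset.sum_nonneg fun i _ => hC1' i
    calc |∑ i, R⁻¹ ^ 2 * D2 ρ i (R⁻¹ • y)| ≤ ∑ i, |R⁻¹ ^ 2 * D2 ρ i (R⁻¹ • y)| :=
          Finset.abs_sum_le_sum_abs _ _
      _ ≤ ∑ i, R⁻¹ * C2 i := by
          apply Finset.sum_le_sum
          intro i _
          rw [abs_mul, abs_of_nonneg (by positivity : (0:ℝ) ≤ R⁻¹ ^ 2)]
          exact mul_le_mul h6 (hC2 i _) (abs_nonneg _) (by positivity)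
      _ = (∑ i, C2 i) / R := by rw [← Finset.mul_sum]; ring
      _ ≤ _ := by gcongr; linarith

end DualAux

end

end Pool.Agent.T2H75.FK
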