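import Pool.Agent.T2H75.FK.DualB

set_option autoImplicit false

/-!
Lemmas for package A: the inequality with a cut-off function.
-/

open MeasureTheory Set Filter Topology
open scoped ENNReal InnerProductSpace Laplacian ContDiff

namespace Pool.Agent.T2H75.FK

open Pool.Agent.X297.KP

noncomputable section

variable {N : ℕ}

namespace DualAux

theorem heatK_contOn : ContinuousOn (fun p : ℝ × E N => heatK p.1 p.2) (Ioi 0 ×ˢ univ) := by
  unfold heatK
  apply ContinuousOn.mul
  · apply ContinuousOn.rpow_const (by fun_prop)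
    intro p hp
    left
    have : 0 < p.1 := hp.1
    positivity
  · apply ContinuousOn.rexp
    apply ContinuousOn.neg
    apply ContinuousOn.div (by fun_prop) (by fun_prop)
    intro p hp
    have : 0 < p.1 := hp.1
    positivity

/-- `κ K = ∂_τ K = Δ K`. -/
def kap (N : ℕ) (τ : ℝ) (z : E N) : ℝ := ‖z‖ ^ 2 / (4 * τ ^ 2) - N / (2 * τ)

theorem kap_contOn : ContinuousOn (fun p : ℝ × E N => kap N p.1 p.2) (Ioi 0 ×ˢ univ) := by
  unfold kap
  apply ContinuousOn.sub
  · apply ContinuousOn.div (by fun_prop) (by fun_prop)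
    intro p hp
    have : 0 < p.1 := hp.1
    positivity
  · apply ContinuousOn.div (by fun_prop) (by fun_prop)
    intro p hp
    have : 0 < p.1 := hp.1
    positivity

/-- Composition with `(r,y) ↦ (t - r, x - y)`. -/
theorem comp_contOn {g : ℝ × E N → ℝ} (hg : ContinuousOn g (Ioi 0 ×ˢ univ)) (t : ℝ) (x : E N)
    {S : Set ℝ} (hS : ∀ r ∈ S, r < t) :
    ContinuousOn (fun p : ℝ × E N => g (t - p.1, x - p.2)) (S ×ˢ univ) := by
  apply hg.comp (f := fun p : ℝ × E N => (t - p.1, x - p.2)) (by fun_prop)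
  intro p hp
  refine ⟨?_, mem_univ _⟩
  have := hS p.1 hp.1
  simp only [mem_Ioi]
  linarith

theorem slice_cont {g : ℝ → E N → ℝ} {S : Set ℝ}
    (hg : ContinuousOn (fun p : ℝ × E N => g p.1 p.2) (S ×ˢ univ)) {r : ℝ} (hr : r ∈ S) :
    Continuous (g r) := by
  rw [← continuousOn_univ]
  apply hg.comp (f := fun y : E N => (r, y)) (by fun_prop)
  intro y _
  exact ⟨hr, mem_univ _⟩

theorem prod_compact {χ : E N → ℝ} (hχ : HasCompactSupport χ) (a b : E N → ℝ) :
    HasCompactSupport (fun y => a y * χ y * b y) := by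
  have : HasCompactSupport (fun y => a y * χ y) := hχ.mul_left
  exact this.mul_right

/-- The integral with cut-off. -/
def II (χ : E N → ℝ) (v : ℝ → E N → ℝ) (t : ℝ) (x : E N) (r : ℝ) : ℝ :=
  ∫ y, heatK (t - r) (x - y) * χ y * v r y

theorem II_contOn {χ : E N → ℝ} (hχ : Continuous χ) (hc : HasCompactSupport χ)
    {v : ℝ → E N → ℝ} {s t t' : ℝ} (ht : t' < t)
    (hv : ContinuousOn (fun p : ℝ × E N => v p.1 p.2) (Icc s t ×ˢ univ)) (x : E N) :
    ContinuousOn (II χ v t x) (Icc s t') := by
  unfold II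
  apply continuousOn_integral_of_compact_support (k := tsupport χ) hc
  · have h1 := comp_contOn (heatK_contOn (N := N)) t x (S := Icc s t')
      (fun r hr => lt_of_le_of_lt hr.2 ht)
    have h2 : ContinuousOn (fun p : ℝ × E N => v p.1 p.2) (Icc s t' ×ˢ univ) :=
      hv.mono (prod_mono (Icc_subset_Icc_right ht.le) (subset_univ _))
    have h3 : ContinuousOn (fun p : ℝ × E N => χ p.2) (Icc s t' ×ˢ univ) :=
      (hχ.comp continuous_snd).continuousOn
    exact (h1.mul h3).mul h2
  · intro r y _ hy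
    have : χ y = 0 := image_eq_zero_of_notMem_tsupport hy
    simp [this]

/-- The derivative of the integrand. -/
def FF (χ : E N → ℝ) (v vt : ℝ → E N → ℝ) (t : ℝ) (x : E N) (r : ℝ) (y : E N) : ℝ :=
  -(kap N (t - r) (x - y)) * heatK (t - r) (x - y) * χ y * v r y +
    heatK (t - r) (x - y) * χ y * vt r y

theorem FF_contOn {χ : E N → ℝ} (hχ : Continuous χ)
    {v vt : ℝ → E N → ℝ} {s t : ℝ} (hv : Reg v vt s t) (x : E N) :
    ContinuousOn (fun p : ℝ × E N => FF χ v vt t x p.1 p.2) (Ioo s t ×ˢ univ) := by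
  unfold FF
  have h1 := comp_contOn (heatK_contOn (N := N)) t x (S := Ioo s t) (fun r hr => hr.2)
  have h0 := comp_contOn (kap_contOn (N := N)) t x (S := Ioo s t) (fun r hr => hr.2)
  have h2 : ContinuousOn (fun p : ℝ × E N => v p.1 p.2) (Ioo s t ×ˢ univ) :=
    hv.cont.mono (prod_mono Ioo_subset_Icc_self (subset_univ _))
  have h3 : ContinuousOn (fun p : ℝ × E N => χ p.2) (Ioo s t ×ˢ univ) :=
    (hχ.comp continuous_snd).continuousOn
  exact (((h0.neg.mul h1).mul h3).mul h2).add ((h1.mul h3).mul hv.dtc)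

theorem II_deriv {χ : E N → ℝ} (hχ : Continuous χ) (hc : HasCompactSupport χ)
    {v vt : ℝ → E N → ℝ} {s t : ℝ} (hv : Reg v vt s t) (x : E N) {r : ℝ} (hr : r ∈ Ioo s t) :
    HasDerivAt (II χ v t x) (∫ y, FF χ v vt t x r y) r := by
  obtain ⟨η, hη, hηs⟩ : ∃ η > 0, Metric.closedBall r η ⊆ Ioo s t :=
    Metric.nhds_basis_closedBall.mem_iff.1 (Ioo_mem_nhds hr.1 hr.2)
  have hFc := FF_contOn hχ hv x
  have hcomp : IsCompact (Metric.closedBall r η ×ˢ tsupport χ) :=
    (isCompact_closedBall r η).prod hc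
  obtain ⟨M, hM⟩ := hcomp.exists_bound_of_continuousOn
    (hFc.mono (prod_mono hηs (subset_univ _)))
  unfold II
  refine (hasDerivAt_integral_of_dominated_loc_of_deriv_le (𝕜 := ℝ) (μ := volume)
    (F := fun r y => heatK (t - r) (x - y) * χ y * v r y)
    (F' := fun r y => FF χ v vt t x r y) (x₀ := r) (s := Metric.closedBall r η)
    (bound := (tsupport χ).indicator (fun _ => M)) (Metric.closedBall_mem_nhds r hη)
    ?_ ?_ ?_ ?_ ?_ ?_).2
  · filter_upwards [Ioo_mem_nhds hr.1 hr.2] with r' hr'
    apply Continuous.aestronglyMeasurable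
    have h1 := (contDiff_heatK (t - r') x).continuous
    exact (h1.mul hχ).mul (slice_cont hv.cont (Ioo_subset_Icc_self hr'))
  · have h1 := (contDiff_heatK (t - r) x).continuous
    exact ((h1.mul hχ).mul (slice_cont hv.cont (Ioo_subset_Icc_self hr))).integrable_of_hasCompactSupport
      (prod_compact hc _ _)
  · exact (slice_cont hFc hr).aestronglyMeasurable
  · refine Eventually.of_forall fun y r' hr' => ?_
    by_cases hy : y ∈ tsupport χ
    · rw [indicator_of_mem hy]
      exact hM (r', y) ⟨hr', hy⟩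
    · rw [indicator_of_notMem hy]
      have : χ y = 0 := image_eq_zero_of_notMem_tsupport hy
      simp [FF, this]
  · rw [integrable_indicator_iff (isClosed_tsupport χ).measurableSet]
    exact integrableOn_const (hc.measure_lt_top.ne)
  · refine Eventually.of_forall fun y r' hr' => ?_
    have hr2 := hηs hr'
    have hτ : 0 < t - r' := by linarith [hr2.2]
    have h1 : HasDerivAt (fun r => heatK (t - r) (x - y))
        (-(kap N (t - r') (x - y) * heatK (t - r') (x - y))) r' := by
      have h2 : HasDerivAt (fun r : ℝ => t - r) (-1) r' := by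
        simpa using (hasDerivAt_const r' t).fun_sub (hasDerivAt_id r')
      have h3 := (hasDerivAt_heatK hτ (x - y)).comp r' h2
      refine h3.congr_deriv ?_
      unfold kap
      ring
    have h4 := (h1.mul_const (χ y)).fun_mul (hv.dt r' hr2 y)
    refine h4.congr_deriv ?_
    unfold FF
    ring

/-- The bound for `∫ K χ g`. -/
theorem cut_close {χ : E N → ℝ} (hχ : Continuous χ) (h0 : ∀ y, 0 ≤ χ y) (h1 : ∀ y, χ y ≤ 1)
    {R : ℝ} (hR : 0 < R) (hχR : ∀ y, ‖y‖ ≤ R → χ y = 1) {τ : ℝ} (hτ : 0 < τ) {g : E N → ℝ}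
    (hg : Continuous g) {B : ℝ} (hB : ∀ y, |g y| ≤ B) (x : E N) :
    |(∫ y, heatK τ (x - y) * χ y * g y) - heatP τ g x| ≤
      B * (‖x‖ + 1 + 8 * τ * c2 N) / R := by
  have hB0 : 0 ≤ B := (abs_nonneg _).trans (hB x)
  have hK := (contDiff_heatK τ x).continuous
  have hχb : ∀ y, |χ y| ≤ 1 := fun y => abs_le.2 ⟨by linarith [h0 y], h1 y⟩
  have i1 : Integrable (fun y => heatK τ (x - y) * (χ y * g y)) := by
    apply int_bdd_mul hτ x (hχ.mul hg).measurable (C := 1 * B)
    intro y
    rw [Pi.mul_apply, abs_mul]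
    exact mul_le_mul (hχb y) (hB y) (abs_nonneg _) zero_le_one
  have i2 : Integrable (fun y => heatK τ (x - y) * g y) := int_bdd_mul hτ x hg.measurable hB
  have e1 : (∫ y, heatK τ (x - y) * χ y * g y) - heatP τ g x =
      ∫ y, heatK τ (x - y) * ((χ y - 1) * g y) := by
    unfold heatP
    have : ∀ y, heatK τ (x - y) * χ y * g y = heatK τ (x - y) * (χ y * g y) := fun y => by ring
    simp_rw [this]
    rw [← integral_sub i1 i2]
    congr 1
    funext y
    ring
  rw [e1]
  have i3 : Integrable (fun y => ‖x‖ * heatK τ (x - y) + ‖x - y‖ * heatK τ (x - y)) :=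
    ((heatK_integrable' hτ x).const_mul _).add (norm_integrable hτ x)
  calc |∫ y, heatK τ (x - y) * ((χ y - 1) * g y)|
      ≤ ∫ y, |heatK τ (x - y) * ((χ y - 1) * g y)| := abs_integral_le_integral_abs
    _ ≤ ∫ y, B / R * (‖x‖ * heatK τ (x - y) + ‖x - y‖ * heatK τ (x - y)) := by
        apply integral_mono_of_nonneg (Eventually.of_forall fun y => abs_nonneg _)
          (i3.const_mul _)
        refine Eventually.of_forall fun y => ?_
        have hk := heatK_nonneg hτ (x - y)
        simp only
        rw [abs_mul, abs_mul, abs_of_nonneg hk]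
        have h2 : |χ y - 1| ≤ (‖x‖ + ‖x - y‖) / R := by
          by_cases hy : ‖y‖ ≤ R
          · rw [hχR y hy, sub_self, abs_zero]
            positivity
          · push Not at hy
            have h3 : ‖y‖ ≤ ‖x‖ + ‖x - y‖ := by
              have : y = x - (x - y) := by abel
              calc ‖y‖ = ‖x - (x - y)‖ := by rw [← this]
                _ ≤ _ := norm_sub_le _ _
            have h4 : 1 ≤ (‖x‖ + ‖x - y‖) / R := by
              rw [le_div_iff₀ hR]
              linarith
            refine le_trans ?_ h4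
            rw [abs_le]
            constructor <;> linarith [h0 y, h1 y]
        calc heatK τ (x - y) * (|χ y - 1| * |g y|)
            ≤ heatK τ (x - y) * ((‖x‖ + ‖x - y‖) / R * B) := by
              apply mul_le_mul_of_nonneg_left _ hk
              exact mul_le_mul h2 (hB y) (abs_nonneg _) (by positivity)
          _ = _ := by ring
    _ = B / R * (‖x‖ + ∫ y, ‖x - y‖ * heatK τ (x - y)) := by
        rw [integral_const_mul, integral_add ((heatK_integrable' hτ x).const_mul _)
          (norm_integrable hτ x), integral_const_mul, heatK_int1' hτ, mul_one]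
    _ ≤ B / R * (‖x‖ + (1 + 8 * τ * c2 N)) := by
        gcongr
        exact int_norm_le hτ x
    _ = _ := by ring

end DualAux

end

end Pool.Agent.T2H75.FK
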