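import Pool.Agent.T2H75.FK.DualC

set_option autoImplicit false

/-!
Lemmas for package A: the differential inequality.
-/

open MeasureTheory Set Filter Topology
open scoped ENNReal InnerProductSpace Laplacian ContDiff

namespace Pool.Agent.T2H75.FK

open Pool.Agent.X297.KP

noncomputable section

variable {N : ℕ}

namespace DualAux

theorem lap_cont {g : E N → ℝ} (hg : ContDiff ℝ 2 g) : Continuous (Δ g) := by
  have : (Δ g) = fun y => ∑ i, D2 g i y := funext fun y => lap_eq hg y
  rw [this]
  exact continuous_finsetSum _ fun i _ => D2_cont hg i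

/-- The error term. -/
def er (χ : E N → ℝ) (τ : ℝ) (x y : E N) : ℝ :=
  2 * (∑ i, D1 (fun y => heatK τ (x - y)) i y * D1 χ i y) + heatK τ (x - y) * (Δ χ) y

theorem er_cont {χ : E N → ℝ} (hχ : ContDiff ℝ 2 χ) (τ : ℝ) (x : E N) :
    Continuous (er χ τ x) := by
  unfold er
  have hK := contDiff_heatK τ x
  apply Continuous.add
  · apply Continuous.mul continuous_const
    apply continuous_finsetSum
    intro i _
    exact (D1_contDiff hK i).continuous.mul (D1_contDiff hχ i).continuous
  · exact hK.continuous.mul (lap_cont hχ)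

theorem er_le {χ : E N → ℝ} {τ : ℝ} (hτ : 0 < τ) {C R : ℝ} (_hC : 0 ≤ C) (_hR : 0 < R)
    (h1 : ∀ i y, |D1 χ i y| ≤ C / R) (h2 : ∀ y, |(Δ χ) y| ≤ C / R) (x y : E N) :
    |er χ τ x y| ≤ C / R * (N / τ * (‖x - y‖ * heatK τ (x - y)) + heatK τ (x - y)) := by
  unfold er
  have hk := heatK_nonneg hτ (x - y)
  have e1 : |2 * (∑ i, D1 (fun y => heatK τ (x - y)) i y * D1 χ i y)| ≤
      C / R * (N / τ * (‖x - y‖ * heatK τ (x - y))) := by
    rw [abs_mul, abs_two]
    have e2 : |∑ i, D1 (fun y => heatK τ (x - y)) i y * D1 χ i y| ≤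
        ∑ _i : Fin N, ‖x - y‖ / (2 * τ) * heatK τ (x - y) * (C / R) := by
      refine (Finset.abs_sum_le_sum_abs _ _).trans ?_
      apply Finset.sum_le_sum
      intro i _
      rw [abs_mul]
      apply mul_le_mul _ (h1 i y) (abs_nonneg _) (by positivity)
      rw [congrFun (D1_heatK hτ x i) y, abs_mul, abs_of_nonneg hk, abs_div,
        abs_of_pos (by positivity : (0:ℝ) < 2 * τ)]
      gcongr
      have := PiLp.norm_apply_le (x - y) i
      simpa using this
    rw [Finset.sum_const, Finset.card_univ, Fintype.card_fin, nsmul_eq_mul] at e2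
    calc 2 * |∑ i, D1 (fun y => heatK τ (x - y)) i y * D1 χ i y|
        ≤ 2 * (N * (‖x - y‖ / (2 * τ) * heatK τ (x - y) * (C / R))) := by gcongr
      _ = _ := by field_simp
  have e3 : |heatK τ (x - y) * (Δ χ) y| ≤ C / R * heatK τ (x - y) := by
    rw [abs_mul, abs_of_nonneg hk, mul_comm]
    gcongr
    exact h2 y
  calc _ ≤ |2 * (∑ i, D1 (fun y => heatK τ (x - y)) i y * D1 χ i y)| +
        |heatK τ (x - y) * (Δ χ) y| := abs_add_le _ _
    _ ≤ _ := by
        rw [mul_add]
        exact add_le_add e1 e3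

theorem er_int_le {χ : E N → ℝ} (_hχ : ContDiff ℝ 2 χ) {τ : ℝ} (hτ : 0 < τ) {C R : ℝ}
    (hC : 0 ≤ C) (hR : 0 < R)
    (h1 : ∀ i y, |D1 χ i y| ≤ C / R) (h2 : ∀ y, |(Δ χ) y| ≤ C / R) (x : E N) {g : E N → ℝ}
    {B : ℝ} (hB0 : 0 ≤ B) (hB : ∀ y, |g y| ≤ B) :
    ∫ y, er χ τ x y * g y ≤ C / R * (N / τ * (1 + 8 * τ * c2 N) + 1) * B := by
  have i1 : Integrable (fun y => N / τ * (‖x - y‖ * heatK τ (x - y)) + heatK τ (x - y)) :=
    ((norm_integrable hτ x).const_mul _).add (heatK_integrable' hτ x)
  have i2 : Integrable (fun y => C / R * (N / τ * (‖x - y‖ * heatK τ (x - y)) +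
      heatK τ (x - y)) * B) := (i1.const_mul _).mul_const _
  calc ∫ y, er χ τ x y * g y ≤ |∫ y, er χ τ x y * g y| := le_abs_self _
    _ ≤ ∫ y, |er χ τ x y * g y| := abs_integral_le_integral_abs
    _ ≤ ∫ y, C / R * (N / τ * (‖x - y‖ * heatK τ (x - y)) + heatK τ (x - y)) * B := by
        apply integral_mono_of_nonneg (Eventually.of_forall fun y => abs_nonneg _) i2
        refine Eventually.of_forall fun y => ?_
        have hk := heatK_nonneg hτ (x - y)
        simp only
        rw [abs_mul]
        exact mul_le_mul (er_le hτ hC hR h1 h2 x y) (hB y) (abs_nonneg _) (by positivity)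
    _ = C / R * (N / τ * (∫ y, ‖x - y‖ * heatK τ (x - y)) + 1) * B := by
        rw [integral_mul_const, integral_const_mul, integral_add
          ((norm_integrable hτ x).const_mul _) (heatK_integrable' hτ x), integral_const_mul,
          heatK_int1' hτ]
    _ ≤ _ := by
        gcongr
        exact int_norm_le hτ x

theorem FF_int_le {χ : E N → ℝ} (hχ : ContDiff ℝ 2 χ) (hc : HasCompactSupport χ)
    (h0 : ∀ y, 0 ≤ χ y) {v vt h : ℝ → E N → ℝ} {s t : ℝ} (hv : Reg v vt s t)
    (hhc : ContinuousOn (fun p : ℝ × E N => h p.1 p.2) (Ioo s t ×ˢ univ))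
    (hle : ∀ r ∈ Ioo s t, ∀ y, vt r y ≤ Δ (v r) y + h r y) (x : E N) {r : ℝ} (hr : r ∈ Ioo s t) :
    ∫ y, FF χ v vt t x r y ≤ (∫ y, heatK (t - r) (x - y) * χ y * h r y) +
      ∫ y, er χ (t - r) x y * v r y := by
  have hτ : 0 < t - r := by linarith [hr.2]
  have hK := contDiff_heatK (t - r) x
  have hvc : Continuous (v r) := (hv.sp r hr).continuous
  have hhr : Continuous (h r) := slice_cont hhc hr
  have hvtc : Continuous (vt r) := slice_cont hv.dtc hr
  have hφ : ContDiff ℝ 2 (fun y => heatK (t - r) (x - y) * χ y) := hK.mul hχ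
  have hφc : HasCompactSupport (fun y => heatK (t - r) (x - y) * χ y) := hc.mul_left
  have i1 : Integrable (fun y => heatK (t - r) (x - y) * χ y * h r y) :=
    ((hK.continuous.mul hχ.continuous).mul hhr).integrable_of_hasCompactSupport
      (prod_compact hc _ _)
  have i2 : Integrable (fun y => heatK (t - r) (x - y) * χ y * (Δ (v r)) y) :=
    ((hK.continuous.mul hχ.continuous).mul (lap_cont (hv.sp r hr))).integrable_of_hasCompactSupport
      (prod_compact hc _ _)
  have hkc : Continuous (fun y => -(kap N (t - r) (x - y)) * heatK (t - r) (x - y)) := by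
    have : Continuous (fun y => kap N (t - r) (x - y)) := by
      unfold kap
      fun_prop
    exact this.neg.mul hK.continuous
  have i3 : Integrable (fun y => -(kap N (t - r) (x - y)) * heatK (t - r) (x - y) * χ y * v r y) :=
    ((hkc.mul hχ.continuous).mul hvc).integrable_of_hasCompactSupport (prod_compact hc _ _)
  have i4 : Integrable (fun y => (Δ (fun y => heatK (t - r) (x - y) * χ y)) y * v r y) := by
    apply ((lap_cont hφ).mul hvc).integrable_of_hasCompactSupport
    have h5 : HasCompactSupport (Δ (fun y => heatK (t - r) (x - y) * χ y)) := by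
      apply hφc.of_isClosed_subset (isClosed_tsupport _)
      apply closure_minimal _ (isClosed_tsupport _)
      intro y hy
      by_contra hn
      apply hy
      rw [lap_eq hφ]
      apply Finset.sum_eq_zero
      intro i _
      have h6 : tsupport (D2 (fun y => heatK (t - r) (x - y) * χ y) i) ⊆
          tsupport (fun y => heatK (t - r) (x - y) * χ y) :=
        (tsupport_D1 _ i).trans (tsupport_D1 _ i)
      exact image_eq_zero_of_notMem_tsupport (fun h7 => hn (h6 h7))
    exact h5.mul_right
  have i5 : Integrable (fun y => FF χ v vt t x r y) := by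
    unfold FF
    exact i3.add (((hK.continuous.mul hχ.continuous).mul hvtc).integrable_of_hasCompactSupport
      (prod_compact hc _ _))
  have i6 : Integrable (fun y => -(kap N (t - r) (x - y)) * heatK (t - r) (x - y) * χ y * v r y +
      heatK (t - r) (x - y) * χ y * (Δ (v r)) y) := i3.add i2
  calc ∫ y, FF χ v vt t x r y
      ≤ ∫ y, ((-(kap N (t - r) (x - y)) * heatK (t - r) (x - y) * χ y * v r y +
        heatK (t - r) (x - y) * χ y * (Δ (v r)) y) + heatK (t - r) (x - y) * χ y * h r y) := by
        apply integral_mono i5 (i6.add i1)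
        intro y
        unfold FF
        simp only [Pi.add_apply]
        have h7 : 0 ≤ heatK (t - r) (x - y) * χ y := mul_nonneg (heatK_nonneg hτ _) (h0 y)
        have h8 := mul_le_mul_of_nonneg_left (hle r hr y) h7
        rw [mul_add] at h8
        linarith
    _ = (∫ y, -(kap N (t - r) (x - y)) * heatK (t - r) (x - y) * χ y * v r y) +
        (∫ y, heatK (t - r) (x - y) * χ y * (Δ (v r)) y) +
        ∫ y, heatK (t - r) (x - y) * χ y * h r y := by
        rw [integral_add i6 i1, integral_add i3 i2]
    _ = (∫ y, -(kap N (t - r) (x - y)) * heatK (t - r) (x - y) * χ y * v r y) +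
        (∫ y, (Δ (fun y => heatK (t - r) (x - y) * χ y)) y * v r y) +
        ∫ y, heatK (t - r) (x - y) * χ y * h r y := by
        rw [green hφ hφc (hv.sp r hr)]
    _ = (∫ y, er χ (t - r) x y * v r y) + ∫ y, heatK (t - r) (x - y) * χ y * h r y := by
        congr 1
        rw [← integral_add i3 i4]
        congr 1
        funext y
        rw [lap_mul hK hχ, lap_heatK hτ]
        unfold er kap
        ring
    _ = _ := by ring

end DualAux

end

end Pool.Agent.T2H75.FK
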