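import Pool.Agent.T2H75.FK.Ker

set_option autoImplicit false

/-!
Package E1a (theorems heatP_C1, heatP_deriv): directional derivatives of `G_τ * φ` and of the Duhamel term.

`heatP_C1`: `φ'(x) = ∫ dG_τ(x-y) φ(y) dy` with `dG_τ(w) = -(w·e)/(2τ) G_τ(w)`; fixed `τ > 0`, so
differentiation under the integral sign is dominated (`|w| e^{-|w|²/4τ} ≤ C e^{-|w|²/8τ}`).

`heatP_deriv`: write `heatP τ φ (x+ze) = ∫ G_τ(y) φ(x+ze-y) dy` and differentiate under
the integral sign (bounded derivative).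
-/

open MeasureTheory Set Filter Topology
open scoped ENNReal InnerProductSpace Laplacian

namespace Pool.Agent.T2H75.FK

open Pool.Agent.X297.KP

noncomputable section

variable {N : ℕ}

/-- directional derivative of the heat kernel -/
def dK (τ : ℝ) (e : E N) (w : E N) : ℝ := -(inner ℝ w e) / (2 * τ) * heatK τ w

theorem dK_cont (τ : ℝ) (e : E N) : Continuous (dK τ e) := by
  unfold dK
  have h1 : Continuous fun w : E N => heatK τ w := heatK_cont
  have h2 : Continuous fun w : E N => inner ℝ w e := continuous_id.inner continuous_const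
  exact (h2.neg.div_const _).mul h1

theorem dK_meas (e : E N) : Measurable (fun p : ℝ × E N => dK p.1 e p.2) := by
  unfold dK
  have h1 : Measurable fun p : ℝ × E N => heatK p.1 p.2 := heatK_meas
  have h2 : Continuous fun w : E N => inner ℝ w e := continuous_id.inner continuous_const
  have h3 : Measurable fun p : ℝ × E N => inner ℝ p.2 e := h2.measurable.comp measurable_snd
  exact (h3.neg.div (measurable_fst.const_mul 2)).mul h1

theorem heatK_hasDerivAt (τ : ℝ) (e w : E N) (z : ℝ) :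
    HasDerivAt (fun z : ℝ => heatK τ (w + z • e)) (dK τ e (w + z • e)) z := by
  have h1 : HasDerivAt (fun z : ℝ => w + z • e) e z := by
    simpa using ((hasDerivAt_id z).smul_const e).const_add w
  have h2 := h1.norm_sq
  have h3 := ((h2.div_const (4 * τ)).neg.exp).const_mul ((4 * Real.pi * τ) ^ (-((N : ℝ) / 2)))
  refine h3.congr_deriv ?_
  unfold dK heatK
  simp only [Pi.neg_apply]
  by_cases hτ : τ = 0
  · subst hτ; simp
  · field_simp
    ring

theorem dK_le {τ : ℝ} (hτ : 0 < τ) (e w : E N) :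
    |dK τ e w| ≤ ‖e‖ * 2 ^ ((N : ℝ) / 2) / √τ * heatK (2 * τ) w := by
  unfold dK
  rw [abs_mul, abs_div, abs_neg, abs_of_nonneg (heatK_nonneg hτ w), abs_of_pos (by positivity : 0 < 2 * τ)]
  have h1 : |inner ℝ w e| ≤ ‖w‖ * ‖e‖ := abs_real_inner_le_norm w e
  have hs : 0 < √τ := Real.sqrt_pos.2 hτ
  have hss : √τ * √τ = τ := Real.mul_self_sqrt hτ.le
  have h2 : heatK τ w = 2 ^ ((N : ℝ) / 2) * heatK (2 * τ) w * Real.exp (-(‖w‖ ^ 2 / (8 * τ))) := by
    unfold heatK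
    have h3 : 4 * Real.pi * (2 * τ) = 2 * (4 * Real.pi * τ) := by ring
    have h4 := two_rpow_aux (N := N) (A := 4 * Real.pi * τ) (by positivity)
    have h5 : -(‖w‖ ^ 2 / (4 * τ)) = -(‖w‖ ^ 2 / (4 * (2 * τ))) + -(‖w‖ ^ 2 / (8 * τ)) := by
      field_simp
      ring
    rw [h3, ← h4, h5, Real.exp_add]
    ring
  have h4 : ‖w‖ / (2 * τ) * Real.exp (-(‖w‖ ^ 2 / (8 * τ))) ≤ 1 / √τ := by
    have h5 : ‖w‖ / (2 * √τ) ≤ Real.exp (‖w‖ ^ 2 / (8 * τ)) := by
      have h6 := Real.add_one_le_exp (‖w‖ ^ 2 / (8 * τ))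
      have h7 : ‖w‖ / (2 * √τ) ≤ ‖w‖ ^ 2 / (8 * τ) + 1 := by
        have h8 : ‖w‖ ^ 2 / (8 * τ) = (‖w‖ / (2 * √τ)) ^ 2 / 2 := by
          rw [div_pow, mul_pow, sq √τ, hss]
          field_simp
          ring
        rw [h8]
        nlinarith [sq_nonneg (‖w‖ / (2 * √τ) - 1)]
      linarith
    rw [Real.exp_neg, ← div_eq_mul_inv, div_le_iff₀ (Real.exp_pos _)]
    calc ‖w‖ / (2 * τ) = ‖w‖ / (2 * √τ) * (1 / √τ) := by
          rw [div_mul_div_comm, mul_one, mul_assoc, hss]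
      _ ≤ Real.exp (‖w‖ ^ 2 / (8 * τ)) * (1 / √τ) := by gcongr
      _ = _ := by ring
  have h9 : 0 ≤ heatK (2 * τ) w := heatK_nonneg (by positivity) w
  rw [h2]
  calc |inner ℝ w e| / (2 * τ) * (2 ^ ((N : ℝ) / 2) * heatK (2 * τ) w *
        Real.exp (-(‖w‖ ^ 2 / (8 * τ))))
      ≤ ‖w‖ * ‖e‖ / (2 * τ) * (2 ^ ((N : ℝ) / 2) * heatK (2 * τ) w *
        Real.exp (-(‖w‖ ^ 2 / (8 * τ)))) := by gcongr
    _ = (‖w‖ / (2 * τ) * Real.exp (-(‖w‖ ^ 2 / (8 * τ)))) *
        (‖e‖ * 2 ^ ((N : ℝ) / 2) * heatK (2 * τ) w) := by ring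
    _ ≤ (1 / √τ) * (‖e‖ * 2 ^ ((N : ℝ) / 2) * heatK (2 * τ) w) := by gcongr
    _ = _ := by ring

/-- local domination -/
theorem heatK_dom {τ : ℝ} (hτ : 0 < τ) {a b : E N} (h : ‖a - b‖ ≤ 1) :
    heatK τ a ≤ 2 ^ ((N : ℝ) / 2) * Real.exp (1 / (4 * τ)) * heatK (2 * τ) b := by
  unfold heatK
  have h3 : 4 * Real.pi * (2 * τ) = 2 * (4 * Real.pi * τ) := by ring
  have h4 : 2 ^ ((N : ℝ) / 2) * Real.exp (1 / (4 * τ)) * ((4 * Real.pi * (2 * τ)) ^ (-((N : ℝ) / 2)) *
      Real.exp (-(‖b‖ ^ 2 / (4 * (2 * τ))))) = (4 * Real.pi * τ) ^ (-((N : ℝ) / 2)) *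
      Real.exp (1 / (4 * τ) + -(‖b‖ ^ 2 / (4 * (2 * τ)))) := by
    rw [h3, Real.exp_add]
    have := two_rpow_aux (N := N) (A := 4 * Real.pi * τ) (by positivity)
    rw [← this]
    ring
  rw [h4]
  gcongr
  have h5 : ‖b‖ ≤ ‖a‖ + 1 := by
    have : ‖b‖ ≤ ‖a‖ + ‖a - b‖ := by
      have := norm_sub_le a (a - b)
      simpa using this
    linarith
  have h6 : ‖b‖ ^ 2 ≤ 2 * ‖a‖ ^ 2 + 2 := by
    nlinarith [norm_nonneg b, norm_nonneg a, sq_nonneg (‖a‖ - 1)]
  have h7 : -(‖a‖ ^ 2 / (4 * τ)) = (-(2 * ‖a‖ ^ 2)) / (8 * τ) := by field_simp; ring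
  have h8 : 1 / (4 * τ) + -(‖b‖ ^ 2 / (4 * (2 * τ))) = (2 - ‖b‖ ^ 2) / (8 * τ) := by field_simp; ring
  rw [h7, h8]
  gcongr
  linarith

theorem dK_dom {τ : ℝ} (hτ : 0 < τ) (e : E N) : ∃ C : ℝ, 0 ≤ C ∧ ∀ a b : E N, ‖a - b‖ ≤ 1 →
    |dK τ e a| ≤ C * heatK (4 * τ) b := by
  refine ⟨‖e‖ * 2 ^ ((N : ℝ) / 2) / √τ * (2 ^ ((N : ℝ) / 2) * Real.exp (1 / (4 * (2 * τ)))),
    by positivity, fun a b h => (dK_le hτ e a).trans ?_⟩
  have h1 := heatK_dom (by positivity : 0 < 2 * τ) h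
  rw [show 2 * (2 * τ) = 4 * τ by ring] at h1
  rw [mul_assoc]
  gcongr

theorem dK_int {τ : ℝ} (hτ : 0 < τ) (e x : E N) {φ : E N → ℝ} (hφ : Measurable φ) {B : ℝ}
    (hB : ∀ y, |φ y| ≤ B) : Integrable (fun y => dK τ e (x - y) * φ y) := by
  have hB0 : 0 ≤ B := (abs_nonneg _).trans (hB 0)
  refine Integrable.mono' (g := fun y => ‖e‖ * 2 ^ ((N : ℝ) / 2) / √τ * heatK (2 * τ) (x - y) * B)
    (((heatK_integrable' (by positivity) x).const_mul _).mul_const B) ?_ ?_
  · exact (((dK_cont τ e).measurable.comp (measurable_const.sub measurable_id)).mul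
      hφ).aestronglyMeasurable
  · refine Eventually.of_forall fun y => ?_
    rw [norm_mul, Real.norm_eq_abs, Real.norm_eq_abs]
    exact mul_le_mul (dK_le hτ e _) (hB y) (abs_nonneg _)
      (mul_nonneg (by positivity) (heatK_nonneg (by positivity) _))

/-- the derivative of `heatP` -/
def dP (τ : ℝ) (e : E N) (φ : E N → ℝ) (x : E N) : ℝ := ∫ y, dK τ e (x - y) * φ y

theorem dP_le {τ : ℝ} (hτ : 0 < τ) (e x : E N) {φ : E N → ℝ} {B : ℝ}
    (hB : ∀ y, |φ y| ≤ B) : |dP τ e φ x| ≤ ‖e‖ * 2 ^ ((N : ℝ) / 2) / √τ * B := by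
  have hB0 : 0 ≤ B := (abs_nonneg _).trans (hB 0)
  unfold dP
  have h1 : |∫ y, dK τ e (x - y) * φ y| ≤ ∫ y, ‖e‖ * 2 ^ ((N : ℝ) / 2) / √τ *
      heatK (2 * τ) (x - y) * B := by
    rw [← Real.norm_eq_abs]
    refine norm_integral_le_of_norm_le
      (((heatK_integrable' (by positivity) x).const_mul _).mul_const B) ?_
    refine Eventually.of_forall fun y => ?_
    rw [norm_mul, Real.norm_eq_abs, Real.norm_eq_abs]
    exact mul_le_mul (dK_le hτ e _) (hB y) (abs_nonneg _)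
      (mul_nonneg (by positivity) (heatK_nonneg (by positivity) _))
  refine h1.trans (le_of_eq ?_)
  rw [integral_mul_const, integral_const_mul, heatK_int1' (by positivity), mul_one]

theorem dP_cont {τ : ℝ} (hτ : 0 < τ) (e : E N) {φ : E N → ℝ} (hφ : Measurable φ) {B : ℝ}
    (hB : ∀ y, |φ y| ≤ B) : Continuous (dP τ e φ) := by
  have hB0 : 0 ≤ B := (abs_nonneg _).trans (hB 0)
  obtain ⟨C, hC0, hC⟩ := dK_dom hτ e
  rw [continuous_iff_continuousAt]
  intro x₀
  unfold dP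
  refine continuousAt_of_dominated (bound := fun y => C * heatK (4 * τ) (x₀ - y) * B) ?_ ?_ ?_ ?_
  · refine Eventually.of_forall fun x => ?_
    exact (((dK_cont τ e).measurable.comp (measurable_const.sub measurable_id)).mul
      hφ).aestronglyMeasurable
  · filter_upwards [Metric.closedBall_mem_nhds x₀ one_pos] with x hx
    refine Eventually.of_forall fun y => ?_
    rw [norm_mul, Real.norm_eq_abs, Real.norm_eq_abs]
    have h1 : ‖(x - y) - (x₀ - y)‖ ≤ 1 := by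
      rw [sub_sub_sub_cancel_right, ← dist_eq_norm]
      exact hx
    exact mul_le_mul (hC _ _ h1) (hB y) (abs_nonneg _)
      (mul_nonneg hC0 (heatK_nonneg (by positivity) _))
  · exact ((heatK_integrable' (by positivity) x₀).const_mul _).mul_const B
  · refine Eventually.of_forall fun y => ?_
    exact (((dK_cont τ e).comp (continuous_id.sub continuous_const)).mul_const _).continuousAt

theorem heatP_hasDerivAt {τ : ℝ} (hτ : 0 < τ) (e : E N) {φ : E N → ℝ} (hφ : Measurable φ) {B : ℝ}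
    (hB : ∀ y, |φ y| ≤ B) (x : E N) (z₀ : ℝ) :
    HasDerivAt (fun z : ℝ => heatP τ φ (x + z • e)) (dP τ e φ (x + z₀ • e)) z₀ := by
  have hB0 : 0 ≤ B := (abs_nonneg _).trans (hB 0)
  obtain ⟨C, hC0, hC⟩ := dK_dom hτ e
  unfold dP heatP
  have hkm : ∀ z : ℝ, AEStronglyMeasurable (fun y : E N => heatK τ (x + z • e - y) * φ y) volume := by
    intro z
    have hc : Continuous fun z : E N => heatK τ z := heatK_cont
    exact ((hc.measurable.comp (measurable_const.sub measurable_id)).mul hφ).aestronglyMeasurable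
  refine (hasDerivAt_integral_of_dominated_loc_of_deriv_le
    (F := fun z y => heatK τ (x + z • e - y) * φ y)
    (F' := fun z y => dK τ e (x + z • e - y) * φ y)
    (bound := fun y => C * heatK (4 * τ) (x + z₀ • e - y) * B)
    (Metric.ball_mem_nhds z₀ (by positivity : 0 < 1 / (‖e‖ + 1))) ?_ ?_ ?_ ?_ ?_ ?_).2
  · exact Eventually.of_forall hkm
  · exact int_bdd_mul hτ _ hφ hB
  · exact (((dK_cont τ e).measurable.comp (measurable_const.sub measurable_id)).mul
      hφ).aestronglyMeasurable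
  · refine Eventually.of_forall fun y z hz => ?_
    rw [norm_mul, Real.norm_eq_abs, Real.norm_eq_abs]
    have h1 : ‖(x + z • e - y) - (x + z₀ • e - y)‖ ≤ 1 := by
      have h2 : (x + z • e - y) - (x + z₀ • e - y) = (z - z₀) • e := by
        rw [sub_smul]; abel
      rw [h2, norm_smul]
      rw [Metric.mem_ball, Real.dist_eq] at hz
      rw [Real.norm_eq_abs]
      have h3 : 0 ≤ ‖e‖ := norm_nonneg e
      calc |z - z₀| * ‖e‖ ≤ 1 / (‖e‖ + 1) * (‖e‖ + 1) := by gcongr; linarith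
        _ = 1 := by field_simp
    exact mul_le_mul (hC _ _ h1) (hB y) (abs_nonneg _)
      (mul_nonneg hC0 (heatK_nonneg (by positivity) _))
  · exact ((heatK_integrable' (by positivity) _).const_mul _).mul_const B
  · refine Eventually.of_forall fun y z _ => ?_
    have h1 := (heatK_hasDerivAt τ e (x - y) z).mul_const (φ y)
    have h2 : ∀ z : ℝ, x - y + z • e = x + z • e - y := fun z => by abel
    simpa only [h2] using h1

theorem heatP_C1 {τ : ℝ} (hτ : 0 < τ) (e : E N) (B : ℝ) : ∃ C : ℝ, ∀ φ : E N → ℝ,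
    Measurable φ → (∀ y, |φ y| ≤ B) → ∃ φ' : E N → ℝ, Continuous φ' ∧ (∀ y, |φ' y| ≤ C) ∧
      ∀ (x : E N) (z : ℝ), HasDerivAt (fun z : ℝ => heatP τ φ (x + z • e)) (φ' (x + z • e)) z :=
  ⟨‖e‖ * 2 ^ ((N : ℝ) / 2) / √τ * B, fun φ hφ hB => ⟨dP τ e φ, dP_cont hτ e hφ hB,
    fun y => dP_le hτ e y hB, fun x z => heatP_hasDerivAt hτ e hφ hB x z⟩⟩

theorem hasDerivAt_shift {e : E N} {φ φ' : E N → ℝ}
    (hd : ∀ x : E N, HasDerivAt (fun z : ℝ => φ (x + z • e)) (φ' x) 0) (x : E N) (z : ℝ) :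
    HasDerivAt (fun z : ℝ => φ (x + z • e)) (φ' (x + z • e)) z := by
  have h1 := hd (x + z • e)
  have h2 : HasDerivAt (fun t : ℝ => φ (x + z • e + (t - z) • e)) (φ' (x + z • e)) z := by
    rw [← sub_self z] at h1
    exact HasDerivAt.comp_sub_const z z h1
  refine h2.congr_of_eventuallyEq (Eventually.of_forall fun t => ?_)
  simp only
  congr 1
  rw [sub_smul]
  abel

theorem heatP_deriv {τ : ℝ} (hτ : 0 < τ) {e : E N} {φ φ' : E N → ℝ} (hφ : Measurable φ)
    (hφ' : Measurable φ') {B : ℝ} (hB : ∀ y, |φ y| ≤ B) (hB' : ∀ y, |φ' y| ≤ B)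
    (hd : ∀ x : E N, HasDerivAt (fun z : ℝ => φ (x + z • e)) (φ' x) 0) (x : E N) (z : ℝ) :
    HasDerivAt (fun z : ℝ => heatP τ φ (x + z • e)) (heatP τ φ' (x + z • e)) z := by
  have hB0 : 0 ≤ B := (abs_nonneg _).trans (hB 0)
  have hsub : ∀ (ψ : E N → ℝ) (u : E N), heatP τ ψ u = ∫ y, heatK τ y * ψ (u - y) := by
    intro ψ u
    unfold heatP
    rw [← integral_sub_left_eq_self (fun y => heatK τ y * ψ (u - y)) volume u]
    congr 1
    funext y
    rw [sub_sub_cancel]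
  simp only [hsub]
  have hc : Continuous fun z : E N => heatK τ z := heatK_cont
  have hm : ∀ (ψ : E N → ℝ), Measurable ψ → ∀ u : E N,
      AEStronglyMeasurable (fun y : E N => heatK τ y * ψ (u - y)) volume := fun ψ hψ u =>
    (hc.measurable.mul (hψ.comp (measurable_const.sub measurable_id))).aestronglyMeasurable
  have hbd : ∀ (ψ : E N → ℝ), (∀ y, |ψ y| ≤ B) → ∀ u y : E N,
      ‖heatK τ y * ψ (u - y)‖ ≤ heatK τ y * B := by
    intro ψ hψ u y
    rw [norm_mul, Real.norm_eq_abs, Real.norm_eq_abs, abs_of_nonneg (heatK_nonneg hτ _)]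
    exact mul_le_mul_of_nonneg_left (hψ _) (heatK_nonneg hτ _)
  refine (hasDerivAt_integral_of_dominated_loc_of_deriv_le
    (F := fun z y => heatK τ y * φ (x + z • e - y))
    (F' := fun z y => heatK τ y * φ' (x + z • e - y))
    (bound := fun y => heatK τ y * B) (Filter.univ_mem) ?_ ?_ ?_ ?_ ?_ ?_).2
  · exact Eventually.of_forall fun z => hm φ hφ _
  · exact Integrable.mono' ((heatK_integrable hτ).mul_const B) (hm φ hφ _)
      (Eventually.of_forall fun y => hbd φ hB _ y)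
  · exact hm φ' hφ' _
  · exact Eventually.of_forall fun y z _ => hbd φ' hB' _ y
  · exact (heatK_integrable hτ).mul_const B
  · refine Eventually.of_forall fun y z _ => ?_
    have h1 := (hasDerivAt_shift hd (x - y) z).const_mul (heatK τ y)
    have h2 : ∀ z : ℝ, x - y + z • e = x + z • e - y := fun z => by abel
    simpa only [h2] using h1

end

end Pool.Agent.T2H75.FK
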