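import Pool.Agent.T2H75.FK.E1a

set_option autoImplicit false

/-!
Package E1b (theorems duh_C1, duh_deriv): directional derivatives of the Duhamel term.

`duh_C1`: `D(x) = ∫_a^b ∫ dG_{b-r}(x-y) H(r,y) dy dr`.  As `∫ |dG_τ| ≤ C τ^{-1/2}`, the integral
converges and `|D| ≤ C`; differentiation under the integral sign is dominated by
`C B (b-r)^{-1/2}`, and `D` is continuous by dominated convergence in `r`.

`duh_deriv`: differentiate under the integral sign (bounded derivative).
-/

open MeasureTheory Set Filter Topology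
open scoped ENNReal InnerProductSpace Laplacian

namespace Pool.Agent.T2H75.FK

open Pool.Agent.X297.KP

noncomputable section

variable {N : ℕ}

theorem meas_slice {H : ℝ → E N → ℝ} (hH : Measurable (fun p : ℝ × E N => H p.1 p.2)) (r : ℝ) :
    Measurable (H r) :=
  hH.comp (measurable_const.prodMk measurable_id)

theorem meas_duh {H : ℝ → E N → ℝ} (hH : Measurable (fun p : ℝ × E N => H p.1 p.2)) (b : ℝ)
    (x : E N) : StronglyMeasurable (fun r : ℝ => heatP (b - r) (H r) x) := by
  unfold heatP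
  refine StronglyMeasurable.integral_prod_right (f := fun (r : ℝ) (y : E N) =>
    heatK (b - r) (x - y) * H r y) ?_
  refine Measurable.stronglyMeasurable ?_
  refine Measurable.mul ?_ hH
  exact heatK_meas.comp ((measurable_const.sub measurable_fst).prodMk
    (measurable_const.sub measurable_snd))

theorem meas_dduh {H : ℝ → E N → ℝ} (hH : Measurable (fun p : ℝ × E N => H p.1 p.2)) (b : ℝ)
    (e x : E N) : StronglyMeasurable (fun r : ℝ => dP (b - r) e (H r) x) := by
  have h1 : Measurable (fun p : ℝ × E N => dK (b - p.1) e (x - p.2)) :=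
    (dK_meas e).comp (f := fun p : ℝ × E N => (b - p.1, x - p.2))
      ((measurable_const.sub measurable_fst).prodMk (measurable_const.sub measurable_snd))
  have h2 : Measurable (fun p : ℝ × E N => dK (b - p.1) e (x - p.2) * H p.1 p.2) := h1.mul hH
  exact StronglyMeasurable.integral_prod_right (f := fun (r : ℝ) (y : E N) =>
    dK (b - r) e (x - y) * H r y) h2.stronglyMeasurable

theorem heatP_le {τ : ℝ} (hτ : 0 < τ) {φ : E N → ℝ} {B : ℝ} (hB : ∀ y, |φ y| ≤ B) (x : E N) :
    |heatP τ φ x| ≤ B := by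
  unfold heatP
  have h1 : |∫ y, heatK τ (x - y) * φ y| ≤ ∫ y, heatK τ (x - y) * B := by
    rw [← Real.norm_eq_abs]
    refine norm_integral_le_of_norm_le ((heatK_integrable' hτ x).mul_const B) ?_
    refine Eventually.of_forall fun y => ?_
    rw [norm_mul, Real.norm_eq_abs, Real.norm_eq_abs, abs_of_nonneg (heatK_nonneg hτ _)]
    exact mul_le_mul_of_nonneg_left (hB y) (heatK_nonneg hτ _)
  refine h1.trans (le_of_eq ?_)
  rw [integral_mul_const, heatK_int1' hτ, one_mul]

theorem inv_sqrt_int {a b : ℝ} (hab : a < b) :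
    IntervalIntegrable (fun r : ℝ => 1 / √(b - r)) volume a b ∧
      ∫ r in a..b, 1 / √(b - r) = 2 * √(b - a) := by
  have h0 : ∀ r : ℝ, 1 / √(b - r) = (fun t : ℝ => t ^ (-(1 / 2) : ℝ)) (b - r) ∨ b - r < 0 := by
    intro r
    rcases lt_or_ge (b - r) 0 with h | h
    · exact Or.inr h
    · left
      simp only
      rw [Real.rpow_neg h, ← Real.sqrt_eq_rpow, one_div]
  have h1 : IntervalIntegrable (fun t : ℝ => t ^ (-(1 / 2) : ℝ)) volume 0 (b - a) :=
    intervalIntegral.intervalIntegrable_rpow' (by norm_num)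
  have h2 : IntervalIntegrable (fun r : ℝ => (fun t : ℝ => t ^ (-(1 / 2) : ℝ)) (b - r)) volume a b := by
    have := (h1.comp_sub_left b).symm
    simpa using this
  have hcongr : ∀ r ∈ Set.uIoc a b, (fun r : ℝ => (fun t : ℝ => t ^ (-(1 / 2) : ℝ)) (b - r)) r =
      (fun r : ℝ => 1 / √(b - r)) r := by
    intro r hr
    rw [Set.uIoc_of_le hab.le] at hr
    rcases h0 r with h | h
    · exact h.symm
    · linarith [hr.2]
  refine ⟨h2.congr hcongr, ?_⟩
  rw [← intervalIntegral.integral_congr_ae (Filter.Eventually.of_forall hcongr)]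
  rw [intervalIntegral.integral_comp_sub_left (fun t : ℝ => t ^ (-(1 / 2) : ℝ)) b, sub_self,
    integral_rpow (Or.inl (by norm_num))]
  rw [Real.sqrt_eq_rpow]
  norm_num
  ring

set_option linter.unusedVariables false in
theorem duh_C1 {T : ℝ} (hT : 0 < T) (e : E N) (B : ℝ) : ∃ C : ℝ, ∀ H : ℝ → E N → ℝ,
    Measurable (fun p : ℝ × E N => H p.1 p.2) → (∀ r y, |H r y| ≤ B) →
    ∀ a b : ℝ, a < b → b - a ≤ T → ∃ D : E N → ℝ, Continuous D ∧ (∀ x, |D x| ≤ C) ∧
      ∀ (x : E N) (z : ℝ), HasDerivAt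
        (fun z : ℝ => ∫ r in a..b, heatP (b - r) (H r) (x + z • e)) (D (x + z • e)) z := by
  set c : ℝ := ‖e‖ * 2 ^ ((N : ℝ) / 2) with hc
  have hc0 : 0 ≤ c := by positivity
  refine ⟨c * B * (2 * √T), fun H hH hB a b hab hbT => ?_⟩
  have hB0 : 0 ≤ B := (abs_nonneg _).trans (hB 0 0)
  obtain ⟨hi, hv⟩ := inv_sqrt_int hab
  have hbi : IntervalIntegrable (fun r : ℝ => c * B * (1 / √(b - r))) volume a b := hi.const_mul _
  have hne : ∀ᵐ r : ℝ ∂volume, r ≠ b := by
    simp [ae_iff]
  have hbd : ∀ x : E N, ∀ r : ℝ, r < b → ‖dP (b - r) e (H r) x‖ ≤ c * B * (1 / √(b - r)) := by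
    intro x r hr
    rw [Real.norm_eq_abs]
    refine (dP_le (sub_pos.2 hr) e x (hB r)).trans (le_of_eq ?_)
    rw [← hc]
    ring
  have hbd' : ∀ x : E N, ∀ᵐ r ∂volume, r ∈ Set.uIoc a b →
      ‖dP (b - r) e (H r) x‖ ≤ c * B * (1 / √(b - r)) := by
    intro x
    filter_upwards [hne] with r hr hr'
    rw [Set.uIoc_of_le hab.le] at hr'
    exact hbd x r (lt_of_le_of_ne hr'.2 hr)
  refine ⟨fun x => ∫ r in a..b, dP (b - r) e (H r) x, ?_, ?_, ?_⟩
  · refine intervalIntegral.continuous_of_dominated_interval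
      (bound := fun r => c * B * (1 / √(b - r))) ?_ ?_ hbi ?_
    · exact fun x => (meas_dduh hH b e x).aestronglyMeasurable
    · exact hbd'
    · filter_upwards [hne] with r hr hr'
      rw [Set.uIoc_of_le hab.le] at hr'
      exact dP_cont (sub_pos.2 (lt_of_le_of_ne hr'.2 hr)) e (meas_slice hH r) (hB r)
  · intro x
    have h1 : |∫ r in a..b, dP (b - r) e (H r) x| ≤ ∫ r in a..b, c * B * (1 / √(b - r)) := by
      rw [← Real.norm_eq_abs]
      refine intervalIntegral.norm_integral_le_of_norm_le hab.le ?_ hbi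
      filter_upwards [hne] with r hr hr'
      exact hbd x r (lt_of_le_of_ne hr'.2 hr)
    refine h1.trans ?_
    rw [intervalIntegral.integral_const_mul, hv]
    have h2 : √(b - a) ≤ √T := Real.sqrt_le_sqrt hbT
    gcongr
  · intro x z₀
    refine (intervalIntegral.hasDerivAt_integral_of_dominated_loc_of_deriv_le
      (F := fun z r => heatP (b - r) (H r) (x + z • e))
      (F' := fun z r => dP (b - r) e (H r) (x + z • e))
      (bound := fun r => c * B * (1 / √(b - r))) (Filter.univ_mem) ?_ ?_ ?_ ?_ hbi ?_).2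
    · exact Eventually.of_forall fun z => (meas_duh hH b _).aestronglyMeasurable
    · refine IntervalIntegrable.mono_fun' (g := fun _ => B) intervalIntegrable_const
        (meas_duh hH b _).aestronglyMeasurable ?_
      rw [Filter.EventuallyLE, ae_restrict_iff' measurableSet_uIoc]
      filter_upwards [hne] with r hr hr'
      rw [Set.uIoc_of_le hab.le] at hr'
      rw [Real.norm_eq_abs]
      exact heatP_le (sub_pos.2 (lt_of_le_of_ne hr'.2 hr)) (hB r) _
    · exact (meas_dduh hH b e _).aestronglyMeasurable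
    · filter_upwards [hne] with r hr hr' z _
      rw [Set.uIoc_of_le hab.le] at hr'
      exact hbd _ r (lt_of_le_of_ne hr'.2 hr)
    · filter_upwards [hne] with r hr hr' z _
      rw [Set.uIoc_of_le hab.le] at hr'
      exact heatP_hasDerivAt (sub_pos.2 (lt_of_le_of_ne hr'.2 hr)) e (meas_slice hH r) (hB r) x z

theorem duh_deriv {e : E N} {H H' : ℝ → E N → ℝ}
    (hm : Measurable (fun p : ℝ × E N => H p.1 p.2))
    (hm' : Measurable (fun p : ℝ × E N => H' p.1 p.2)) {B : ℝ} (hB : ∀ r y, |H r y| ≤ B)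
    (hB' : ∀ r y, |H' r y| ≤ B) {a b : ℝ} (hab : a < b)
    (hd : ∀ r ∈ Ioo a b, ∀ x : E N, HasDerivAt (fun z : ℝ => H r (x + z • e)) (H' r x) 0)
    (x : E N) (z : ℝ) :
    HasDerivAt (fun z : ℝ => ∫ r in a..b, heatP (b - r) (H r) (x + z • e))
      (∫ r in a..b, heatP (b - r) (H' r) (x + z • e)) z := by
  have hne : ∀ᵐ r : ℝ ∂volume, r ≠ b := by
    simp [ae_iff]
  refine (intervalIntegral.hasDerivAt_integral_of_dominated_loc_of_deriv_le
    (F := fun z r => heatP (b - r) (H r) (x + z • e))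
    (F' := fun z r => heatP (b - r) (H' r) (x + z • e))
    (bound := fun _ => B) (Filter.univ_mem) ?_ ?_ ?_ ?_ intervalIntegrable_const ?_).2
  · exact Eventually.of_forall fun z => (meas_duh hm b _).aestronglyMeasurable
  · refine IntervalIntegrable.mono_fun' (g := fun _ => B) intervalIntegrable_const
      (meas_duh hm b _).aestronglyMeasurable ?_
    rw [Filter.EventuallyLE, ae_restrict_iff' measurableSet_uIoc]
    filter_upwards [hne] with r hr hr'
    rw [Set.uIoc_of_le hab.le] at hr'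
    rw [Real.norm_eq_abs]
    exact heatP_le (sub_pos.2 (lt_of_le_of_ne hr'.2 hr)) (hB r) _
  · exact (meas_duh hm' b _).aestronglyMeasurable
  · filter_upwards [hne] with r hr hr' z _
    rw [Set.uIoc_of_le hab.le] at hr'
    rw [Real.norm_eq_abs]
    exact heatP_le (sub_pos.2 (lt_of_le_of_ne hr'.2 hr)) (hB' r) _
  · filter_upwards [hne] with r hr hr' z _
    rw [Set.uIoc_of_le hab.le] at hr'
    have hrb : r < b := lt_of_le_of_ne hr'.2 hr
    exact heatP_deriv (sub_pos.2 hrb) (meas_slice hm r) (meas_slice hm' r) (hB r) (hB' r)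
      (hd r ⟨hr'.1, hrb⟩) x z

end

end Pool.Agent.T2H75.FK
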