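import Pool.Agent.T2H75.FK.Ini

set_option autoImplicit false

/-!
Package E2: the limit of `u(t_n - 1 + r, x_n + ·)`, `r ∈ [0,1]`, satisfies Duhamel's formula.

Given the pointwise limit at `r = 0`, `compare` (applied in both directions to `u(t_n-1+·, x_n+·)`
and `u(t_m-1+·, x_m+·)`) shows `|u_n(r) - u_m(r)| ≤ e^{M} G_r * |u_n(0) - u_m(0)|`, which tends to
`0` (dominated convergence), so the limit `V(r,y)` exists for all `r ∈ [0,1]`.  `duality` applied to
`u` and to `-u` (on `[t_n-1+s, t_n-1+r]`, `h = ± f(u)`) gives Duhamel's formula for `u_n`; pass to the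
limit by dominated convergence.  (Define `V` to be `0` outside the range where the limit exists, e.g.
`V r y = limUnder`/`if 0 ≤ r ∧ r ≤ 1 then lim … else 0`; measurability: limit of measurable
functions; `u` is continuous on `(0,∞) × ℝ^N`.)
-/

open MeasureTheory Set Filter Topology
open scoped ENNReal InnerProductSpace Laplacian

namespace Pool.Agent.T2H75.FK

open Pool.Agent.X297.KP

noncomputable section

variable {N : ℕ}

theorem reg_tr {v vt : ℝ → E N → ℝ} {s t : ℝ} (h : Reg v vt s t) (a : ℝ) (b : E N) :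
    Reg (fun r y => v (a + r) (b + y)) (fun r y => vt (a + r) (b + y)) (s - a) (t - a) := by
  have hc : Continuous (fun p : ℝ × E N => (a + p.1, b + p.2)) := by fun_prop
  refine ⟨?_, ?_, ?_, ?_⟩
  · refine h.cont.comp (f := fun p : ℝ × E N => (a + p.1, b + p.2)) hc.continuousOn ?_
    rintro ⟨r, y⟩ hr
    refine ⟨⟨?_, ?_⟩, mem_univ _⟩
    · have := hr.1.1
      simp only at this ⊢
      linarith
    · have := hr.1.2
      simp only at this ⊢
      linarith
  · intro r hr y
    exact (h.dt (a + r) ⟨by linarith [hr.1], by linarith [hr.2]⟩ (b + y)).comp_const_add a r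
  · refine h.dtc.comp (f := fun p : ℝ × E N => (a + p.1, b + p.2)) hc.continuousOn ?_
    rintro ⟨r, y⟩ hr
    refine ⟨⟨?_, ?_⟩, mem_univ _⟩
    · have := hr.1.1
      simp only at this ⊢
      linarith
    · have := hr.1.2
      simp only at this ⊢
      linarith
  · intro r hr
    exact (h.sp (a + r) ⟨by linarith [hr.1], by linarith [hr.2]⟩).comp
      (contDiff_const.add contDiff_id)

theorem lap_tr (φ : E N → ℝ) (b y : E N) : Δ (fun z => φ (b + z)) y = Δ φ (b + y) := by
  rw [InnerProductSpace.laplacian_eq_iteratedFDeriv_stdOrthonormalBasis,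
    InnerProductSpace.laplacian_eq_iteratedFDeriv_stdOrthonormalBasis]
  simp only [iteratedFDeriv_comp_add_left]

theorem NL.bd {f : ℝ → ℝ} {M : ℝ} (hf : NL f M) {a : ℝ} (ha : a ∈ Icc (0:ℝ) 1) : |f a| ≤ M := by
  have h1 := hf.lip a ha 0 ⟨le_rfl, zero_le_one⟩
  rw [hf.zero, sub_zero, sub_zero, abs_of_nonneg ha.1] at h1
  have := hf.M0
  nlinarith [ha.2, abs_nonneg (f a)]

theorem NL.ext_cont {f : ℝ → ℝ} {M : ℝ} (hf : NL f M) : Continuous (ext f) := by
  unfold Pool.Agent.X297.KP.ext
  apply hf.cont.comp_continuous (by fun_prop)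
  intro s
  exact ⟨le_max_left _ _, max_le zero_le_one (min_le_left _ _)⟩

theorem duhamel_cl {f : ℝ → ℝ} {M : ℝ} (hf : NL f M) {v vt : ℝ → E N → ℝ} {s t : ℝ}
    (hst : s < t) (hv : Reg v vt s t) (hv01 : ∀ r ∈ Icc s t, ∀ y, v r y ∈ Icc (0:ℝ) 1)
    (heq : ∀ r ∈ Ioo s t, ∀ y, vt r y = Δ (v r) y + f (v r y)) (x : E N) :
    v t x = heatP (t - s) (v s) x + ∫ r in s..t, heatP (t - r) (fun y => f (v r y)) x := by
  have hM := hf.M0
  have hhc : ContinuousOn (fun p : ℝ × E N => f (v p.1 p.2)) (Ioo s t ×ˢ univ) := by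
    refine hf.cont.comp (f := fun p : ℝ × E N => v p.1 p.2)
      (hv.cont.mono (prod_mono Ioo_subset_Icc_self le_rfl)) ?_
    rintro ⟨r, y⟩ hr
    exact hv01 r (Ioo_subset_Icc_self hr.1) y
  apply le_antisymm
  · refine duality (h := fun r y => f (v r y)) (B := 1 + M) hst hv ?_ hhc ?_
      (fun r hr y => (heq r hr y).le) x
    · intro r hr y
      have := hv01 r hr y
      rw [abs_of_nonneg this.1]
      linarith [this.2]
    · intro r hr y
      have := hf.bd (hv01 r (Ioo_subset_Icc_self hr) y)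
      linarith
  · have hneg : Reg (fun r y => -1 * v r y) (fun r y => -1 * vt r y) s t := by
      refine ⟨continuousOn_const.mul hv.cont, fun r hr y => ?_, continuousOn_const.mul hv.dtc,
        fun r hr => contDiff_const.mul (hv.sp r hr)⟩
      exact (hv.dt r hr y).const_mul (-1)
    have h1 := duality (h := fun r y => -1 * f (v r y)) (B := 1 + M) hst hneg ?_
      (continuousOn_const.mul hhc) ?_ ?_ x
    · rw [heatP_smul] at h1
      have h2 : ∫ r in s..t, heatP (t - r) (fun y => -1 * f (v r y)) x =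
          -1 * ∫ r in s..t, heatP (t - r) (fun y => f (v r y)) x := by
        rw [← intervalIntegral.integral_const_mul]
        apply intervalIntegral.integral_congr
        intro r _
        exact heatP_smul _ _ _ _
      have h3 : heatP (t - s) (fun y => v s y) x = heatP (t - s) (v s) x := rfl
      rw [h2] at h1
      linarith
    · intro r hr y
      have := hv01 r hr y
      rw [abs_mul, abs_neg, abs_one, one_mul, abs_of_nonneg this.1]
      linarith [this.2]
    · intro r hr y
      have := hf.bd (hv01 r (Ioo_subset_Icc_self hr) y)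
      rw [abs_mul, abs_neg, abs_one, one_mul]
      linarith
    · intro r hr y
      have h4 : Δ (fun y => -1 * v r y) y = -1 * Δ (v r) y := by
        have := InnerProductSpace.laplacian_smul (-1 : ℝ) (hv.sp r hr).contDiffAt (x := y)
        have e : ((-1 : ℝ) • v r) = fun y => -1 * v r y := by
          funext z
          simp
        rw [e] at this
        rw [this, smul_eq_mul]
      rw [h4, heq r hr y]
      linarith

theorem heatP_abs_le {τ : ℝ} (hτ : 0 < τ) {φ : E N → ℝ} (hφ : Measurable φ) {B : ℝ}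
    (hB : ∀ y, |φ y| ≤ B) (x : E N) : |heatP τ φ x| ≤ B := by
  have hB0 : 0 ≤ B := (abs_nonneg _).trans (hB x)
  have h1 := heatP_mono hτ hφ (measurable_const (a := B)) hB (fun _ => by rw [abs_of_nonneg hB0])
    (fun y => (abs_le.mp (hB y)).2) x
  have h2 := heatP_mono hτ (measurable_const (a := -B)) hφ
    (fun _ => by rw [abs_neg, abs_of_nonneg hB0]) hB (fun y => (abs_le.mp (hB y)).1) x
  rw [heatP_const hτ] at h1 h2
  exact abs_le.mpr ⟨h2, h1⟩

theorem heatP_meas {H : ℝ → E N → ℝ} (hH : Measurable (fun p : ℝ × E N => H p.1 p.2)) (r : ℝ)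
    (x : E N) : Measurable (fun ρ => heatP (r - ρ) (H ρ) x) := by
  unfold heatP
  have h1 : Measurable (fun p : ℝ × E N => heatK (r - p.1) (x - p.2) * H p.1 p.2) := by
    refine Measurable.mul ?_ hH
    exact heatK_meas.comp ((measurable_const.sub measurable_fst).prodMk
      (measurable_const.sub measurable_snd))
  exact (h1.stronglyMeasurable.integral_prod_right).measurable

theorem limit_duhamel_aux {f : ℝ → ℝ} {M : ℝ} (hf : NL f M) {U : Set (E N)} {u : ℝ → E N → ℝ}
    (hu : IsClassicalSolution f U u) {t : ℕ → ℝ} {x : ℕ → E N} (ht : ∀ n, 1 < t n)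
    {φ1 : E N → ℝ} (h1 : ∀ y, Tendsto (fun n => u (t n - 1) (x n + y)) atTop (𝓝 (φ1 y))) :
    ∃ V : ℝ → E N → ℝ, Measurable (fun p : ℝ × E N => V p.1 p.2) ∧
      (∀ r y, V r y ∈ Icc (0:ℝ) 1) ∧
      (∀ r ∈ Icc (0:ℝ) 1, ∀ y, Tendsto (fun n => u (t n - 1 + r) (x n + y)) atTop (𝓝 (V r y))) ∧
      ∀ s ∈ Icc (0:ℝ) 1, ∀ r ∈ Icc (0:ℝ) 1, s < r → ∀ y, V r y = heatP (r - s) (V s) y +
        ∫ ρ in s..r, heatP (r - ρ) (fun y => f (V ρ y)) y := by
  classical
  -- the functions
  set w : ℕ → ℝ → E N → ℝ := fun n r y => u (t n - 1 + r) (x n + y) with hw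
  have hw01 : ∀ n, ∀ r, 0 ≤ r → ∀ y, w n r y ∈ Icc (0:ℝ) 1 := by
    intro n r hr y
    exact hu.range _ (by linarith [ht n]) _
  have hreg : ∀ n s r, 0 ≤ s → Reg (w n)
      (fun r y => deriv (fun r' => u r' (x n + y)) (t n - 1 + r)) s r := by
    intro n s r hs
    have h2 : Reg u (fun r y => deriv (fun r => u r y) r) (t n - 1 + s) (t n - 1 + r) :=
      hu.reg (by linarith [ht n])
    have h3 := reg_tr h2 (t n - 1) (x n)
    rwa [add_sub_cancel_left, add_sub_cancel_left] at h3
  have heq : ∀ n r, 0 < r → ∀ y, deriv (fun r' => u r' (x n + y)) (t n - 1 + r) =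
      Δ (w n r) y + f (w n r y) := by
    intro n r hr y
    rw [hu.eq (t n - 1 + r) (by linarith [ht n]) (x n + y)]
    have : Δ (w n r) y = Δ (u (t n - 1 + r)) (x n + y) := lap_tr _ _ _
    rw [this]
  have hwcont : ∀ n r, 0 ≤ r → Continuous (w n r) := by
    intro n r hr
    exact (hu.contDiff_two (t n - 1 + r) (by linarith [ht n])).continuous.comp
      (continuous_const.add continuous_id)
  -- cut off in time
  set W : ℕ → ℝ → E N → ℝ := fun n r y => if r ∈ Icc (0:ℝ) 1 then w n r y else 0 with hW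
  have hWm : ∀ n, Measurable (fun p : ℝ × E N => W n p.1 p.2) := by
    intro n
    have h2 : (fun p : ℝ × E N => W n p.1 p.2) =
        (Icc (0:ℝ) 1 ×ˢ (univ : Set (E N))).piecewise (fun p => w n p.1 p.2) (fun _ => 0) := by
      funext p
      by_cases hp : p.1 ∈ Icc (0:ℝ) 1
      · rw [Set.piecewise_eq_of_mem _ _ _ (show p ∈ Icc (0:ℝ) 1 ×ˢ (univ : Set (E N)) from
          ⟨hp, mem_univ _⟩)]
        simp only [hW, if_pos hp]
      · rw [Set.piecewise_eq_of_notMem _ _ _ (fun h => hp h.1)]
        simp only [hW, if_neg hp]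
    rw [h2]
    refine ContinuousOn.measurable_piecewise ?_ continuousOn_const
      (measurableSet_Icc.prod MeasurableSet.univ)
    exact (hreg n 0 1 le_rfl).cont
  have hW01 : ∀ n r y, W n r y ∈ Icc (0:ℝ) 1 := by
    intro n r y
    simp only [hW]
    split_ifs with h
    · exact hw01 n r h.1 y
    · exact ⟨le_rfl, zero_le_one⟩
  have hWw : ∀ n, ∀ r ∈ Icc (0:ℝ) 1, W n r = w n r := by
    intro n r hr
    funext y
    simp only [hW, if_pos hr]
  have hWmr : ∀ n r, Measurable (W n r) := fun n r => (hWm n).comp (measurable_const.prodMk measurable_id)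
  -- measurability of the limit at time 0
  have h1' : ∀ y, Tendsto (fun n => w n 0 y) atTop (𝓝 (φ1 y)) := by
    intro y
    simpa only [hw, add_zero] using h1 y
  have hφm : Measurable φ1 := by
    refine measurable_of_tendsto_metrizable (fun n => (hwcont n 0 le_rfl).measurable) ?_
    rw [tendsto_pi_nhds]
    exact h1'
  have hφ01 : ∀ y, φ1 y ∈ Icc (0:ℝ) 1 := fun y =>
    isClosed_Icc.mem_of_tendsto (h1' y) (Eventually.of_forall fun n => hw01 n 0 le_rfl y)
  -- existence of the limits
  have hlim : ∀ r ∈ Icc (0:ℝ) 1, ∀ y, ∃ l, Tendsto (fun n => w n r y) atTop (𝓝 l) := by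
    intro r hr y
    rcases hr.1.eq_or_lt with h0 | h0
    · exact ⟨φ1 y, by rw [← h0]; exact h1' y⟩
    · -- differences
      have hdm : ∀ n, Measurable (fun z => |w n 0 z - φ1 z|) := fun n =>
        ((hwcont n 0 le_rfl).measurable.sub hφm).abs
      have hdb : ∀ n z, |(|w n 0 z - φ1 z|)| ≤ 1 := by
        intro n z
        rw [abs_abs, abs_le]
        have a1 := hw01 n 0 le_rfl z
        have a2 := hφ01 z
        exact ⟨by linarith [a1.1, a2.2], by linarith [a1.2, a2.1]⟩
      have ha : Tendsto (fun n => heatP r (fun z => |w n 0 z - φ1 z|) y) atTop (𝓝 0) := by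
        have h2 := heatP_tendsto h0 hdm (B := 1) (Eventually.of_forall hdb)
          (ψ := fun _ => (0:ℝ)) (fun z => by
            have h3 := ((h1' z).sub_const (φ1 z)).abs
            simpa using h3) y
        rwa [heatP_const h0] at h2
      have hcmp : ∀ n m, w n r y - w m r y ≤ Real.exp (M * r) *
          (heatP r (fun z => |w n 0 z - φ1 z|) y + heatP r (fun z => |w m 0 z - φ1 z|) y) := by
        intro n m
        have h2 := compare hf h0 (hreg n 0 r le_rfl) (hreg m 0 r le_rfl)
          (fun ρ hρ z => hw01 n ρ hρ.1 z) (fun ρ hρ z => hw01 m ρ hρ.1 z)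
          (fun ρ hρ z => (heq n ρ hρ.1 z).le) (fun ρ hρ z => (heq m ρ hρ.1 z).ge) y
        rw [sub_zero] at h2
        refine h2.trans (mul_le_mul_of_nonneg_left ?_ (Real.exp_pos _).le)
        rw [← heatP_add h0 (hdm n) (hdm m) (hdb n) (hdb m)]
        refine heatP_mono (B := 2) h0 ?_ ((hdm n).add (hdm m)) ?_ ?_ ?_ y
        · exact ((hwcont n 0 le_rfl).measurable.sub (hwcont m 0 le_rfl).measurable).max
            measurable_const
        · intro z
          have a1 := hw01 n 0 le_rfl z
          have a2 := hw01 m 0 le_rfl z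
          rw [abs_of_nonneg (le_max_right _ _)]
          exact max_le (by linarith [a1.2, a2.1]) (by norm_num)
        · intro z
          have a1 := hdb n z
          have a2 := hdb m z
          calc _ ≤ |(|w n 0 z - φ1 z|)| + |(|w m 0 z - φ1 z|)| := abs_add_le _ _
            _ ≤ 2 := by linarith
        · intro z
          show max (w n 0 z - w m 0 z) 0 ≤ |w n 0 z - φ1 z| + |w m 0 z - φ1 z|
          refine max_le ?_ (by positivity)
          have a1 := le_abs_self (w n 0 z - φ1 z)
          have a2 := neg_abs_le (w m 0 z - φ1 z)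
          linarith
      have hC : 0 < Real.exp (M * r) := Real.exp_pos _
      apply cauchySeq_tendsto_of_complete
      rw [Metric.cauchySeq_iff]
      intro ε hε
      have h3 : ∀ᶠ n in atTop, heatP r (fun z => |w n 0 z - φ1 z|) y < ε / (2 * Real.exp (M * r)) :=
        (tendsto_order.1 ha).2 _ (by positivity)
      obtain ⟨n0, hn0⟩ := eventually_atTop.1 h3
      refine ⟨n0, fun m hm n hn => ?_⟩
      rw [Real.dist_eq, abs_lt]
      have b1 := hcmp n m
      have b2 := hcmp m n
      have b3 := hn0 m hm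
      have b4 := hn0 n hn
      have b5 : Real.exp (M * r) * (heatP r (fun z => |w n 0 z - φ1 z|) y +
          heatP r (fun z => |w m 0 z - φ1 z|) y) < ε := by
        calc _ < Real.exp (M * r) * (ε / (2 * Real.exp (M * r)) + ε / (2 * Real.exp (M * r))) :=
              mul_lt_mul_of_pos_left (by linarith) hC
          _ = ε := by field_simp; ring
      constructor
      · linarith
      · rw [add_comm (heatP r (fun z => |w m 0 z - φ1 z|) y)] at b2
        linarith
  have hlimW : ∀ r y, ∃ l, Tendsto (fun n => W n r y) atTop (𝓝 l) := by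
    intro r y
    by_cases hr : r ∈ Icc (0:ℝ) 1
    · obtain ⟨l, hl⟩ := hlim r hr y
      refine ⟨l, ?_⟩
      simpa only [hWw _ r hr] using hl
    · refine ⟨0, ?_⟩
      simp only [hW, if_neg hr]
      exact tendsto_const_nhds
  choose V hV using hlimW
  have hVm : Measurable (fun p : ℝ × E N => V p.1 p.2) := by
    refine measurable_of_tendsto_metrizable hWm ?_
    rw [tendsto_pi_nhds]
    exact fun p => hV p.1 p.2
  have hV01 : ∀ r y, V r y ∈ Icc (0:ℝ) 1 := fun r y =>
    isClosed_Icc.mem_of_tendsto (hV r y) (Eventually.of_forall fun n => hW01 n r y)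
  have hextm : Measurable (ext f) := hf.ext_cont.measurable
  refine ⟨V, hVm, hV01, ?_, ?_⟩
  · intro r hr y
    have := hV r y
    simpa only [hWw _ r hr] using this
  · intro s hs r hr hsr y
    -- Duhamel for the approximations
    have hD : ∀ n, W n r y = heatP (r - s) (W n s) y +
        ∫ ρ in s..r, heatP (r - ρ) (fun y => ext f (W n ρ y)) y := by
      intro n
      have h2 := duhamel_cl hf hsr (hreg n s r hs.1) (fun ρ hρ z => hw01 n ρ (hs.1.trans hρ.1) z)
        (fun ρ hρ z => heq n ρ (lt_of_le_of_lt hs.1 hρ.1) z) y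
      rw [hWw n r hr, hWw n s hs, h2]
      congr 1
      apply intervalIntegral.integral_congr
      intro ρ hρ
      rw [uIcc_of_le hsr.le] at hρ
      have hρ01 : ρ ∈ Icc (0:ℝ) 1 := ⟨hs.1.trans hρ.1, hρ.2.trans hr.2⟩
      simp only
      congr 1
      funext z
      rw [hWw n ρ hρ01, ext_eq (hw01 n ρ hρ01.1 z)]
    have hVf : ∀ ρ, (fun y => f (V ρ y)) = fun y => ext f (V ρ y) := by
      intro ρ
      funext z
      rw [ext_eq (hV01 ρ z)]
    have hextb : ∀ a ∈ Icc (0:ℝ) 1, |ext f a| ≤ M := by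
      intro a ha
      rw [ext_eq ha]
      exact hf.bd ha
    have hL1 : Tendsto (fun n => heatP (r - s) (W n s) y) atTop (𝓝 (heatP (r - s) (V s) y)) := by
      refine heatP_tendsto (by linarith) (fun n => hWmr n s) (B := 1)
        (Eventually.of_forall fun n z => ?_) (fun z => hV s z) y
      rw [abs_of_nonneg (hW01 n s z).1]
      exact (hW01 n s z).2
    have hL2 : Tendsto (fun n => ∫ ρ in s..r, heatP (r - ρ) (fun y => ext f (W n ρ y)) y) atTop
        (𝓝 (∫ ρ in s..r, heatP (r - ρ) (fun y => ext f (V ρ y)) y)) := by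
      refine intervalIntegral.tendsto_integral_filter_of_dominated_convergence (fun _ => M) ?_ ?_ ?_ ?_
      · refine Eventually.of_forall fun n => ?_
        have := heatP_meas (H := fun ρ y => ext f (W n ρ y)) (hextm.comp (hWm n)) r y
        exact this.aestronglyMeasurable
      · refine Eventually.of_forall fun n => ?_
        have hne : ∀ᵐ ρ : ℝ, ρ ≠ r := by
          simp [ae_iff, measure_singleton]
        filter_upwards [hne] with ρ hρ hρ2
        rw [uIoc_of_le hsr.le] at hρ2
        rw [Real.norm_eq_abs]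
        exact heatP_abs_le (by linarith [lt_of_le_of_ne hρ2.2 hρ]) (hextm.comp (hWmr n ρ))
          (fun z => hextb _ (hW01 n ρ z)) y
      · exact intervalIntegrable_const
      · have hne : ∀ᵐ ρ : ℝ, ρ ≠ r := by
          simp [ae_iff, measure_singleton]
        filter_upwards [hne] with ρ hρ hρ2
        rw [uIoc_of_le hsr.le] at hρ2
        refine heatP_tendsto (by linarith [lt_of_le_of_ne hρ2.2 hρ]) (fun n => hextm.comp (hWmr n ρ))
          (B := M) (Eventually.of_forall fun n z => hextb _ (hW01 n ρ z)) (fun z => ?_) y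
        exact (hf.ext_cont.tendsto _).comp (hV ρ z)
    have hL := hV r y
    have hR := hL1.add hL2
    simp only [hD] at hL
    have := tendsto_nhds_unique hL hR
    simp only [hVf]
    exact this

theorem limit_duhamel {f : ℝ → ℝ} {M : ℝ} (hf : NL f M) {U : Set (E N)} {u : ℝ → E N → ℝ}
    (hu : IsClassicalSolution f U u) {t : ℕ → ℝ} {x : ℕ → E N} (ht : Tendsto t atTop atTop)
    {φ1 : E N → ℝ} (h1 : ∀ y, Tendsto (fun n => u (t n - 1) (x n + y)) atTop (𝓝 (φ1 y))) :
    ∃ V : ℝ → E N → ℝ, Measurable (fun p : ℝ × E N => V p.1 p.2) ∧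
      (∀ r y, V r y ∈ Icc (0:ℝ) 1) ∧
      (∀ r ∈ Icc (0:ℝ) 1, ∀ y, Tendsto (fun n => u (t n - 1 + r) (x n + y)) atTop (𝓝 (V r y))) ∧
      ∀ s ∈ Icc (0:ℝ) 1, ∀ r ∈ Icc (0:ℝ) 1, s < r → ∀ y, V r y = heatP (r - s) (V s) y +
        ∫ ρ in s..r, heatP (r - ρ) (fun y => f (V ρ y)) y := by
  obtain ⟨n0, hn0⟩ := eventually_atTop.1 (ht.eventually_gt_atTop 1)
  obtain ⟨V, hV1, hV2, hV3, hV4⟩ := limit_duhamel_aux hf hu (t := fun n => t (n + n0))
    (x := fun n => x (n + n0)) (fun n => hn0 (n + n0) (Nat.le_add_left _ _)) (φ1 := φ1)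
    (fun y => (h1 y).comp (tendsto_add_atTop_nat n0))
  refine ⟨V, hV1, hV2, fun r hr y => ?_, hV4⟩
  exact (tendsto_add_atTop_iff_nat (f := fun n => u (t n - 1 + r) (x n + y)) n0).1 (hV3 r hr y)

end

end Pool.Agent.T2H75.FK
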