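import Pool.Agent.T2H75.FK.E1a
import Pool.Agent.T2H75.FK.E1b
import Pool.Agent.T2H75.FK.E2

set_option autoImplicit false

/-!
Package E3: the limits are `C²` along lines.

Let `V` be as in `limit_duhamel`.  By `heatP_C1` and `duh_C1` (with `H = ext f (V)` or
`f ∘ V`, bounded, `s = r/2`), `V(r,·)` is `C¹` along `e` for `r ∈ (0,1]`, with a derivative bounded
uniformly for `r ∈ [1/2,1]` (restart at `s = r - 1/4`), which is a measurable function of `(r,y)`
(limit of difference quotients).  `H(r,·) = f(V(r,·))` then has the directional derivative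
`f'(V) ∂_e V` (`derivWithin f (Icc 0 1)`, chain rule `HasDerivWithinAt.comp_hasDerivAt`), bounded and
measurable for `r ∈ [1/2,1]`.  With `s = 1/2`, `r = 1`, `duh_deriv` and then `duh_C1` again show that
the Duhamel term is `C²` along `e`; the term `G_{1/2} * V(1/2) = G_{1/4} * (G_{1/4} * V(1/2))` is `C²`
along `e` by `heatP_C1`, `heatP_deriv`, `heatP_C1`.
-/

open MeasureTheory Set Filter Topology
open scoped ENNReal InnerProductSpace Laplacian

namespace Pool.Agent.T2H75.FK

open Pool.Agent.X297.KP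

noncomputable section

variable {N : ℕ}

theorem contDiff_two_of {F F1 F2 : ℝ → ℝ} (h1 : ∀ z, HasDerivAt F (F1 z) z)
    (h2 : ∀ z, HasDerivAt F1 (F2 z) z) (hc : Continuous F2) : ContDiff ℝ 2 F := by
  have e1 : deriv F = F1 := funext fun z => (h1 z).deriv
  have e2 : deriv F1 = F2 := funext fun z => (h2 z).deriv
  have c1 : ContDiff ℝ 1 F1 := by
    rw [contDiff_one_iff_deriv]
    exact ⟨fun z => (h2 z).differentiableAt, e2 ▸ hc⟩
  have : (2 : WithTop ℕ∞) = 1 + 1 := by norm_num
  rw [this, contDiff_succ_iff_deriv]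
  refine ⟨fun z => (h1 z).differentiableAt, fun h => ?_, e1 ▸ c1⟩
  simp at h

theorem clamp_mem (s : ℝ) : max 0 (min 1 s) ∈ Icc (0:ℝ) 1 :=
  ⟨le_max_left _ _, max_le zero_le_one (min_le_left _ _)⟩

theorem clamp_eq {s : ℝ} (hs : s ∈ Icc (0:ℝ) 1) : max 0 (min 1 s) = s := by
  rw [min_eq_right hs.2, max_eq_right hs.1]

theorem cont_clamp {g : ℝ → ℝ} (hg : ContinuousOn g (Icc 0 1)) :
    Continuous (fun s : ℝ => g (max 0 (min 1 s))) :=
  hg.comp_continuous (by fun_prop) clamp_mem

theorem bdd_Icc {g : ℝ → ℝ} (hg : ContinuousOn g (Icc 0 1)) :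
    ∃ C : ℝ, 0 ≤ C ∧ ∀ s ∈ Icc (0:ℝ) 1, |g s| ≤ C := by
  obtain ⟨C, hC⟩ := isCompact_Icc.exists_bound_of_continuousOn hg
  refine ⟨max C 0, le_max_right _ _, fun s hs => ?_⟩
  exact le_max_of_le_left (hC s hs)

theorem limit_contDiff {f : ℝ → ℝ} (hf : IsFisherKPP f) {U : Set (E N)} {u : ℝ → E N → ℝ}
    (hu : IsClassicalSolution f U u) {t : ℕ → ℝ} {x : ℕ → E N} (ht : Tendsto t atTop atTop)
    {φ1 φ0 : E N → ℝ} (h1 : ∀ y, Tendsto (fun n => u (t n - 1) (x n + y)) atTop (𝓝 (φ1 y)))
    (h0 : ∀ y, Tendsto (fun n => u (t n) (x n + y)) atTop (𝓝 (φ0 y))) (e : E N) :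
    ContDiff ℝ 2 (fun z : ℝ => φ0 (z • e)) := by
  obtain ⟨M, hM⟩ := hf.nl
  obtain ⟨V, hVm, hV, hVl, hVd⟩ := limit_duhamel hM hu ht h1
  -- the value at time one
  have hV1 : ∀ y, φ0 y = V 1 y := by
    intro y
    have h2 := hVl 1 ⟨zero_le_one, le_rfl⟩ y
    simp only [sub_add_cancel] at h2
    exact tendsto_nhds_unique (h0 y) h2
  have hVb : ∀ r y, |V r y| ≤ 1 := fun r y => by
    rw [abs_of_nonneg (hV r y).1]
    exact (hV r y).2
  have hVs : ∀ r, Measurable (V r) := fun r =>
    hVm.comp (measurable_const.prodMk measurable_id)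
  -- the nonlinear term
  obtain ⟨C0, hC0, hfb⟩ := bdd_Icc hM.cont
  set H : ℝ → E N → ℝ := fun r y => f (V r y) with hH
  have hHb : ∀ r y, |H r y| ≤ C0 := fun r y => hfb _ (hV r y)
  have hHe : ∀ r y, H r y = (fun s : ℝ => f (max 0 (min 1 s))) (V r y) := fun r y => by
    simp only [hH]
    rw [clamp_eq (hV r y)]
  have hHm : Measurable (fun p : ℝ × E N => H p.1 p.2) := by
    have h2 : (fun p : ℝ × E N => H p.1 p.2) =
        fun p : ℝ × E N => (fun s : ℝ => f (max 0 (min 1 s))) (V p.1 p.2) := by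
      funext p
      exact hHe _ _
    rw [h2]
    exact (cont_clamp hM.cont).measurable.comp hVm
  -- first derivative
  obtain ⟨C1, hC1⟩ := heatP_C1 (N := N) (τ := 1 / 4) (by norm_num) e 1
  obtain ⟨C2, hC2⟩ := duh_C1 (N := N) (T := 1 / 4) (by norm_num) e C0
  have key : ∀ r : ℝ, ∃ W : E N → ℝ, r ∈ Icc (1/2 : ℝ) 1 → ((∀ y, |W y| ≤ C1 + C2) ∧
      ∀ (x : E N) (z : ℝ), HasDerivAt (fun z : ℝ => V r (x + z • e)) (W (x + z • e)) z) := by
    intro r
    by_cases hr : r ∈ Icc (1/2 : ℝ) 1
    · obtain ⟨φ', -, hb1, hd1⟩ := hC1 (V (r - 1 / 4)) (hVs _) (hVb _)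
      obtain ⟨D, -, hb2, hd2⟩ := hC2 H hHm hHb (r - 1 / 4) r (by linarith) (by linarith)
      refine ⟨fun y => φ' y + D y, fun _ => ⟨fun y => ?_, fun x z => ?_⟩⟩
      · exact (abs_add_le _ _).trans (add_le_add (hb1 y) (hb2 y))
      · have h2 := (hd1 x z).add (hd2 x z)
        have h3 : (fun z : ℝ => V r (x + z • e)) = (fun z : ℝ => heatP (1 / 4) (V (r - 1 / 4)) (x + z • e))
            + fun z : ℝ => ∫ ρ in (r - 1 / 4)..r, heatP (r - ρ) (H ρ) (x + z • e) := by
          funext z
          have h4 := hVd (r - 1 / 4) ⟨by linarith [hr.1], by linarith [hr.2]⟩ r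
            ⟨by linarith [hr.1], hr.2⟩ (by linarith) (x + z • e)
          rw [h4]
          simp only [Pi.add_apply, hH]
          congr 2
          ring
        rw [h3]
        exact h2
    · exact ⟨fun _ => 0, fun h => absurd h hr⟩
  choose W hW using key
  -- measurability of the derivative
  set W' : ℝ → E N → ℝ := fun r y => (Icc (1/2:ℝ) 1).indicator (fun r => W r y) r with hW'
  have hW'm : Measurable (fun p : ℝ × E N => W' p.1 p.2) := by
    have hF : ∀ n : ℕ, Measurable (fun p : ℝ × E N => (Icc (1/2:ℝ) 1).indicator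
        (fun r => ((n : ℝ) + 1) * (V r (p.2 + (1 / ((n : ℝ) + 1)) • e) - V r p.2)) p.1) := by
      intro n
      have h2 : (fun p : ℝ × E N => (Icc (1/2:ℝ) 1).indicator
        (fun r => ((n : ℝ) + 1) * (V r (p.2 + (1 / ((n : ℝ) + 1)) • e) - V r p.2)) p.1) =
        (Prod.fst ⁻¹' (Icc (1/2:ℝ) 1)).indicator (fun p : ℝ × E N =>
          ((n : ℝ) + 1) * (V p.1 (p.2 + (1 / ((n : ℝ) + 1)) • e) - V p.1 p.2)) := by
        funext p
        simp only [indicator, mem_preimage]
      rw [h2]
      apply Measurable.indicator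
      · apply Measurable.const_mul
        apply Measurable.sub
        · exact hVm.comp (measurable_fst.prodMk (measurable_snd.add_const _))
        · exact hVm
      · exact measurable_fst measurableSet_Icc
    apply measurable_of_tendsto_metrizable hF
    rw [tendsto_pi_nhds]
    intro p
    simp only [hW', indicator]
    split_ifs with hp
    · have h2 := ((hW p.1 hp).2 p.2 0)
      rw [hasDerivAt_iff_tendsto_slope] at h2
      have h3 : Tendsto (fun n : ℕ => 1 / ((n : ℝ) + 1)) atTop (𝓝[≠] 0) := by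
        rw [tendsto_nhdsWithin_iff]
        refine ⟨tendsto_one_div_add_atTop_nhds_zero_nat, Eventually.of_forall fun n => ?_⟩
        simp only [mem_compl_iff, mem_singleton_iff]
        positivity
      have h4 := h2.comp h3
      simp only [zero_smul, add_zero] at h4
      refine h4.congr fun n => ?_
      simp only [Function.comp, slope_def_field, zero_smul, add_zero, sub_zero]
      field_simp
    · exact tendsto_const_nhds
  have hW'b : ∀ r y, |W' r y| ≤ |C1 + C2| := by
    intro r y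
    simp only [hW', indicator]
    split_ifs with hr
    · exact ((hW r hr).1 y).trans (le_abs_self _)
    · simp
  -- derivative of the nonlinear term
  have hfd : ContinuousOn (derivWithin f (Icc 0 1)) (Icc 0 1) :=
    hf.contDiff.continuousOn_derivWithin (uniqueDiffOn_Icc zero_lt_one) le_rfl
  obtain ⟨C3, hC3, hfdb⟩ := bdd_Icc hfd
  set H' : ℝ → E N → ℝ := fun r y => derivWithin f (Icc 0 1) (V r y) * W' r y with hH'
  have hH'm : Measurable (fun p : ℝ × E N => H' p.1 p.2) := by
    have h2 : (fun p : ℝ × E N => H' p.1 p.2) =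
        fun p : ℝ × E N => (fun s : ℝ => derivWithin f (Icc 0 1) (max 0 (min 1 s))) (V p.1 p.2) *
          W' p.1 p.2 := by
      funext p
      simp only [hH']
      rw [clamp_eq (hV _ _)]
    rw [h2]
    exact ((cont_clamp hfd).measurable.comp hVm).mul hW'm
  have hH'b : ∀ r y, |H' r y| ≤ C3 * |C1 + C2| := by
    intro r y
    simp only [hH', abs_mul]
    exact mul_le_mul (hfdb _ (hV r y)) (hW'b r y) (abs_nonneg _) hC3
  have hH'd : ∀ r ∈ Ioo (1/2:ℝ) 1, ∀ x : E N,
      HasDerivAt (fun z : ℝ => H r (x + z • e)) (H' r x) 0 := by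
    intro r hr x
    have hr' : r ∈ Icc (1/2:ℝ) 1 := Ioo_subset_Icc_self hr
    have h2 : HasDerivWithinAt f (derivWithin f (Icc 0 1) (V r x)) (Icc 0 1) (V r (x + (0:ℝ) • e)) := by
      rw [zero_smul, add_zero]
      exact ((hf.contDiff.differentiableOn (by norm_num)) _ (hV r x)).hasDerivWithinAt
    have h3 := (hW r hr').2 x 0
    have h4 := h2.comp_hasDerivAt (0:ℝ) h3 (Eventually.of_forall fun z => hV r _)
    simp only [zero_smul, add_zero] at h4
    have h5 : H' r x = derivWithin f (Icc 0 1) (V r x) * W r x := by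
      simp only [hH', hW', indicator, if_pos hr']
    rw [h5]
    exact h4
  -- the linear term
  obtain ⟨ψ', hψc, hψb, hψd⟩ := hC1 (V (1/2)) (hVs _) (hVb _)
  obtain ⟨C4, hC4⟩ := heatP_C1 (N := N) (τ := 1 / 4) (by norm_num) e (|C1| + 1)
  obtain ⟨θ, hθc, hθb, hθd⟩ := hC4 ψ' hψc.measurable (fun y => (hψb y).trans
    ((le_abs_self _).trans (by linarith)))
  have hψm : Measurable (heatP (1/4) (V (1/2))) := by
    have h2 : Measurable (fun p : E N × E N => heatK (1/4) (p.1 - p.2) * V (1/2) p.2) := by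
      have hc : Continuous fun z : E N => heatK (1/4) z := heatK_cont
      exact (hc.measurable.comp (measurable_fst.sub measurable_snd)).mul
        ((hVs _).comp measurable_snd)
    exact (h2.stronglyMeasurable.integral_prod_right (ν := (volume : Measure (E N)))).measurable
  have hψB : ∀ y, |heatP (1/4) (V (1/2)) y| ≤ 1 := by
    intro y
    rw [abs_of_nonneg (heatP_nonneg (by norm_num) (fun y => (hV _ y).1) y)]
    calc heatP (1/4) (V (1/2)) y ≤ heatP (1/4) (fun _ => 1) y :=
          heatP_mono (by norm_num) (hVs _) measurable_const (hVb _)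
            (fun _ => by norm_num) (fun y => (hV _ y).2) y
      _ = 1 := heatP_const (by norm_num) 1 y
  have hlin1 : ∀ (x : E N) (z : ℝ), HasDerivAt (fun z : ℝ => heatP (1/2) (V (1/2)) (x + z • e))
      (heatP (1/4) ψ' (x + z • e)) z := by
    intro x z
    have h2 : (fun z : ℝ => heatP (1/2) (V (1/2)) (x + z • e)) =
        fun z : ℝ => heatP (1/4) (heatP (1/4) (V (1/2))) (x + z • e) := by
      funext z
      rw [heatP_heatP (by norm_num) (by norm_num) (hVs _) (hVb _)]
      norm_num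
    rw [h2]
    apply heatP_deriv (by norm_num) hψm hψc.measurable (B := |C1| + 1)
      (fun y => (hψB y).trans (by linarith [abs_nonneg C1]))
      (fun y => (hψb y).trans ((le_abs_self _).trans (by linarith)))
    intro x
    have h3 := hψd x 0
    simp only [zero_smul, add_zero] at h3
    exact h3
  -- the Duhamel term
  obtain ⟨C5, hC5⟩ := duh_C1 (N := N) (T := 1 / 2) (by norm_num) e (C3 * |C1 + C2|)
  obtain ⟨D, hDc, -, hDd⟩ := hC5 H' hH'm hH'b (1/2) 1 (by norm_num) (by norm_num)
  have hduh1 : ∀ (x : E N) (z : ℝ),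
      HasDerivAt (fun z : ℝ => ∫ r in (1/2:ℝ)..1, heatP (1 - r) (H r) (x + z • e))
        (∫ r in (1/2:ℝ)..1, heatP (1 - r) (H' r) (x + z • e)) z := by
    intro x z
    exact duh_deriv hHm hH'm (B := C0 + C3 * |C1 + C2|)
      (fun r y => (hHb r y).trans (le_add_of_nonneg_right (by positivity)))
      (fun r y => (hH'b r y).trans (le_add_of_nonneg_left hC0)) (by norm_num) hH'd x z
  have hfin : (fun z : ℝ => φ0 (z • e)) = fun z : ℝ => heatP (1/2) (V (1/2)) (0 + z • e) +
      ∫ r in (1/2:ℝ)..1, heatP (1 - r) (H r) (0 + z • e) := by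
    funext z
    rw [hV1, zero_add, hVd (1/2) ⟨by norm_num, by norm_num⟩ 1 ⟨zero_le_one, le_rfl⟩ (by norm_num)]
    have h2 : (1:ℝ) - 1/2 = 1/2 := by norm_num
    rw [h2]
  rw [hfin]
  apply contDiff_two_of (fun z => (hlin1 0 z).add (hduh1 0 z))
    (fun z => (hθd 0 z).add (hDd 0 z))
  have hl : Continuous fun z : ℝ => (0 : E N) + z • e := by fun_prop
  exact (hθc.comp hl).add (hDc.comp hl)

end

end Pool.Agent.T2H75.FK
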