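import Pool.Agent.T2H75.FK.Ini

set_option autoImplicit false

/-!
Package I2: comparison from the initial data.
-/

open MeasureTheory Set Filter Topology
open scoped ENNReal InnerProductSpace Laplacian

namespace Pool.Agent.T2H75.FK

open Pool.Agent.X297.KP

noncomputable section

variable {N : ℕ}

/-- Comparison of `η u` and `u'(1 + ·)`: `compare` on `[s,t]` with `v = η u`, `w = u'(·+1)`, and
`s → 0`; `(η u(s,y) - u'(1+s,y))⁺ ≤ |u(s,y) - 1_U(y)| + |u'(1,y) - u'(1+s,y)|`. -/
theorem compare_init {f : ℝ → ℝ} {M : ℝ} (hf : NL f M) {U U' : Set (E N)}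
    (hU : MeasurableSet U) {u u' : ℝ → E N → ℝ} (hu : IsClassicalSolution f U u)
    (hu' : IsClassicalSolution f U' u') {η : ℝ} (hη : η ∈ Icc (0:ℝ) 1)
    (h : ∀ x ∈ U, η ≤ u' 1 x) {t : ℝ} (ht : 0 < t) (x : E N) :
    η * u t x ≤ u' (t + 1) x := by
  have hUm : Measurable (U.indicator (1 : E N → ℝ)) := measurable_one.indicator hU
  have hU01 : ∀ y, U.indicator (1 : E N → ℝ) y ∈ Icc (0:ℝ) 1 := by
    intro y
    by_cases hy : y ∈ U <;> simp [hy]
  have huc : ∀ s, 0 < s → Continuous (u s) := fun s hs => (hu.contDiff_two s hs).continuous
  have huc' : ∀ s, 0 < s → Continuous (u' s) := fun s hs => (hu'.contDiff_two s hs).continuous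
  -- the two error terms
  have hA := heatP_init (w := fun s y => u s y - U.indicator 1 y)
    (fun s hs => (huc s hs).measurable.sub hUm) (fun s hs y => by
      have h1 := hu.range s hs y
      have h2 := hU01 y
      rw [abs_le]
      constructor <;> linarith [h1.1, h1.2, h2.1, h2.2]) hu.initial ht x
  have hB := heatP_init (w := fun s y => u' 1 y - u' (1 + s) y)
    (fun s hs => ((huc' 1 one_pos).sub (huc' (1 + s) (by linarith))).measurable)
    (fun s hs y => by
      have h1 := hu'.range 1 one_pos y
      have h2 := hu'.range (1 + s) (by linarith) y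
      rw [abs_le]
      constructor <;> linarith [h1.1, h1.2, h2.1, h2.2]) (fun R => by
      have hpos : ∀ᶠ s in 𝓝[>] (0:ℝ), 0 < s := eventually_mem_nhdsWithin
      suffices hsuff : Tendsto (fun s => ∫ y in Metric.ball (0 : E N) R, |u' 1 y - u' (1 + s) y|)
          (𝓝[>] 0) (𝓝 (∫ y in Metric.ball (0 : E N) R, (0:ℝ))) by simpa using hsuff
      apply tendsto_integral_filter_of_dominated_convergence (fun _ => (1:ℝ))
      · filter_upwards [hpos] with s hs
        exact ((huc' 1 one_pos).sub (huc' (1 + s) (by linarith))).abs.aestronglyMeasurable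
      · filter_upwards [hpos] with s hs
        refine Eventually.of_forall fun y => ?_
        have h1 := hu'.range 1 one_pos y
        have h2 := hu'.range (1 + s) (by linarith) y
        rw [Real.norm_eq_abs, abs_abs, abs_le]
        constructor <;> linarith [h1.1, h1.2, h2.1, h2.2]
      · exact integrableOn_const (by exact measure_ball_lt_top.ne)
      · refine Eventually.of_forall fun y => ?_
        have hc : ContinuousAt (fun s : ℝ => u' (1 + s) y) 0 := by
          have h1 : ContinuousAt (fun p : ℝ × E N => u' p.1 p.2) ((1:ℝ), y) :=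
            hu'.contDiff_one.continuousOn.continuousAt
              ((isOpen_Ioi.prod isOpen_univ).mem_nhds ⟨(one_pos : (0:ℝ) < 1), mem_univ _⟩)
          have h2 : ContinuousAt (fun s : ℝ => (1 + s, y)) (0:ℝ) := by fun_prop
          exact ContinuousAt.comp (f := fun s : ℝ => (1 + s, y)) (x := (0:ℝ))
            (g := fun p : ℝ × E N => u' p.1 p.2) (by simpa using h1) h2
        have h3 : Tendsto (fun s : ℝ => |u' 1 y - u' (1 + s) y|) (𝓝 0) (𝓝 |u' 1 y - u' (1 + 0) y|) :=
          (tendsto_const_nhds.sub hc).abs
        rw [add_zero, sub_self, abs_zero] at h3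
        exact h3.mono_left nhdsWithin_le_nhds) ht x
  have hM := hf.M0
  have key : ∀ s, 0 < s → s < t → η * u t x - u' (t + 1) x ≤
      Real.exp (M * t) * (heatP (t - s) (fun y => |u s y - U.indicator 1 y|) x +
        heatP (t - s) (fun y => |u' 1 y - u' (1 + s) y|) x) := by
    intro s hs hst
    have hR := hu.reg (s := s) (t := t) hs
    have hR' := hu'.reg (s := s + 1) (t := t + 1) (by linarith)
    have hv : Reg (fun r y => η * u r y) (fun r y => η * deriv (fun r => u r y) r) s t :=
      ⟨continuousOn_const.mul hR.cont, fun r hr y => (hR.dt r hr y).const_mul η,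
        continuousOn_const.mul hR.dtc, fun r hr => contDiff_const.mul (hR.sp r hr)⟩
    have hw : Reg (fun r y => u' (r + 1) y) (fun r y => deriv (fun r => u' r y) (r + 1)) s t := by
      refine ⟨?_, ?_, ?_, ?_⟩
      · exact hR'.cont.comp (f := fun p : ℝ × E N => (p.1 + 1, p.2)) (by fun_prop)
          (fun p hp => ⟨⟨by linarith [hp.1.1], by linarith [hp.1.2]⟩, mem_univ _⟩)
      · intro r hr y
        have := hR'.dt (r + 1) ⟨by linarith [hr.1], by linarith [hr.2]⟩ y
        exact this.comp_add_const r 1
      · exact hR'.dtc.comp (f := fun p : ℝ × E N => (p.1 + 1, p.2)) (by fun_prop)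
          (fun p hp => ⟨⟨by linarith [hp.1.1], by linarith [hp.1.2]⟩, mem_univ _⟩)
      · intro r hr
        exact hR'.sp (r + 1) ⟨by linarith [hr.1], by linarith [hr.2]⟩
    have hcmp := compare hf hst hv hw ?_ ?_ ?_ ?_ x
    · refine hcmp.trans ?_
      have hts : 0 < t - s := by linarith
      have h1 : heatP (t - s) (fun y => max (η * u s y - u' (s + 1) y) 0) x ≤
          heatP (t - s) (fun y => |u s y - U.indicator 1 y| + |u' 1 y - u' (1 + s) y|) x := by
        refine heatP_mono hts ?_ ?_ (B := 2) ?_ ?_ ?_ x
        · exact ((continuous_const.mul (huc s hs)).sub (huc' (s + 1) (by linarith))).max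
            continuous_const |>.measurable
        · exact ((huc s hs).measurable.sub hUm).abs.add
            ((huc' 1 one_pos).sub (huc' (1 + s) (by linarith))).abs.measurable
        · intro y
          have h1 := hu.range s hs y
          have h2 := hu'.range (s + 1) (by linarith) y
          rw [abs_of_nonneg (le_max_right _ _)]
          refine max_le ?_ (by norm_num)
          have : η * u s y ≤ 1 := mul_le_one₀ hη.2 h1.1 h1.2
          linarith [h2.1]
        · intro y
          have h1 := hu.range s hs y
          have h2 := hu'.range (1 + s) (by linarith) y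
          have h3 := hu'.range 1 one_pos y
          have h4 := hU01 y
          rw [abs_of_nonneg (by positivity)]
          have h5 : |u s y - U.indicator 1 y| ≤ 1 := by
            rw [abs_le]
            constructor <;> linarith [h1.1, h1.2, h4.1, h4.2]
          have h6 : |u' 1 y - u' (1 + s) y| ≤ 1 := by
            rw [abs_le]
            constructor <;> linarith [h2.1, h2.2, h3.1, h3.2]
          linarith
        · intro y
          refine max_le ?_ (by positivity)
          have h1 := hu.range s hs y
          have h3 := hu'.range 1 one_pos y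
          have h4 := hU01 y
          have h5 : η * U.indicator 1 y ≤ u' 1 y := by
            by_cases hy : y ∈ U
            · simpa [hy] using h y hy
            · simpa [hy] using h3.1
          have h6 : η * (u s y - U.indicator 1 y) ≤ |u s y - U.indicator 1 y| := by
            calc η * (u s y - U.indicator 1 y) ≤ η * |u s y - U.indicator 1 y| :=
                  mul_le_mul_of_nonneg_left (le_abs_self _) hη.1
              _ ≤ 1 * |u s y - U.indicator 1 y| :=
                  mul_le_mul_of_nonneg_right hη.2 (abs_nonneg _)
              _ = _ := one_mul _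
          have h7 := le_abs_self (u' 1 y - u' (1 + s) y)
          rw [add_comm s 1]
          linarith
      have h2 : heatP (t - s) (fun y => |u s y - U.indicator 1 y| + |u' 1 y - u' (1 + s) y|) x =
          heatP (t - s) (fun y => |u s y - U.indicator 1 y|) x +
            heatP (t - s) (fun y => |u' 1 y - u' (1 + s) y|) x := by
        refine heatP_add hts ?_ ?_ (B := 1) ?_ ?_ x
        · exact ((huc s hs).measurable.sub hUm).abs
        · exact ((huc' 1 one_pos).sub (huc' (1 + s) (by linarith))).abs.measurable
        · intro y
          have h1 := hu.range s hs y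
          have h4 := hU01 y
          rw [abs_abs, abs_le]
          constructor <;> linarith [h1.1, h1.2, h4.1, h4.2]
        · intro y
          have h2 := hu'.range (1 + s) (by linarith) y
          have h3 := hu'.range 1 one_pos y
          rw [abs_abs, abs_le]
          constructor <;> linarith [h2.1, h2.2, h3.1, h3.2]
      rw [← h2]
      have h3 : 0 ≤ heatP (t - s) (fun y => max (η * u s y - u' (s + 1) y) 0) x :=
        heatP_nonneg hts (fun y => le_max_right _ _) x
      have h4 : Real.exp (M * (t - s)) ≤ Real.exp (M * t) :=
        Real.exp_le_exp.2 (mul_le_mul_of_nonneg_left (by linarith) hM)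
      exact mul_le_mul h4 h1 h3 (Real.exp_pos _).le
    · intro r hr y
      have h1 := hu.range r (hs.trans_le hr.1) y
      exact ⟨mul_nonneg hη.1 h1.1, mul_le_one₀ hη.2 h1.1 h1.2⟩
    · intro r hr y
      exact hu'.range (r + 1) (by linarith [hr.1]) y
    · intro r hr y
      have hr0 : 0 < r := hs.trans hr.1
      have h1 := hu.range r hr0 y
      have h2 := hf.sub η hη (u r y) h1
      have h3 := hu.eq r hr0 y
      have h4 : Δ (fun y => η * u r y) y = η * Δ (u r) y := by
        have := InnerProductSpace.laplacian_smul (x := y) η (hu.contDiff_two r hr0).contDiffAt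
        exact this
      rw [h4, h3]
      nlinarith
    · intro r hr y
      have hr0 : 0 < r + 1 := by linarith [hr.1]
      have h3 := hu'.eq (r + 1) hr0 y
      exact h3.ge
  have hlim : Tendsto (fun s => Real.exp (M * t) *
      (heatP (t - s) (fun y => |u s y - U.indicator 1 y|) x +
        heatP (t - s) (fun y => |u' 1 y - u' (1 + s) y|) x)) (𝓝[>] 0) (𝓝 0) := by
    have := (hA.add hB).const_mul (Real.exp (M * t))
    simpa using this
  have hev : ∀ᶠ s in 𝓝[>] (0:ℝ), η * u t x - u' (t + 1) x ≤ Real.exp (M * t) *
      (heatP (t - s) (fun y => |u s y - U.indicator 1 y|) x +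
        heatP (t - s) (fun y => |u' 1 y - u' (1 + s) y|) x) := by
    filter_upwards [Ioo_mem_nhdsGT ht] with s hs
    exact key s hs.1 hs.2
  have := ge_of_tendsto hlim hev
  linarith

end

end Pool.Agent.T2H75.FK
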