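import Pool.Agent.T2H75.FK.Ker

set_option autoImplicit false

/-!
Package D: the ratio argument.

Let `κ = inf_{j,x} A_j(x+h)/A_j(x)`; `κ ≥ c² > 0`.  Suppose `κ < 1`.  For `δ > 0` choose `(j,x)` with
`q_j(x) < δ A_j(x)`, `q_j := A_j(·+h) - κ A_j ≥ 0`.  By `hstep`, `G_1 * q_{j+1}(x) ≤ K δ A_j(x)`.
For `i < k`, `∫_{B(x,1)} q_{j+1}(z+ih) dz ≤ C_k (G_1 * q_{j+1})(x)` (lower bound of the kernel on a
ball, `heatK_ge`).  Telescoping, `A_{j+1}(z+kh) = κ^k A_{j+1}(z) + Σ_{i<k} κ^{k-1-i} q_{j+1}(z+ih)`.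
Integrate over `B(x,1)`: the left side is `≥ c² ∫_B A_{j+1}` (because `P` is `h`-periodic and
`c P ≤ A`, `c A ≤ P`) and `A_j(x) |B| ≤ K ∫_B A_{j+1}`, so `c² ≤ κ^k + k C_k K δ K/|B|`.  Choose `k`
with `κ^k < c²/2`, then `δ` small: contradiction.
-/

open MeasureTheory Set Filter Topology
open scoped ENNReal InnerProductSpace Laplacian

namespace Pool.Agent.T2H75.FK

open Pool.Agent.X297.KP

noncomputable section

variable {N : ℕ}

theorem ratio_rigidity {A P : ℕ → E N → ℝ} {h : E N} {c K : ℝ} (hc : 0 < c) (hK : 0 ≤ K)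
    (hA : ∀ j x, 0 < A j x) (hA1 : ∀ j x, A j x ≤ 1) (hAc : ∀ j, Continuous (A j))
    (hPh : ∀ j x, P j (x + h) = P j x)
    (hAP : ∀ j x, c * P j x ≤ A j x) (hPA : ∀ j x, c * A j x ≤ P j x)
    (hH : ∀ j x y, dist x y ≤ 1 → A j x ≤ K * A (j + 1) y)
    (hstep : ∀ κ ∈ Icc (0:ℝ) 1, ∀ j, (∀ x, κ * A (j + 1) x ≤ A (j + 1) (x + h)) →
      ∀ x, heatP 1 (fun y => A (j + 1) (y + h) - κ * A (j + 1) y) x ≤
        K * (A j (x + h) - κ * A j x)) :
    ∀ j x, A j x ≤ A j (x + h) := by
  classical
  set f : ℕ × E N → ℝ := fun p => A p.1 (p.2 + h) / A p.1 p.2 with hf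
  have hbdd : BddBelow (Set.range f) :=
    ⟨0, by rintro _ ⟨p, rfl⟩; exact (div_pos (hA _ _) (hA _ _)).le⟩
  set κ : ℝ := ⨅ p, f p with hκ
  have hκle : ∀ j x, κ * A j x ≤ A j (x + h) := by
    intro j x
    have h1 : κ ≤ f (j, x) := ciInf_le hbdd (j, x)
    have h2 : κ ≤ A j (x + h) / A j x := h1
    rwa [le_div_iff₀ (hA j x)] at h2
  by_contra hcon
  push Not at hcon
  obtain ⟨j₀, x₀, h0⟩ := hcon
  have hκ1 : κ < 1 := by
    have h1 : κ ≤ f (j₀, x₀) := ciInf_le hbdd _
    refine lt_of_le_of_lt h1 ?_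
    exact (div_lt_one (hA _ _)).2 h0
  have hκ0 : 0 ≤ κ := Real.iInf_nonneg fun p => (div_pos (hA _ _) (hA _ _)).le
  have hKpos : 0 < K := by
    have h1 := hH 0 0 0 (by simp)
    have h2 := hA 0 0
    have h3 := hA (0 + 1) 0
    by_contra h4
    have h5 : K = 0 := le_antisymm (not_lt.1 h4) hK
    rw [h5] at h1
    linarith
  set q : ℕ → E N → ℝ := fun j y => A j (y + h) - κ * A j y with hq
  have hq0 : ∀ j y, 0 ≤ q j y := fun j y => sub_nonneg.2 (hκle j y)
  have hqc : ∀ j, Continuous (q j) := fun j =>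
    ((hAc j).comp (continuous_id.add continuous_const)).sub (continuous_const.mul (hAc j))
  have hqB : ∀ j y, |q j y| ≤ 1 := by
    intro j y
    rw [abs_of_nonneg (hq0 j y)]
    have h1 := hA1 j (y + h)
    have h2 := mul_nonneg hκ0 (hA j y).le
    show A j (y + h) - κ * A j y ≤ 1
    linarith
  have hlow : ∀ j x (n : ℕ), c ^ 2 * A j x ≤ A j (x + n • h) := by
    intro j x n
    have hP : ∀ n : ℕ, P j (x + n • h) = P j x := by
      intro n
      induction n with
      | zero => simp
      | succ n ih => rw [succ_nsmul, ← add_assoc, hPh, ih]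
    have h1 := hAP j (x + n • h)
    rw [hP] at h1
    have h2 := hPA j x
    nlinarith
  have tele : ∀ j x (n : ℕ), A j (x + n • h) ≤ κ ^ n * A j x +
      ∑ i ∈ Finset.range n, q j (x + i • h) := by
    intro j x n
    induction n with
    | zero => simp
    | succ n ih =>
      have h1 : A j (x + (n + 1) • h) = q j (x + n • h) + κ * A j (x + n • h) := by
        rw [succ_nsmul, ← add_assoc]
        show _ = A j (x + n • h + h) - κ * A j (x + n • h) + κ * A j (x + n • h)
        ring
      rw [h1, Finset.sum_range_succ, pow_succ]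
      have h2 := mul_le_mul_of_nonneg_left ih hκ0
      have h3 : 0 ≤ ∑ i ∈ Finset.range n, q j (x + i • h) := Finset.sum_nonneg fun i _ => hq0 _ _
      nlinarith
  obtain ⟨k, hk⟩ := exists_pow_lt_of_lt_one (show 0 < c ^ 2 / 2 by positivity) hκ1
  have hsum : ∀ j x, c ^ 2 / 2 * A j x ≤ ∑ i ∈ Finset.range k, q j (x + i • h) := by
    intro j x
    have h1 := hlow j x k
    have h2 := tele j x k
    have h3 := mul_le_mul_of_nonneg_right hk.le (hA j x).le
    linarith
  obtain ⟨ck, hck, hker⟩ := heatK_ge (N := N) one_pos (1 + k * ‖h‖)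
  set V : ℝ := volume.real (Metric.ball (0 : E N) 1) with hV
  have hVpos : 0 < V := by
    rw [hV, Measure.real]
    exact ENNReal.toReal_pos (Metric.measure_ball_pos _ _ one_pos).ne' measure_ball_lt_top.ne
  set δ : ℝ := c ^ 2 / (2 * K) * V * ck / (k * K + 1) with hδ
  have hδpos : 0 < δ := by positivity
  obtain ⟨⟨j, x⟩, hjx⟩ := exists_lt_of_ciInf_lt (show ⨅ p, f p < κ + δ by linarith)
  have hq1 : A j (x + h) - κ * A j x ≤ δ * A j x := by
    have h1 : A j (x + h) / A j x < κ + δ := hjx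
    rw [div_lt_iff₀ (hA j x)] at h1
    linarith
  have H1 : heatP 1 (q (j + 1)) x ≤ K * (δ * A j x) :=
    (hstep κ ⟨hκ0, hκ1.le⟩ j (hκle (j + 1)) x).trans (mul_le_mul_of_nonneg_left hq1 hK)
  have hint : ∀ i : ℕ, IntegrableOn (fun z => q (j + 1) (z + i • h)) (Metric.ball x 1) volume := by
    intro i
    refine Measure.integrableOn_of_bounded (M := 1) measure_ball_lt_top.ne ?_ ?_
    · exact ((hqc _).comp (continuous_id.add continuous_const)).aestronglyMeasurable
    · exact Eventually.of_forall fun z => by rw [Real.norm_eq_abs]; exact hqB _ _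
  have H2 : ∀ i ∈ Finset.range k, ck * ∫ z in Metric.ball x 1, q (j + 1) (z + i • h) ≤
      heatP 1 (q (j + 1)) x := by
    intro i hi
    have hik : i < k := Finset.mem_range.1 hi
    have e1 : heatP 1 (q (j + 1)) x =
        ∫ z, heatK 1 (x - (z + i • h)) * q (j + 1) (z + i • h) := by
      unfold heatP
      exact (integral_add_right_eq_self (fun y => heatK 1 (x - y) * q (j + 1) y) (i • h)).symm
    have hI : Integrable fun z => heatK 1 (x - (z + i • h)) * q (j + 1) (z + i • h) :=
      (int_bdd_mul one_pos x (hqc (j + 1)).measurable (hqB (j + 1))).comp_add_right (i • h)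
    rw [e1, ← integral_const_mul]
    calc ∫ z in Metric.ball x 1, ck * q (j + 1) (z + i • h)
        ≤ ∫ z in Metric.ball x 1, heatK 1 (x - (z + i • h)) * q (j + 1) (z + i • h) := by
          refine setIntegral_mono_on ((hint i).const_mul ck) hI.integrableOn measurableSet_ball ?_
          intro z hz
          refine mul_le_mul_of_nonneg_right (hker _ ?_) (hq0 _ _)
          rw [← sub_sub]
          refine (norm_sub_le _ _).trans (add_le_add ?_ ?_)
          · rw [← dist_eq_norm, dist_comm]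
            exact (Metric.mem_ball.1 hz).le
          · refine (norm_nsmul_le).trans ?_
            have : (i : ℝ) ≤ k := by exact_mod_cast hik.le
            exact mul_le_mul_of_nonneg_right this (norm_nonneg _)
      _ ≤ _ := setIntegral_le_integral hI (Eventually.of_forall fun z =>
          mul_nonneg (heatK_nonneg one_pos _) (hq0 _ _))
  have H3 : ck * ∫ z in Metric.ball x 1, ∑ i ∈ Finset.range k, q (j + 1) (z + i • h) ≤
      k * (K * (δ * A j x)) := by
    rw [integral_finsetSum _ fun i _ => hint i, Finset.mul_sum]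
    calc _ ≤ ∑ i ∈ Finset.range k, K * (δ * A j x) :=
          Finset.sum_le_sum fun i hi => (H2 i hi).trans H1
      _ = _ := by rw [Finset.sum_const, Finset.card_range, nsmul_eq_mul]
  have H4 : c ^ 2 / (2 * K) * A j x * V ≤
      ∫ z in Metric.ball x 1, ∑ i ∈ Finset.range k, q (j + 1) (z + i • h) := by
    have e2 : V = volume.real (Metric.ball x 1) := by
      rw [hV, Measure.real, Measure.real, ← Measure.addHaar_ball_center volume x 1]
    rw [e2]
    refine setIntegral_ge_of_const_le_real measurableSet_ball measure_ball_lt_top.ne ?_ ?_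
    · intro z hz
      refine le_trans ?_ (hsum (j + 1) z)
      have h1 := hH j x z (by rw [dist_comm]; exact (Metric.mem_ball.1 hz).le)
      have h2 : c ^ 2 / (2 * K) * A j x ≤ c ^ 2 / (2 * K) * (K * A (j + 1) z) :=
        mul_le_mul_of_nonneg_left h1 (by positivity)
      refine h2.trans (le_of_eq ?_)
      field_simp
    · exact integrable_finsetSum _ fun i _ => hint i
  have H5 : ck * (c ^ 2 / (2 * K) * A j x * V) ≤ k * (K * (δ * A j x)) :=
    (mul_le_mul_of_nonneg_left H4 hck.le).trans H3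
  have H6 : ck * (c ^ 2 / (2 * K) * V) ≤ k * K * δ := by
    have h1 : (ck * (c ^ 2 / (2 * K) * V)) * A j x ≤ (k * K * δ) * A j x := by
      calc _ = ck * (c ^ 2 / (2 * K) * A j x * V) := by ring
        _ ≤ _ := H5
        _ = _ := by ring
    exact le_of_mul_le_mul_right h1 (hA j x)
  have H7 : (k * K + 1) * δ = ck * (c ^ 2 / (2 * K) * V) := by
    rw [hδ]
    have : (k : ℝ) * K + 1 ≠ 0 := by positivity
    field_simp
  nlinarith

end

end Pool.Agent.T2H75.FK
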