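import Pool.Agent.T2H75.FK.Defs

set_option autoImplicit false

/-!
Package C: extraction of a subsequence (Arzelà-Ascoli on `ℝ^N` for countably many sequences).

Hint: the space `ℕ × D → Icc (0:ℝ) 1`, with `D` a countable dense subset of `ℝ^N`
(`TopologicalSpace.exists_countable_dense` or `denseSeq`, index by `ℕ × ℕ`), is compact and first
countable, so `CompactSpace.tendsto_subseq` gives convergence on `D` for all `j`; the equi-Lipschitz
bound gives the pointwise limit everywhere and its (local) uniformity.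
-/

open MeasureTheory Set Filter Topology
open scoped ENNReal InnerProductSpace Laplacian

namespace Pool.Agent.T2H75.FK

open Pool.Agent.X297.KP

noncomputable section

variable {N : ℕ}

theorem extract {a : ℕ → ℕ → E N → ℝ} {L : ℝ} (hL : 0 ≤ L)
    (h01 : ∀ j, ∀ᶠ n in atTop, ∀ x, a n j x ∈ Icc (0:ℝ) 1)
    (hlip : ∀ j, ∀ᶠ n in atTop, ∀ x y : E N, ‖y‖ ≤ 1 → a n j (x + y) ≤ a n j x + L * ‖y‖) :
    ∃ φ : ℕ → ℕ, StrictMono φ ∧ ∃ A : ℕ → E N → ℝ,
      (∀ j x, A j x ∈ Icc (0:ℝ) 1) ∧ (∀ j, Continuous (A j)) ∧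
      (∀ j x, Tendsto (fun n => a (φ n) j x) atTop (𝓝 (A j x))) ∧
      (∀ j (R : ℝ), Tendsto (fun n => eLpNorm (fun y => a (φ n) j y - A j y) ⊤
        (volume.restrict (Metric.ball 0 R))) atTop (𝓝 0)) := by
  -- two-sided Lipschitz bound
  have hlip2 : ∀ j, ∀ᶠ n in atTop, ∀ x y : E N, dist x y ≤ 1 →
      |a n j x - a n j y| ≤ L * dist x y := by
    intro j
    filter_upwards [hlip j] with n hn x y hxy
    rw [dist_eq_norm] at hxy ⊢
    rw [abs_le]
    have h1 := hn x (y - x) (by rw [← norm_neg, neg_sub]; exact hxy)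
    have h2 := hn y (x - y) hxy
    rw [add_sub_cancel] at h1 h2
    rw [← norm_neg (y - x), neg_sub] at h1
    constructor <;> linarith
  -- the dense sequence
  obtain ⟨d, hd⟩ := TopologicalSpace.exists_dense_seq (E N)
  obtain ⟨A0, φ, hφ, hlim⟩ := CompactSpace.tendsto_subseq
    (fun n => fun p : ℕ × ℕ => Set.projIcc (0:ℝ) 1 zero_le_one (a n p.1 (d p.2)))
  have h01φ : ∀ j, ∀ᶠ n in atTop, ∀ x, a (φ n) j x ∈ Icc (0:ℝ) 1 := fun j =>
    hφ.tendsto_atTop.eventually (h01 j)
  have hlipφ : ∀ j, ∀ᶠ n in atTop, ∀ x y : E N, dist x y ≤ 1 →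
      |a (φ n) j x - a (φ n) j y| ≤ L * dist x y := fun j =>
    hφ.tendsto_atTop.eventually (hlip2 j)
  have hdl : ∀ j i, Tendsto (fun n => a (φ n) j (d i)) atTop (𝓝 (A0 (j, i) : ℝ)) := by
    intro j i
    have h1 : Tendsto (fun n => ((Set.projIcc (0:ℝ) 1 zero_le_one (a (φ n) j (d i)) : Icc (0:ℝ) 1) : ℝ))
        atTop (𝓝 (A0 (j, i) : ℝ)) :=
      (continuous_subtype_val.tendsto _).comp ((tendsto_pi_nhds.1 hlim) (j, i))
    refine h1.congr' ?_
    filter_upwards [h01φ j] with n hn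
    rw [Set.projIcc_of_mem zero_le_one (hn (d i))]
  -- pointwise convergence
  have hcv : ∀ j x, ∃ y : ℝ, Tendsto (fun n => a (φ n) j x) atTop (𝓝 y) := by
    intro j x
    refine cauchySeq_tendsto_of_complete ?_
    rw [Metric.cauchySeq_iff']
    intro ε hε
    obtain ⟨δ, hδ0, hδ1, hδ2⟩ : ∃ δ : ℝ, 0 < δ ∧ δ ≤ 1 ∧ L * δ ≤ ε / 8 := by
      refine ⟨min 1 (ε / (8 * (L + 1))), by positivity, min_le_left _ _, ?_⟩
      have h1 : L * min 1 (ε / (8 * (L + 1))) ≤ L * (ε / (8 * (L + 1))) := by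
        gcongr; exact min_le_right _ _
      refine h1.trans ?_
      rw [mul_div_assoc', div_le_div_iff₀ (by positivity) (by norm_num)]
      nlinarith
    obtain ⟨i, hi⟩ := (Metric.denseRange_iff.1 hd) x δ hδ0
    have h2 := Metric.cauchySeq_iff'.1 (hdl j i).cauchySeq (ε / 4) (by linarith)
    obtain ⟨n0, hn0⟩ := h2
    obtain ⟨n1, hn1⟩ := Filter.eventually_atTop.1 (hlipφ j)
    refine ⟨max n0 n1, fun n hn => ?_⟩
    have k1 := hn1 n ((le_max_right _ _).trans hn) x (d i) (hi.le.trans hδ1)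
    have k2 := hn1 (max n0 n1) (le_max_right _ _) x (d i) (hi.le.trans hδ1)
    have k3 := hn0 n ((le_max_left _ _).trans hn)
    have k4 := hn0 (max n0 n1) (le_max_left _ _)
    have k5 : L * dist x (d i) ≤ ε / 8 := (mul_le_mul_of_nonneg_left hi.le hL).trans hδ2
    rw [Real.dist_eq] at k3 k4 ⊢
    rw [abs_le] at k1 k2
    rw [abs_lt] at k3 k4 ⊢
    constructor <;> linarith
  choose A hA using hcv
  have hAlip : ∀ j (x y : E N), dist x y ≤ 1 → |A j x - A j y| ≤ L * dist x y := by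
    intro j x y hxy
    refine le_of_tendsto (((hA j x).sub (hA j y)).abs) ?_
    filter_upwards [hlipφ j] with n hn using hn x y hxy
  refine ⟨φ, hφ, A, ?_, ?_, hA, ?_⟩
  · intro j x
    refine isClosed_Icc.mem_of_tendsto (hA j x) ?_
    filter_upwards [h01φ j] with n hn using hn x
  · intro j
    rw [Metric.continuous_iff]
    intro x ε hε
    refine ⟨min 1 (ε / (L + 1)), by positivity, fun y hy => ?_⟩
    have h1 := hAlip j y x (hy.le.trans (min_le_left _ _))
    rw [Real.dist_eq]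
    refine h1.trans_lt ?_
    have h2 : dist y x < ε / (L + 1) := hy.trans_le (min_le_right _ _)
    rw [lt_div_iff₀ (by linarith)] at h2
    nlinarith [dist_nonneg (x := y) (y := x)]
  · intro j R
    rw [ENNReal.tendsto_nhds_zero]
    intro ε hε
    -- reduce to a real `ε`
    obtain ⟨r, hr0, hr⟩ : ∃ r : ℝ, 0 < r ∧ ENNReal.ofReal r ≤ ε := by
      rcases eq_or_ne ε ⊤ with rfl | hε'
      · exact ⟨1, one_pos, le_top⟩
      · exact ⟨ε.toReal, ENNReal.toReal_pos hε.ne' hε', by rw [ENNReal.ofReal_toReal hε']⟩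
    obtain ⟨δ, hδ0, hδ1, hδ2⟩ : ∃ δ : ℝ, 0 < δ ∧ δ ≤ 1 ∧ L * δ ≤ r / 3 := by
      refine ⟨min 1 (r / (3 * (L + 1))), by positivity, min_le_left _ _, ?_⟩
      have h1 : L * min 1 (r / (3 * (L + 1))) ≤ L * (r / (3 * (L + 1))) := by
        gcongr; exact min_le_right _ _
      refine h1.trans ?_
      rw [mul_div_assoc', div_le_div_iff₀ (by positivity) (by norm_num)]
      nlinarith
    obtain ⟨t, -, ht, hcov⟩ := (isCompact_closedBall (0 : E N) R).finite_cover_balls hδ0
    have hev : ∀ᶠ n in atTop, ∀ x ∈ t, |a (φ n) j x - A j x| < r / 3 := by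
      rw [Filter.eventually_all_finite ht]
      intro x _
      have := (Metric.tendsto_nhds.1 (hA j x)) (r / 3) (by linarith)
      simpa [Real.dist_eq] using this
    filter_upwards [hev, hlipφ j] with n hn1 hn2
    refine le_trans ?_ hr
    rw [eLpNorm_exponent_top]
    refine eLpNormEssSup_le_of_ae_bound ?_
    rw [ae_restrict_iff' measurableSet_ball]
    refine Filter.Eventually.of_forall fun y hy => ?_
    obtain ⟨x, hx, hxy⟩ := mem_iUnion₂.1 (hcov (Metric.ball_subset_closedBall hy))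
    rw [Metric.mem_ball] at hxy
    have k1 := hn1 x hx
    have k2 := hn2 y x (hxy.le.trans hδ1)
    have k3 := hAlip j y x (hxy.le.trans hδ1)
    have k5 : L * dist y x ≤ r / 3 := (mul_le_mul_of_nonneg_left hxy.le hL).trans hδ2
    rw [Real.norm_eq_abs]
    rw [abs_le] at k2 k3 ⊢
    rw [abs_lt] at k1
    constructor <;> linarith

end

end Pool.Agent.T2H75.FK
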