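import Pool.Agent.T2H75.FK.Wang

set_option autoImplicit false

/-!
Package W2: two consequences of `wang`.
-/

open MeasureTheory Set Filter Topology
open scoped ENNReal InnerProductSpace Laplacian

namespace Pool.Agent.T2H75.FK

open Pool.Agent.X297.KP

noncomputable section

variable {N : ℕ}

/-- `wang` with `s = T/2`, `p = 1 + 4/T`. -/
theorem harnack_fin {f : ℝ → ℝ} {M : ℝ} (hf : NL f M) {U : Set (E N)} {u : ℝ → E N → ℝ}
    (hu : IsClassicalSolution f U u) (hpos : ∀ t, 0 < t → ∀ x, 0 < u t x)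
    {T : ℝ} (hT : 2 ≤ T) (x y : E N) :
    (u T (x + y)) ^ (1 + 4 / T) ≤
      u T x * Real.exp (2 * M + (1 + 4 / T) * ‖y‖ ^ 2 / 8) := by
  have hT0 : 0 < T := by linarith
  have h := wang hf hu hpos (s := T / 2) (t := T) (p := 1 + 4 / T) (by positivity) (by linarith)
    (by have : 0 < 4 / T := by positivity
        linarith) x y
  have e : (1 + 4 / T - 1) * M * (T - T / 2) +
      (1 + 4 / T) * ‖y‖ ^ 2 / (4 * (1 + 4 / T - 1) * (T - T / 2)) =
      2 * M + (1 + 4 / T) * ‖y‖ ^ 2 / 8 := by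
    have h1 : T - T / 2 = T / 2 := by ring
    have h2 : 1 + 4 / T - 1 = 4 / T := by ring
    rw [h1, h2]
    have h3 : 4 / T * M * (T / 2) = 2 * M := by field_simp; ring
    have h4 : 4 * (4 / T) * (T / 2) = 8 := by field_simp; ring
    rw [h3, h4]
  rwa [e] at h

/-- Lipschitz bound: `wang` with `s = T/2`, `p = 1 + a/T`, `a = ‖y‖ ≤ 1`, and
`r ≤ r^p + (p-1)` for `r ∈ [0,1]` (Bernoulli, `one_add_mul_self_le_rpow_one_add`). -/
theorem lip_fin {f : ℝ → ℝ} {M : ℝ} (hf : NL f M) : ∃ L : ℝ, 0 ≤ L ∧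
    ∀ (U : Set (E N)) (u : ℝ → E N → ℝ), IsClassicalSolution f U u →
      (∀ t, 0 < t → ∀ x, 0 < u t x) →
      ∀ T, 2 ≤ T → ∀ x y : E N, ‖y‖ ≤ 1 → u T (x + y) ≤ u T x + L * ‖y‖ := by
  have hM := hf.M0
  refine ⟨(M + 1) * Real.exp (M + 1) + 1, by positivity, ?_⟩
  intro U u hu hpos T hT x y hy
  have hT0 : 0 < T := by linarith
  rcases eq_or_ne y 0 with hy0 | hy0
  · simp [hy0]
  have ha : 0 < ‖y‖ := norm_pos_iff.mpr hy0
  set a := ‖y‖ with hadef
  have h := wang hf hu hpos (s := T / 2) (t := T) (p := 1 + a / T) (by positivity) (by linarith)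
    (by have : 0 < a / T := by positivity
        linarith) x y
  have e : (1 + a / T - 1) * M * (T - T / 2) +
      (1 + a / T) * a ^ 2 / (4 * (1 + a / T - 1) * (T - T / 2)) =
      a * M / 2 + (1 + a / T) * a / 2 := by
    have h1 : T - T / 2 = T / 2 := by ring
    have h2 : 1 + a / T - 1 = a / T := by ring
    rw [h1, h2]
    field_simp
    ring
  rw [e] at h
  have haT : a / T ≤ 1 / 2 := by
    rw [div_le_iff₀ hT0]
    linarith
  have hk : a * M / 2 + (1 + a / T) * a / 2 ≤ (M + 1) * a := by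
    have h1 : 0 ≤ a * M := by positivity
    have h2 : (1 + a / T) * a ≤ (1 + 1 / 2) * a :=
      mul_le_mul_of_nonneg_right (by linarith) ha.le
    nlinarith
  have hr := hu.range T hT0 (x + y)
  have hb : u T (x + y) ≤ (u T (x + y)) ^ (1 + a / T) + a / T := by
    have h1 := one_add_mul_self_le_rpow_one_add (s := u T (x + y) - 1) (by linarith [hr.1])
      (p := 1 + a / T) (by have : 0 < a / T := by positivity
                           linarith)
    rw [add_sub_cancel] at h1
    have h2 : 0 ≤ a / T := by positivity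
    nlinarith [hr.1, hr.2]
  have hx := hu.range T hT0 x
  have h3 : u T x * Real.exp (a * M / 2 + (1 + a / T) * a / 2) ≤
      u T x + (M + 1) * Real.exp (M + 1) * a := by
    have h4 : Real.exp (a * M / 2 + (1 + a / T) * a / 2) ≤ Real.exp ((M + 1) * a) :=
      Real.exp_le_exp.mpr hk
    have h5 : Real.exp ((M + 1) * a) ≤ 1 + (M + 1) * a * Real.exp (M + 1) := by
      have h6 : Real.exp ((M + 1) * a) * (1 - (M + 1) * a) ≤ 1 := by
        have h7 := Real.add_one_le_exp (-((M + 1) * a))
        have h8 := mul_le_mul_of_nonneg_left h7 (Real.exp_pos ((M + 1) * a)).le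
        rw [← Real.exp_add, add_neg_cancel, Real.exp_zero] at h8
        calc _ = Real.exp ((M + 1) * a) * (-((M + 1) * a) + 1) := by ring
          _ ≤ 1 := h8
      have h9 : Real.exp ((M + 1) * a) ≤ Real.exp (M + 1) := by
        apply Real.exp_le_exp.mpr
        nlinarith
      have h10 : (M + 1) * a * Real.exp ((M + 1) * a) ≤ (M + 1) * a * Real.exp (M + 1) :=
        mul_le_mul_of_nonneg_left h9 (by positivity)
      nlinarith
    calc u T x * Real.exp (a * M / 2 + (1 + a / T) * a / 2)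
        ≤ u T x * (1 + (M + 1) * a * Real.exp (M + 1)) :=
          mul_le_mul_of_nonneg_left (h4.trans h5) hx.1
      _ = u T x + u T x * ((M + 1) * a * Real.exp (M + 1)) := by ring
      _ ≤ u T x + 1 * ((M + 1) * a * Real.exp (M + 1)) := by
          gcongr
          exact hx.2
      _ = _ := by ring
  have h6 : a / T ≤ a := by
    rw [div_le_iff₀ hT0]
    nlinarith
  calc u T (x + y) ≤ (u T (x + y)) ^ (1 + a / T) + a / T := hb
    _ ≤ (u T x + (M + 1) * Real.exp (M + 1) * a) + a := add_le_add (h.trans h3) h6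
    _ = _ := by ring

end

end Pool.Agent.T2H75.FK
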