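import Pool.Agent.T2H75.FK.Geo
import Pool.Agent.T2H75.FK.Wang2
import Pool.Agent.T2H75.FK.Ini2
import Pool.Agent.T2H75.FK.Sub
import Pool.Agent.T2H75.FK.Ratio
import Pool.Agent.T2H75.FK.E3

set_option autoImplicit false

/-! Limits along a sequence: the properties which pass to the limit. -/

open MeasureTheory Set Filter Topology
open scoped ENNReal InnerProductSpace Laplacian

namespace Pool.Agent.T2H75.FK

open Pool.Agent.X297.KP

noncomputable section

variable {N : ℕ}

/-- `A j` is the limit of `u(t_n - j, x_n + ·)`. -/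
structure Lim (u : ℝ → E N → ℝ) (t : ℕ → ℝ) (x : ℕ → E N) (A : ℕ → E N → ℝ) : Prop where
  tt : Tendsto t atTop atTop
  mem : ∀ (j : ℕ) (y : E N), A j y ∈ Icc (0:ℝ) 1
  cont : ∀ j : ℕ, Continuous (A j)
  lim : ∀ (j : ℕ) (y : E N), Tendsto (fun n => u (t n - j) (x n + y)) atTop (𝓝 (A j y))

section

variable {f : ℝ → ℝ} {M : ℝ} {U : Set (E N)} {u : ℝ → E N → ℝ}
  {t : ℕ → ℝ} {x : ℕ → E N} {A : ℕ → E N → ℝ}

theorem Lim.large (hA : Lim u t x A) (j : ℕ) (R : ℝ) : ∀ᶠ n in atTop, R ≤ t n - j := by
  filter_upwards [hA.tt.eventually_ge_atTop (R + j)] with n hn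
  linarith

/-- Spatial Harnack inequality for the limit. -/
theorem Lim.harnack (hf : NL f M) (hu : IsClassicalSolution f U u)
    (hpos : ∀ t, 0 < t → ∀ x, 0 < u t x) (hA : Lim u t x A) (j : ℕ) (y z : E N) :
    A j (y + z) ≤ A j y * Real.exp (2 * M + ‖z‖ ^ 2 / 8) := by
  have hT : Tendsto (fun n => t n - (j:ℝ)) atTop atTop :=
    tendsto_atTop_add_const_right _ _ hA.tt
  have hp : Tendsto (fun n => 1 + 4 / (t n - (j:ℝ))) atTop (𝓝 (1 + 0)) :=
    tendsto_const_nhds.add (tendsto_const_nhds.div_atTop hT)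
  rw [add_zero] at hp
  have h1 : Tendsto (fun n => (u (t n - j) (x n + (y + z))) ^ (1 + 4 / (t n - (j:ℝ)))) atTop
      (𝓝 (A j (y + z) ^ (1:ℝ))) := (hA.lim j (y + z)).rpow hp (Or.inr one_pos)
  rw [Real.rpow_one] at h1
  have h2 : Tendsto (fun n => u (t n - j) (x n + y) *
      Real.exp (2 * M + (1 + 4 / (t n - (j:ℝ))) * ‖z‖ ^ 2 / 8)) atTop
      (𝓝 (A j y * Real.exp (2 * M + 1 * ‖z‖ ^ 2 / 8))) := by
    apply (hA.lim j y).mul
    apply (Real.continuous_exp.tendsto _).comp
    exact tendsto_const_nhds.add ((hp.mul_const _).div_const _)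
  rw [one_mul] at h2
  refine le_of_tendsto_of_tendsto h1 h2 ?_
  filter_upwards [hA.large j 2] with n hn
  have := harnack_fin hf hu hpos hn (x n + y) z
  rwa [add_assoc] at this

theorem slice_measurable (hu : IsClassicalSolution f U u) {s : ℝ} (hs : 0 < s) :
    Measurable (u s) := (hu.contDiff_two s hs).continuous.measurable

theorem heatP_shift (φ : E N → ℝ) (a y : E N) :
    heatP 1 φ (a + y) = heatP 1 (fun z => φ (a + z)) y := by
  rw [add_comm a y, heatP_translate]
  congr 1
  funext z
  rw [add_comm]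

/-- A measurable version of the sequence `u(t_n - j, x_n + ·)`. -/
theorem Lim.heat_tendsto (hu : IsClassicalSolution f U u) (hA : Lim u t x A) (j : ℕ) (y : E N) :
    Tendsto (fun n => heatP 1 (u (t n - j)) (x n + y)) atTop (𝓝 (heatP 1 (A j) y)) := by
  classical
  set φ : ℕ → E N → ℝ := fun n => if 0 < t n - j then (fun z => u (t n - j) (x n + z)) else 0
    with hφ
  have hev : ∀ᶠ n in atTop, 0 < t n - j := by
    filter_upwards [hA.large j 1] with n hn
    linarith
  have h1 : Tendsto (fun n => heatP 1 (φ n) y) atTop (𝓝 (heatP 1 (A j) y)) := by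
    apply heatP_tendsto one_pos (B := 1)
    · intro n
      by_cases h : 0 < t n - j
      · simp only [hφ, h, if_true]
        exact (slice_measurable hu h).comp (measurable_const_add _)
      · simp only [hφ, h, if_false]
        exact measurable_const
    · filter_upwards [hev] with n hn
      intro z
      simp only [hφ, hn, if_true]
      have := hu.range _ hn (x n + z)
      rw [abs_of_nonneg this.1]
      exact this.2
    · intro z
      refine (hA.lim j z).congr' ?_
      filter_upwards [hev] with n hn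
      simp only [hφ, hn, if_true]
  refine h1.congr' ?_
  filter_upwards [hev] with n hn
  simp only [hφ, hn, if_true]
  rw [heatP_shift]

theorem Lim.upper (hf : NL f M) (hu : IsClassicalSolution f U u) (hA : Lim u t x A) (j : ℕ)
    (y : E N) : A j y ≤ Real.exp M * heatP 1 (A (j + 1)) y := by
  have h1 := (hA.heat_tendsto hu (j + 1) y).const_mul (Real.exp M)
  refine le_of_tendsto_of_tendsto (hA.lim j y) h1 ?_
  filter_upwards [hA.large j 2] with n hn
  have hs : 0 < t n - ((j + 1 : ℕ) : ℝ) := by push_cast; linarith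
  have h2 := upper_lin hf (s := t n - ((j + 1 : ℕ) : ℝ)) (t := t n - j) (by push_cast; linarith)
    (hu.reg hs) (fun r hr y => hu.range r (by linarith [hr.1]) y)
    (fun r hr y => (hu.eq r (by linarith [hr.1]) y).le) (x n + y)
  have h3 : t n - (j:ℝ) - (t n - ((j + 1 : ℕ) : ℝ)) = 1 := by push_cast; ring
  rw [h3, mul_one] at h2
  exact h2

/-- The constant `e^{3M} 2^{N/2}`. -/
theorem Lim.time_harnack (hf : NL f M) (hu : IsClassicalSolution f U u)
    (hpos : ∀ t, 0 < t → ∀ x, 0 < u t x) (hA : Lim u t x A) (j : ℕ) (y : E N) :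
    A j y ≤ Real.exp M * (Real.exp (2 * M) * 2 ^ ((N : ℝ) / 2)) * A (j + 1) y := by
  refine (hA.upper hf hu j y).trans ?_
  rw [mul_assoc]
  refine mul_le_mul_of_nonneg_left ?_ (Real.exp_pos _).le
  unfold heatP
  have h2 : ∫ z : E N, heatK 2 (y - z) = 1 := heatK_int1' two_pos y
  calc ∫ z, heatK 1 (y - z) * A (j + 1) z
      ≤ ∫ z, Real.exp (2 * M) * 2 ^ ((N : ℝ) / 2) * A (j + 1) y * heatK 2 (y - z) := by
        apply integral_mono
        · exact int_bdd_mul one_pos y (hA.cont (j + 1)).measurable (C := 1) (fun z => by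
            rw [abs_of_nonneg (hA.mem _ z).1]; exact (hA.mem _ z).2)
        · exact (heatK_integrable' two_pos y).const_mul _
        · intro z
          have h3 := hA.harnack hf hu hpos (j + 1) y (z - y)
          rw [add_sub_cancel] at h3
          have h4 := heatK_one_mul_exp (y - z)
          have h5 : ‖z - y‖ = ‖y - z‖ := norm_sub_rev _ _
          rw [h5, Real.exp_add] at h3
          calc heatK 1 (y - z) * A (j + 1) z
              ≤ heatK 1 (y - z) * (A (j + 1) y * (Real.exp (2 * M) * Real.exp (‖y - z‖ ^ 2 / 8))) :=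
                mul_le_mul_of_nonneg_left h3 (heatK_nonneg one_pos _)
            _ = Real.exp (2 * M) * A (j + 1) y * (heatK 1 (y - z) * Real.exp (‖y - z‖ ^ 2 / 8)) := by
                ring
            _ = _ := by rw [h4]; ring
    _ = _ := by rw [integral_const_mul, h2]; ring

theorem Lim.harnack' (hf : NL f M) (hu : IsClassicalSolution f U u)
    (hpos : ∀ t, 0 < t → ∀ x, 0 < u t x) (hA : Lim u t x A) (j : ℕ) (y z : E N)
    (h : dist y z ≤ 1) :
    A j y ≤ Real.exp M * (Real.exp (2 * M) * 2 ^ ((N : ℝ) / 2)) * Real.exp (2 * M + 1 / 8) *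
      A (j + 1) z := by
  refine (hA.time_harnack hf hu hpos j y).trans ?_
  rw [mul_assoc (Real.exp M * _) (Real.exp _)]
  refine mul_le_mul_of_nonneg_left ?_ (by positivity)
  have h1 := hA.harnack hf hu hpos (j + 1) z (y - z)
  rw [add_sub_cancel] at h1
  rw [mul_comm]
  refine h1.trans (mul_le_mul_of_nonneg_left ?_ (hA.mem _ _).1)
  apply Real.exp_le_exp.mpr
  have h2 : ‖y - z‖ ≤ 1 := by rwa [dist_eq_norm] at h
  have h3 : ‖y - z‖ ^ 2 ≤ 1 := by nlinarith [norm_nonneg (y - z)]
  linarith

theorem Lim.all_pos (hf : NL f M) (hu : IsClassicalSolution f U u)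
    (hpos : ∀ t, 0 < t → ∀ x, 0 < u t x) (hA : Lim u t x A) {y0 : E N} (h0 : 0 < A 0 y0) :
    ∀ j y, 0 < A j y := by
  intro j
  induction j with
  | zero =>
    intro y
    by_contra h
    have h1 := hA.harnack hf hu hpos 0 y (y0 - y)
    rw [add_sub_cancel] at h1
    have h2 : A 0 y = 0 := le_antisymm (not_lt.mp h) (hA.mem 0 y).1
    rw [h2, zero_mul] at h1
    linarith
  | succ j ih =>
    intro y
    by_contra h
    have h1 := hA.time_harnack hf hu hpos j y
    have h2 : A (j + 1) y = 0 := le_antisymm (not_lt.mp h) (hA.mem _ y).1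
    rw [h2, mul_zero] at h1
    linarith [ih y]

end

/-! ## Translates and multiples -/

theorem laplacian_translate (v : E N → ℝ) (h y : E N) :
    Δ (fun z => v (z + h)) y = Δ v (y + h) := by
  rw [InnerProductSpace.laplacian_eq_iteratedFDeriv_stdOrthonormalBasis,
    InnerProductSpace.laplacian_eq_iteratedFDeriv_stdOrthonormalBasis]
  simp only [iteratedFDeriv_comp_add_right]

theorem laplacian_mul (κ : ℝ) {v : E N → ℝ} (hv : ContDiff ℝ 2 v) (y : E N) :
    Δ (fun z => κ * v z) y = κ * Δ v y := by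
  have := InnerProductSpace.laplacian_smul κ (f := v) (x := y) hv.contDiffAt
  simpa [Pi.smul_def, smul_eq_mul] using this

theorem Reg.translate {v vt : ℝ → E N → ℝ} {s t : ℝ} (hv : Reg v vt s t) (h : E N) :
    Reg (fun r y => v r (y + h)) (fun r y => vt r (y + h)) s t where
  cont := by
    apply hv.cont.comp (f := fun p : ℝ × E N => (p.1, p.2 + h)) (by fun_prop)
    rintro ⟨r, y⟩ hr
    exact ⟨hr.1, mem_univ _⟩
  dt := fun r hr y => hv.dt r hr (y + h)
  dtc := by
    apply hv.dtc.comp (f := fun p : ℝ × E N => (p.1, p.2 + h)) (by fun_prop)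
    rintro ⟨r, y⟩ hr
    exact ⟨hr.1, mem_univ _⟩
  sp := fun r hr => (hv.sp r hr).comp (contDiff_id.add contDiff_const)

theorem Reg.const_mul {v vt : ℝ → E N → ℝ} {s t : ℝ} (hv : Reg v vt s t) (κ : ℝ) :
    Reg (fun r y => κ * v r y) (fun r y => κ * vt r y) s t where
  cont := continuousOn_const.mul hv.cont
  dt := fun r hr y => (hv.dt r hr y).const_mul κ
  dtc := continuousOn_const.mul hv.dtc
  sp := fun r hr => contDiff_const.mul (hv.sp r hr)

section

variable {f : ℝ → ℝ} {M : ℝ} {U : Set (E N)} {u : ℝ → E N → ℝ}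
  {t : ℕ → ℝ} {x : ℕ → E N} {A : ℕ → E N → ℝ}

/-- The one-step inequality for `u(·,·+h) - κ u`. -/
theorem step_fin (hf : NL f M) (hu : IsClassicalSolution f U u) {κ : ℝ}
    (hκ : κ ∈ Icc (0:ℝ) 1) (h : E N) {s : ℝ} (hs : 0 < s) (y : E N) :
    Real.exp (-M) * heatP 1 (fun z => u s (z + h) - κ * u s z) y -
      Real.exp M * heatP 1 (fun z => max (κ * u s z - u s (z + h)) 0) y ≤
      u (s + 1) (y + h) - κ * u (s + 1) y := by
  have h1 := step_lower hf (s := s) (t := s + 1) (by linarith)
    ((hu.reg (t := s + 1) hs).translate h) ((hu.reg (t := s + 1) hs).const_mul κ)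
    (fun r hr y => hu.range r (by linarith [hr.1]) _)
    (fun r hr y => by
      have h2 := hu.range r (by linarith [hr.1]) y
      exact ⟨mul_nonneg hκ.1 h2.1, mul_le_one₀ hκ.2 h2.1 h2.2⟩)
    (fun r hr y => by
      rw [laplacian_translate]
      exact (hu.eq r (by linarith [hr.1]) (y + h)).ge)
    (fun r hr y => by
      have hr0 : 0 < r := by linarith [hr.1]
      rw [laplacian_mul _ (hu.contDiff_two r hr0)]
      have h2 := hf.sub κ hκ _ (hu.range r hr0 y)
      have h3 := hu.eq r hr0 y
      rw [h3]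
      linarith [h2]) y
  simpa using h1

/-- The one-step inequality in the limit. -/
theorem Lim.step (hf : NL f M) (hu : IsClassicalSolution f U u) (hA : Lim u t x A) {κ : ℝ}
    (hκ : κ ∈ Icc (0:ℝ) 1) (h : E N) (j : ℕ)
    (hj : ∀ y, κ * A (j + 1) y ≤ A (j + 1) (y + h)) (y : E N) :
    heatP 1 (fun z => A (j + 1) (z + h) - κ * A (j + 1) z) y ≤
      Real.exp M * (A j (y + h) - κ * A j y) := by
  classical
  have hev : ∀ᶠ n in atTop, 0 < t n - ((j + 1 : ℕ) : ℝ) := by
    filter_upwards [hA.large (j + 1) 1] with n hn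
    linarith
  set s : ℕ → ℝ := fun n => t n - ((j + 1 : ℕ) : ℝ) with hs
  set φ : ℕ → E N → ℝ := fun n => if 0 < s n then
    (fun z => u (s n) (x n + (z + h)) - κ * u (s n) (x n + z)) else 0 with hφ
  set ψ : ℕ → E N → ℝ := fun n => if 0 < s n then
    (fun z => max (κ * u (s n) (x n + z) - u (s n) (x n + (z + h))) 0) else 0 with hψ
  have hb : ∀ n, 0 < s n → ∀ z, |u (s n) (x n + (z + h)) - κ * u (s n) (x n + z)| ≤ 1 := by
    intro n hn z
    have h1 := hu.range _ hn (x n + (z + h))
    have h2 := hu.range _ hn (x n + z)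
    have h3 : κ * u (s n) (x n + z) ≤ 1 := mul_le_one₀ hκ.2 h2.1 h2.2
    have h4 : 0 ≤ κ * u (s n) (x n + z) := mul_nonneg hκ.1 h2.1
    rw [abs_le]
    constructor <;> linarith [h1.1, h1.2]
  have hm1 : ∀ n, 0 < s n → Measurable (fun z => u (s n) (x n + (z + h))) := by
    intro n hn
    exact (slice_measurable hu hn).comp (by fun_prop)
  have hm2 : ∀ n, 0 < s n → Measurable (fun z => u (s n) (x n + z)) := by
    intro n hn
    exact (slice_measurable hu hn).comp (by fun_prop)
  have l1 : Tendsto (fun n => heatP 1 (φ n) y) atTop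
      (𝓝 (heatP 1 (fun z => A (j + 1) (z + h) - κ * A (j + 1) z) y)) := by
    apply heatP_tendsto one_pos (B := 1)
    · intro n
      by_cases hn : 0 < s n
      · simp only [hφ, hn, if_true]
        exact (hm1 n hn).sub ((hm2 n hn).const_mul κ)
      · simp only [hφ, hn, if_false]
        exact measurable_const
    · filter_upwards [hev] with n hn
      intro z
      simp only [hφ, hs, hn, if_true]
      exact hb n hn z
    · intro z
      refine ((hA.lim (j + 1) (z + h)).sub ((hA.lim (j + 1) z).const_mul κ)).congr' ?_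
      filter_upwards [hev] with n hn
      simp only [hφ, hs, hn, if_true]
  have l2 : Tendsto (fun n => heatP 1 (ψ n) y) atTop
      (𝓝 (heatP 1 (fun z => max (κ * A (j + 1) z - A (j + 1) (z + h)) 0) y)) := by
    apply heatP_tendsto one_pos (B := 1)
    · intro n
      by_cases hn : 0 < s n
      · simp only [hψ, hn, if_true]
        exact (((hm2 n hn).const_mul κ).sub (hm1 n hn)).max measurable_const
      · simp only [hψ, hn, if_false]
        exact measurable_const
    · filter_upwards [hev] with n hn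
      intro z
      simp only [hψ, hs, hn, if_true]
      rw [abs_of_nonneg (le_max_right _ _)]
      have := abs_le.mp (hb n hn z)
      exact max_le (by linarith [this.1]) zero_le_one
    · intro z
      refine Tendsto.congr' ?_ ((((hA.lim (j + 1) z).const_mul κ).sub
        (hA.lim (j + 1) (z + h))).max tendsto_const_nhds)
      filter_upwards [hev] with n hn
      simp only [hψ, hs, hn, if_true]
  have hz : (fun z => max (κ * A (j + 1) z - A (j + 1) (z + h)) 0) = fun _ => (0:ℝ) := by
    funext z
    exact max_eq_right (by linarith [hj z])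
  rw [hz, heatP_const one_pos] at l2
  have l3 := (l1.const_mul (Real.exp (-M))).sub (l2.const_mul (Real.exp M))
  rw [mul_zero, sub_zero] at l3
  have l4 : Tendsto (fun n => u (t n - j) (x n + (y + h)) - κ * u (t n - j) (x n + y)) atTop
      (𝓝 (A j (y + h) - κ * A j y)) :=
    (hA.lim j (y + h)).sub ((hA.lim j y).const_mul κ)
  have key : Real.exp (-M) * heatP 1 (fun z => A (j + 1) (z + h) - κ * A (j + 1) z) y ≤
      A j (y + h) - κ * A j y := by
    refine le_of_tendsto_of_tendsto l3 l4 ?_
    filter_upwards [hev] with n hn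
    have h1 := step_fin hf hu hκ h hn (x n + y)
    rw [heatP_shift, heatP_shift] at h1
    have h2 : t n - ((j + 1 : ℕ) : ℝ) + 1 = t n - j := by push_cast; ring
    rw [h2] at h1
    simp only [hφ, hψ, hs, hn, if_true]
    simp only [add_assoc] at h1 ⊢
    exact h1
  have h5 := mul_le_mul_of_nonneg_left key (Real.exp_pos M).le
  rwa [← mul_assoc, ← Real.exp_add, add_neg_cancel, Real.exp_zero, one_mul] at h5

/-- Invariance under a translation propagates forward in time. -/
theorem Lim.invariant (hf : NL f M) (hu : IsClassicalSolution f U u) (hA : Lim u t x A)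
    {h : E N} {j : ℕ} (hj : ∀ y, A (j + 1) (y + h) = A (j + 1) y) (y : E N) :
    A j (y + h) = A j y := by
  have key : ∀ g : E N, (∀ y, A (j + 1) (y + g) = A (j + 1) y) → ∀ y, A j y ≤ A j (y + g) := by
    intro g hg y
    have h1 := hA.step hf hu (κ := 1) ⟨zero_le_one, le_rfl⟩ g j
      (fun y => by rw [hg, one_mul]) y
    have h2 : (fun z => A (j + 1) (z + g) - 1 * A (j + 1) z) = fun _ => (0:ℝ) := by
      funext z
      rw [hg, one_mul, sub_self]
    rw [h2, heatP_const one_pos, one_mul] at h1
    have h3 : 0 ≤ A j (y + g) - A j y := by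
      by_contra h4
      have := mul_neg_of_pos_of_neg (Real.exp_pos M) (not_le.mp h4)
      linarith
    linarith
  apply le_antisymm
  · have h1 := key (-h) (fun y => by
      have := hj (y + -h)
      rw [neg_add_cancel_right] at this
      exact this.symm) (y + h)
    rwa [add_neg_cancel_right] at h1
  · exact key h hj y

theorem Lim.invariant' (hf : NL f M) (hu : IsClassicalSolution f U u) (hA : Lim u t x A)
    {h : E N} {i j : ℕ} (hij : i ≤ j) (hj : ∀ y, A j (y + h) = A j y) :
    ∀ y, A i (y + h) = A i y := by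
  induction j, hij using Nat.le_induction with
  | base => exact hj
  | succ j _ ih => exact ih (fun y => hA.invariant hf hu hj y)

end

end

end Pool.Agent.T2H75.FK
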