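import Pool.Agent.T2H75.FK.Fin1

set_option autoImplicit false

/-! Assembly: stability of asymptotic planarity. -/

open MeasureTheory Set Filter Topology
open scoped ENNReal InnerProductSpace Laplacian

namespace Pool.Agent.T2H75.FK

open Pool.Agent.X297.KP

noncomputable section

variable {N : ℕ}

/-- A continuous one-dimensional function is invariant under the translations orthogonal to `e`. -/
theorem OneDimC2.invariant {ψ : E N → ℝ} (hψ : OneDimC2 ψ) (hc : Continuous ψ) :
    ∃ e : E N, ‖e‖ = 1 ∧ ∀ h : E N, inner ℝ h e = 0 → ∀ y, ψ (y + h) = ψ y := by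
  obtain ⟨e, he, Ψ, -, hΨ⟩ := hψ
  refine ⟨e, he, fun h hh y => ?_⟩
  have h1 : ∀ᵐ y : E N, ψ (y + h) = Ψ (inner ℝ (y + h) e) :=
    (quasiMeasurePreserving_add_right volume h).ae hΨ
  have h2 : (fun y => ψ (y + h)) =ᵐ[volume] ψ := by
    filter_upwards [h1, hΨ] with y h3 h4
    rw [h3, h4, inner_add_left, hh, add_zero]
  have h3 : (fun y => ψ (y + h)) = ψ :=
    (Continuous.ae_eq_iff_eq volume (by fun_prop) hc).mp h2
  exact congrFun h3 y

section

variable {f : ℝ → ℝ} {M : ℝ} {U U' : Set (E N)} {u u' : ℝ → E N → ℝ}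
  {t : ℕ → ℝ} {x : ℕ → E N} {A P : ℕ → E N → ℝ}

/-- A common direction for all times. -/
theorem common_direction (hf : NL f M) (hu : IsClassicalSolution f U u) (hP : Lim u t x P)
    (hone : ∀ j, ∃ e : E N, ‖e‖ = 1 ∧ ∀ h : E N, inner ℝ h e = 0 → ∀ y, P j (y + h) = P j y) :
    ∃ e : E N, ‖e‖ = 1 ∧ ∀ h : E N, inner ℝ h e = 0 → ∀ j y, P j (y + h) = P j y := by
  choose e he hinv using hone
  have hmem : ∀ j, e j ∈ Metric.sphere (0 : E N) 1 := by
    intro j
    simp [he j]
  obtain ⟨e0, he0, φ, hφ, hlim⟩ := (isCompact_sphere (0 : E N) 1).tendsto_subseq hmem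
  refine ⟨e0, by simpa using he0, fun h hh j y => ?_⟩
  have h1 : Tendsto (fun k => h - (inner ℝ h (e (φ k))) • e (φ k)) atTop
      (𝓝 (h - (inner ℝ h e0) • e0)) := by
    apply Tendsto.sub tendsto_const_nhds
    apply Tendsto.smul _ hlim
    exact Tendsto.inner tendsto_const_nhds hlim
  rw [hh, zero_smul, sub_zero] at h1
  have h2 : Tendsto (fun k => P j (y + (h - (inner ℝ h (e (φ k))) • e (φ k)))) atTop
      (𝓝 (P j (y + h))) :=
    ((hP.cont j).tendsto _).comp (tendsto_const_nhds.add h1)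
  have h3 : Tendsto (fun k => P j (y + (h - (inner ℝ h (e (φ k))) • e (φ k)))) atTop
      (𝓝 (P j y)) := by
    refine Tendsto.congr' ?_ tendsto_const_nhds
    filter_upwards [hφ.tendsto_atTop.eventually_ge_atTop j] with k hk
    refine (hP.invariant' hf hu hk (hinv (φ k) _ ?_) y).symm
    rw [inner_sub_left, inner_smul_left, real_inner_self_eq_norm_sq, he]
    simp
  exact tendsto_nhds_unique h2 h3

theorem Lim.comp_lower (hA : Lim u' t x A) (hP : Lim u t x P) {η : ℝ}
    (h1 : ∀ t, 0 < t → ∀ x, η * u t x ≤ u' (t + 1) x) (j : ℕ) (y : E N) :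
    η * P (j + 1) y ≤ A j y := by
  refine le_of_tendsto_of_tendsto ((hP.lim (j + 1) y).const_mul η) (hA.lim j y) ?_
  filter_upwards [hP.large (j + 1) 1] with n hn
  have h2 := h1 (t n - ((j + 1 : ℕ) : ℝ)) (by linarith) (x n + y)
  have h3 : t n - ((j + 1 : ℕ) : ℝ) + 1 = t n - j := by push_cast; ring
  rwa [h3] at h2

theorem planar_limit (hf : NL f M) (hu : IsClassicalSolution f U u)
    (hu' : IsClassicalSolution f U' u') (hpos : ∀ t, 0 < t → ∀ x, 0 < u t x)
    (hpos' : ∀ t, 0 < t → ∀ x, 0 < u' t x) {η : ℝ} (hη0 : 0 < η)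
    (h1 : ∀ t, 0 < t → ∀ x, η * u t x ≤ u' (t + 1) x)
    (h2 : ∀ t, 0 < t → ∀ x, η * u' t x ≤ u (t + 1) x)
    (hP : Lim u t x P) (hA : Lim u' t x A) {h : E N} (hinv : ∀ j y, P j (y + h) = P j y)
    {y0 : E N} (hy0 : 0 < A 0 y0) : ∀ j y, A j y ≤ A j (y + h) := by
  have hApos := hA.all_pos hf hu' hpos' hy0
  set K1 : ℝ := Real.exp M * (Real.exp (2 * M) * 2 ^ ((N : ℝ) / 2)) with hK1
  have hK1p : 0 < K1 := by positivity
  set K2 : ℝ := K1 * Real.exp (2 * M + 1 / 8) with hK2
  have hK2p : 0 < K2 := by positivity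
  apply ratio_rigidity (P := P) (c := η / K1) (K := max K2 (Real.exp M)) (div_pos hη0 hK1p)
    (le_max_of_le_left hK2p.le) hApos (fun j y => (hA.mem j y).2) hA.cont hinv
  · intro j y
    have h3 := hP.time_harnack hf hu hpos j y
    have h4 := hA.comp_lower hP h1 j y
    calc η / K1 * P j y ≤ η / K1 * (K1 * P (j + 1) y) :=
          mul_le_mul_of_nonneg_left h3 (div_pos hη0 hK1p).le
      _ = η * P (j + 1) y := by field_simp
      _ ≤ A j y := h4
  · intro j y
    have h3 := hA.time_harnack hf hu' hpos' j y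
    have h4 := hP.comp_lower hA h2 j y
    calc η / K1 * A j y ≤ η / K1 * (K1 * A (j + 1) y) :=
          mul_le_mul_of_nonneg_left h3 (div_pos hη0 hK1p).le
      _ = η * A (j + 1) y := by field_simp
      _ ≤ P j y := h4
  · intro j y z hyz
    refine (hA.harnack' hf hu' hpos' j y z hyz).trans ?_
    exact mul_le_mul_of_nonneg_right (le_max_left _ _) (hA.mem _ _).1
  · intro κ hκ j hj y
    have h3 := hA.step hf hu' hκ h j hj y
    have h4 : 0 ≤ heatP 1 (fun z => A (j + 1) (z + h) - κ * A (j + 1) z) y :=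
      heatP_nonneg one_pos (fun z => by linarith [hj z]) y
    have h5 : 0 ≤ A j (y + h) - κ * A j y := by
      by_contra h6
      have := mul_neg_of_pos_of_neg (Real.exp_pos M) (not_le.mp h6)
      linarith
    exact h3.trans (mul_le_mul_of_nonneg_right (le_max_right _ _) h5)

end

theorem main {f : ℝ → ℝ} (hf : IsFisherKPP f) (hN : 1 ≤ N) {U U' : Set (E N)}
    (hU : MeasurableSet U) (hU' : MeasurableSet U') (hH : CondH U) (hH' : CondH U')
    (hd : Metric.hausdorffEDist U U' < ⊤) {u u' : ℝ → E N → ℝ}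
    (hu : IsClassicalSolution f U u) (hu' : IsClassicalSolution f U' u') (hp : Planar u) :
    Planar u' := by
  obtain ⟨M, hM⟩ := hf.nl
  intro ψ hψ
  obtain ⟨hmem, t, x, ht, hlim⟩ := hψ
  have hae := ae_tendsto hlim
  have he0 : ∃ e : E N, ‖e‖ = 1 := ⟨EuclideanSpace.single ⟨0, hN⟩ 1, by simp⟩
  have hzero : (∀ᵐ y, ψ y = 0) → OneDimC2 ψ := by
    intro h
    obtain ⟨e, he⟩ := he0
    exact ⟨e, he, fun _ => 0, contDiff_const, h⟩
  rcases U'.eq_empty_or_nonempty with hE | hne'
  · apply hzero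
    filter_upwards [hae] with y hy
    have h1 : Tendsto (fun n => u' (t n) (x n + y)) atTop (𝓝 0) := by
      refine Tendsto.congr' ?_ tendsto_const_nhds
      filter_upwards [ht.eventually_gt_atTop 0] with n hn
      have h2 := upper_init hM hU' hu' hn (x n + y)
      have h3 : heatP (t n) (U'.indicator 1) (x n + y) = 0 := by
        rw [hE]
        simp [heatP]
      rw [h3, mul_zero] at h2
      exact le_antisymm (hu'.range _ hn _).1 h2
    exact tendsto_nhds_unique hy h1
  have hne : U.Nonempty := by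
    by_contra hE
    rw [not_nonempty_iff_eq_empty] at hE
    rw [hE, Metric.hausdorffEDist_comm, Metric.hausdorffEDist_empty hne'] at hd
    exact lt_irrefl _ hd
  have hd' : Metric.hausdorffEDist U' U < ⊤ := by rwa [Metric.hausdorffEDist_comm]
  have hpos := pos_of_nonempty hM hU hH hne hu
  have hpos' := pos_of_nonempty hM hU' hH' hne' hu'
  obtain ⟨η1, hη1, hη1', hb1⟩ := exists_eta hM hU' hH' hd hu'
  obtain ⟨η2, hη2, hη2', hb2⟩ := exists_eta hM hU hH hd' hu
  set η := min η1 η2 with hη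
  have hη0 : 0 < η := lt_min hη1 hη2
  have hη01 : η ∈ Icc (0:ℝ) 1 := ⟨hη0.le, (min_le_left _ _).trans hη1'⟩
  have c1 : ∀ t, 0 < t → ∀ x, η * u t x ≤ u' (t + 1) x := fun t ht x =>
    compare_init hM hU hu hu' hη01 (fun x hx => (min_le_left _ _).trans (hb1 x hx)) ht x
  have c2 : ∀ t, 0 < t → ∀ x, η * u' t x ≤ u (t + 1) x := fun t ht x =>
    compare_init hM hU' hu' hu hη01 (fun x hx => (min_le_right _ _).trans (hb2 x hx)) ht x
  obtain ⟨L, hL0, hL⟩ := lip_fin (N := N) hM
  have hlarge : ∀ (j : ℕ) (R : ℝ), ∀ᶠ n in atTop, R ≤ t n - (j : ℝ) := by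
    intro j R
    filter_upwards [ht.eventually_ge_atTop (R + j)] with n hn
    linarith
  set a : ℕ → ℕ → E N → ℝ := fun n j y =>
    if j % 2 = 0 then u' (t n - (j / 2 : ℕ)) (x n + y) else u (t n - (j / 2 : ℕ)) (x n + y) with ha
  obtain ⟨φ, hφ, B, hB01, hBc, hBl, hBe⟩ := extract (a := a) hL0
    (fun j => by
      filter_upwards [hlarge (j / 2) 1] with n hn y
      simp only [ha]
      split_ifs
      · exact hu'.range _ (by linarith) _
      · exact hu.range _ (by linarith) _)
    (fun j => by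
      filter_upwards [hlarge (j / 2) 2] with n hn y z hz
      simp only [ha, ← add_assoc]
      split_ifs
      · exact hL U' u' hu' hpos' _ hn _ _ hz
      · exact hL U u hu hpos _ hn _ _ hz)
  have hA : Lim u' (t ∘ φ) (x ∘ φ) (fun i => B (2 * i)) :=
    { tt := ht.comp hφ.tendsto_atTop
      mem := fun j y => hB01 _ y
      cont := fun j => hBc _
      lim := fun j y => by
        have := hBl (2 * j) y
        simpa [ha] using this }
  have hodd : ∀ i : ℕ, (2 * i + 1) % 2 = 1 := fun i => by omega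
  have hodd2 : ∀ i : ℕ, (2 * i + 1) / 2 = i := fun i => by omega
  have hP : Lim u (t ∘ φ) (x ∘ φ) (fun i => B (2 * i + 1)) :=
    { tt := ht.comp hφ.tendsto_atTop
      mem := fun j y => hB01 _ y
      cont := fun j => hBc _
      lim := fun j y => by
        have := hBl (2 * j + 1) y
        simpa [ha, hodd, hodd2] using this }
  have hone : ∀ j, ∃ e : E N, ‖e‖ = 1 ∧ ∀ h : E N, inner ℝ h e = 0 →
      ∀ y, B (2 * j + 1) (y + h) = B (2 * j + 1) y := by
    intro j
    refine OneDimC2.invariant (hp _ ⟨?_, fun n => t (φ n) - (j : ℝ), fun n => x (φ n), ?_, ?_⟩)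
      (hBc _)
    · refine memLp_top_of_bound (hBc _).aestronglyMeasurable 1 (Eventually.of_forall fun y => ?_)
      rw [Real.norm_eq_abs, abs_of_nonneg (hB01 _ y).1]
      exact (hB01 _ y).2
    · exact tendsto_atTop_add_const_right _ _ (ht.comp hφ.tendsto_atTop)
    · intro R
      have := hBe (2 * j + 1) R
      simpa [ha, hodd, hodd2] using this
  obtain ⟨e, he, hinv⟩ := common_direction hM hu hP hone
  have hψA : ψ =ᵐ[volume] B 0 := by
    filter_upwards [hae] with y hy
    have h1 := hA.lim 0 y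
    simp only [Nat.cast_zero, sub_zero, Function.comp_apply, mul_zero] at h1
    exact tendsto_nhds_unique (hy.comp hφ.tendsto_atTop) h1
  by_cases hex : ∃ y0, 0 < B 0 y0
  · obtain ⟨y0, hy0⟩ := hex
    have key : ∀ h : E N, inner ℝ h e = 0 → ∀ y, B 0 y ≤ B 0 (y + h) := by
      intro h hh y
      exact planar_limit hM hu hu' hpos hpos' hη0 c1 c2 hP hA (h := h)
        (fun j y => hinv h hh j y) (y0 := y0) hy0 0 y
    have key2 : ∀ h : E N, inner ℝ h e = 0 → ∀ y, B 0 (y + h) = B 0 y := by
      intro h hh y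
      apply le_antisymm
      · have := key (-h) (by rw [inner_neg_left, hh, neg_zero]) (y + h)
        rwa [add_neg_cancel_right] at this
      · exact key h hh y
    refine ⟨e, he, fun z => B 0 (z • e), ?_, ?_⟩
    · refine limit_contDiff hf hu' (ht.comp hφ.tendsto_atTop) (x := x ∘ φ) (φ1 := B 2)
        (φ0 := B 0) ?_ ?_ e
      · intro y
        have := hA.lim 1 y
        simpa using this
      · intro y
        have := hA.lim 0 y
        simpa using this
    · refine hψA.trans (Eventually.of_forall fun y => ?_)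
      have h1 := key2 (y - (inner ℝ y e) • e) (by
        rw [inner_sub_left, inner_smul_left, real_inner_self_eq_norm_sq, he]; simp)
        ((inner ℝ y e) • e)
      rw [add_sub_cancel] at h1
      exact h1
  · apply hzero
    push Not at hex
    filter_upwards [hψA] with y hy
    rw [hy]
    exact le_antisymm (hex y) (hB01 _ y).1

end

end Pool.Agent.T2H75.FK
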