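import Pool.Agent.T2H75.FK.Ini

set_option autoImplicit false

/-!
Package G: condition (H) and finite Hausdorff distance give a uniform lower bound `u'(1,·) ≥ η` on
`U`.
-/

open MeasureTheory Set Filter Topology
open scoped ENNReal InnerProductSpace Laplacian

namespace Pool.Agent.T2H75.FK

open Pool.Agent.X297.KP

noncomputable section

variable {N : ℕ}

theorem heatP_ball {t : ℝ} (ht : 0 < t) {U : Set (E N)} (hU : MeasurableSet U) {x y : E N}
    {δ D c : ℝ} (hy : Metric.ball y δ ⊆ U) (hxy : dist x y ≤ D)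
    (hc : ∀ z : E N, ‖z‖ ≤ D + δ → c ≤ heatK t z) :
    c * volume.real (Metric.ball (0 : E N) δ) ≤ heatP t (U.indicator 1) x := by
  have hI : Integrable fun z => heatK t (x - z) * U.indicator 1 z := by
    refine int_bdd_mul ht x (measurable_one.indicator hU) (C := 1) fun z => ?_
    by_cases hz : z ∈ U
    · rw [indicator_of_mem hz]; simp
    · rw [indicator_of_notMem hz]; simp
  have h0 : ∀ z, 0 ≤ heatK t (x - z) * U.indicator 1 z := fun z =>
    mul_nonneg (heatK_nonneg ht _) (indicator_nonneg (fun _ _ => zero_le_one) z)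
  rw [← Measure.addHaar_real_ball_center volume y δ]
  unfold heatP
  refine le_trans ?_ (setIntegral_le_integral (s := Metric.ball y δ) hI
    (Eventually.of_forall h0))
  refine setIntegral_ge_of_const_le_real measurableSet_ball measure_ball_lt_top.ne ?_ hI.integrableOn
  intro z hz
  rw [indicator_of_mem (hy hz), Pi.one_apply, mul_one]
  refine hc _ ?_
  rw [← dist_eq_norm]
  refine (dist_triangle x y z).trans (add_le_add hxy ?_)
  rw [dist_comm]
  exact (Metric.mem_ball.1 hz).le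

theorem preconn_frontier {s U : Set (E N)} (hs : IsPreconnected s) (h1 : (s ∩ U).Nonempty)
    (h2 : (s ∩ Uᶜ).Nonempty) : (s ∩ frontier U).Nonempty := by
  by_contra h
  rw [not_nonempty_iff_eq_empty] at h
  have hsub : s ⊆ interior U ∪ interior Uᶜ := by
    rw [← compl_frontier_eq_union_interior]
    intro x hx hxf
    have : x ∈ s ∩ frontier U := ⟨hx, hxf⟩
    rw [h] at this
    exact this
  obtain ⟨a, ha, haU⟩ := h1
  obtain ⟨b, hb, hbU⟩ := h2
  have ha' : a ∈ interior U := by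
    rcases hsub ha with h3 | h3
    · exact h3
    · exact absurd haU (interior_subset h3)
  have hb' : b ∈ interior Uᶜ := by
    rcases hsub hb with h3 | h3
    · exact absurd (interior_subset h3) hbU
    · exact h3
  obtain ⟨w, -, hw1, hw2⟩ := hs _ _ isOpen_interior isOpen_interior hsub ⟨a, ha, ha'⟩ ⟨b, hb, hb'⟩
  exact (interior_subset hw2) (interior_subset hw1)

/-- Every point of `U` is at bounded distance from the centre of a `δ`-ball contained in `U'`. -/
theorem ball_of_cond {U U' : Set (E N)} (h' : CondH U')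
    (hd : Metric.hausdorffEDist U U' < ⊤) :
    ∃ δ : ℝ, 0 < δ ∧ ∃ D : ℝ, ∀ x ∈ U, ∃ y, dist x y ≤ D ∧ Metric.ball y δ ⊆ U' := by
  obtain ⟨δ, hδ, h1⟩ := h'
  obtain ⟨r, hr, -⟩ := ENNReal.lt_iff_exists_nnreal_btwn.1 hd
  obtain ⟨s, hs, -⟩ := ENNReal.lt_iff_exists_nnreal_btwn.1 h1
  refine ⟨δ, hδ, r + s, fun x hx => ?_⟩
  obtain ⟨y', hy', h2⟩ := Metric.exists_edist_lt_of_hausdorffEDist_lt hx hr
  obtain ⟨y, hy, h3⟩ := Metric.exists_edist_lt_of_hausdorffEDist_lt hy' hs
  refine ⟨y, ?_, ?_⟩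
  · have h4 : dist x y' ≤ r := by
      rw [edist_nndist] at h2
      have := ENNReal.coe_lt_coe.1 h2
      rw [← coe_nndist]; exact_mod_cast this.le
    have h5 : dist y' y ≤ s := by
      rw [edist_nndist] at h3
      have := ENNReal.coe_lt_coe.1 h3
      rw [← coe_nndist]; exact_mod_cast this.le
    exact (dist_triangle x y' y).trans (add_le_add h4 h5)
  · intro z hz
    by_contra hzU
    have hpc : IsPreconnected (Metric.ball y δ) := (convex_ball y δ).isPreconnected
    obtain ⟨w, hw1, hw2⟩ : (Metric.ball y δ ∩ frontier U').Nonempty :=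
      preconn_frontier hpc ⟨y, Metric.mem_ball_self hδ, hy.1⟩ ⟨z, hz, hzU⟩
    have h4 : ENNReal.ofReal δ ≤ edist y w := hy.2.trans (Metric.infEDist_le_edist_of_mem hw2)
    rw [edist_dist] at h4
    have h5 : δ ≤ dist y w := (ENNReal.ofReal_le_ofReal_iff dist_nonneg).1 h4
    rw [Metric.mem_ball, dist_comm] at hw1
    linarith

theorem vol_pos {δ : ℝ} (hδ : 0 < δ) : 0 < volume.real (Metric.ball (0 : E N) δ) := by
  rw [Measure.real]
  exact ENNReal.toReal_pos (Metric.measure_ball_pos _ _ hδ).ne' measure_ball_lt_top.ne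

/-- `u'(1,·) ≥ η > 0` on `U` (from `lower_init`, `heatK_ge` and `ball_of_cond`). -/
theorem exists_eta {f : ℝ → ℝ} {M : ℝ} (hf : NL f M) {U U' : Set (E N)}
    (hU' : MeasurableSet U') (h' : CondH U') (hd : Metric.hausdorffEDist U U' < ⊤)
    {u' : ℝ → E N → ℝ} (hu' : IsClassicalSolution f U' u') :
    ∃ η : ℝ, 0 < η ∧ η ≤ 1 ∧ ∀ x ∈ U, η ≤ u' 1 x := by
  obtain ⟨δ, hδ, D, h1⟩ := ball_of_cond h' hd
  obtain ⟨c, hc, h2⟩ := heatK_ge (N := N) one_pos (D + δ)
  refine ⟨min 1 (c * volume.real (Metric.ball (0 : E N) δ)),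
    lt_min one_pos (mul_pos hc (vol_pos hδ)), min_le_left _ _, fun x hx => ?_⟩
  obtain ⟨y, h3, h4⟩ := h1 x hx
  exact (min_le_right _ _).trans ((heatP_ball one_pos hU' h4 h3 h2).trans
    (lower_init hf hU' hu' one_pos x))

/-- Positivity when `U` is nonempty and satisfies (H). -/
theorem pos_of_nonempty {f : ℝ → ℝ} {M : ℝ} (hf : NL f M) {U : Set (E N)}
    (hU : MeasurableSet U) (h : CondH U) (hne : U.Nonempty) {u : ℝ → E N → ℝ}
    (hu : IsClassicalSolution f U u) : ∀ t, 0 < t → ∀ x, 0 < u t x := by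
  intro t ht x
  obtain ⟨δ, hδ, D, h1⟩ := ball_of_cond h (by rw [Metric.hausdorffEDist_self]; exact ENNReal.zero_lt_top)
  obtain ⟨x₀, hx₀⟩ := hne
  obtain ⟨y, -, h4⟩ := h1 x₀ hx₀
  obtain ⟨c, hc, h2⟩ := heatK_ge (N := N) ht (dist x y + δ)
  exact lt_of_lt_of_le (mul_pos hc (vol_pos hδ)) ((heatP_ball ht hU h4 le_rfl h2).trans
    (lower_init hf hU hu ht x))

end

end Pool.Agent.T2H75.FK
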