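import Pool.Agent.T2H75.FK.Cmp2

set_option autoImplicit false

/-!
Package I: classical solutions with initial datum `1_U`.
-/

open MeasureTheory Set Filter Topology
open scoped ENNReal InnerProductSpace Laplacian

namespace Pool.Agent.T2H75.FK

open Pool.Agent.X297.KP

noncomputable section

variable {N : ℕ}

/-- A Fisher-KPP nonlinearity has the properties `NL` (`κ f(s) ≤ f(κ s)` because `f(s)/s` is
nonincreasing). -/
theorem IsFisherKPP.nl {f : ℝ → ℝ} (hf : IsFisherKPP f) : ∃ M, NL f M := by
  have hc : ContinuousOn (derivWithin f (Icc 0 1)) (Icc 0 1) :=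
    hf.contDiff.continuousOn_derivWithin (uniqueDiffOn_Icc zero_lt_one) le_rfl
  obtain ⟨C, hC⟩ := (isCompact_Icc (a := (0:ℝ)) (b := 1)).exists_bound_of_continuousOn hc
  have hnn : ∀ s ∈ Icc (0:ℝ) 1, 0 ≤ f s := by
    intro s hs
    rcases eq_or_lt_of_le hs.1 with h | h
    · rw [← h, hf.zero]
    · rcases eq_or_lt_of_le hs.2 with h' | h'
      · rw [h', hf.one]
      · exact (hf.pos s ⟨h, h'⟩).le
  refine ⟨max C 0, le_max_right _ _, hf.contDiff.continuousOn, fun a ha b hb => ?_, hf.zero,
    hnn, ?_⟩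
  · have := (convex_Icc (0:ℝ) 1).norm_image_sub_le_of_norm_derivWithin_le (𝕜 := ℝ) (f := f)
      (C := max C 0) (hf.contDiff.differentiableOn one_ne_zero)
      (fun x hx => (hC x hx).trans (le_max_left _ _)) hb ha
    simpa [Real.norm_eq_abs] using this
  · intro κ hκ s hs
    rcases eq_or_lt_of_le hκ.1 with h | h
    · rw [← h]
      simp [hf.zero]
    rcases eq_or_lt_of_le hs.1 with h' | h'
    · rw [← h']
      simp [hf.zero]
    have h1 : κ * s ∈ Ioc (0:ℝ) 1 := ⟨by positivity, mul_le_one₀ hκ.2 hs.1 hs.2⟩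
    have h2 : κ * s ≤ s := mul_le_of_le_one_left hs.1 hκ.2
    have h3 := hf.anti h1 ⟨h', hs.2⟩ h2
    simp only at h3
    rw [div_le_div_iff₀ h' h1.1] at h3
    have h4 : s * (κ * f s) ≤ s * f (κ * s) := by nlinarith
    exact le_of_mul_le_mul_left h4 h'

theorem IsClassicalSolution.reg {f : ℝ → ℝ} {U : Set (E N)} {u : ℝ → E N → ℝ}
    (hu : IsClassicalSolution f U u) {s t : ℝ} (hs : 0 < s) :
    Reg u (fun r y => deriv (fun r => u r y) r) s t := by
  have hopen : IsOpen (Ioi (0:ℝ) ×ˢ (univ : Set (E N))) := isOpen_Ioi.prod isOpen_univ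
  set F : ℝ × E N → ℝ := fun p => u p.1 p.2 with hF
  have hd : ∀ r, 0 < r → ∀ y, HasDerivAt (fun r => u r y) (fderiv ℝ F (r, y) (1, 0)) r := by
    intro r hr y
    have h1 : (Ioi (0:ℝ) ×ˢ (univ : Set (E N))) ∈ 𝓝 (r, y) :=
      hopen.mem_nhds ⟨hr, mem_univ _⟩
    have h2 : HasFDerivAt F (fderiv ℝ F (r, y)) (r, y) :=
      ((hu.contDiff_one.contDiffAt h1).differentiableAt (by norm_num)).hasFDerivAt
    have h3 : HasDerivAt (fun s : ℝ => (s, y)) ((1:ℝ), (0 : E N)) r :=
      (hasDerivAt_id r).prodMk (hasDerivAt_const r y)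
    exact HasFDerivAt.comp_hasDerivAt (f := fun s : ℝ => (s, y)) r h2 h3
  refine ⟨?_, ?_, ?_, ?_⟩
  · exact hu.contDiff_one.continuousOn.mono (prod_mono (fun r hr => lt_of_lt_of_le hs hr.1) le_rfl)
  · intro r hr y
    have h := hd r (hs.trans hr.1) y
    rw [h.deriv]
    exact h
  · have h2 : ContinuousOn (fderiv ℝ F) (Ioi (0:ℝ) ×ˢ univ) :=
      hu.contDiff_one.continuousOn_fderiv_of_isOpen hopen le_rfl
    have h3 : ContinuousOn (fun p : ℝ × E N => fderiv ℝ F p (1, 0)) (Ioo s t ×ˢ univ) :=
      (h2.mono (prod_mono (fun r hr => hs.trans hr.1) le_rfl)).clm_apply continuousOn_const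
    refine h3.congr ?_
    rintro ⟨r, y⟩ hr
    exact (hd r (hs.trans hr.1.1) y).deriv
  · intro r hr
    exact hu.contDiff_two r (hs.trans hr.1)

/-- Auxiliary: convergence of `G_{t-s} * |w_s|` from convergence in `L¹_loc` (use
`heatK_le_two`, split the integral at a large ball). -/
theorem heatP_init {w : ℝ → E N → ℝ} (hm : ∀ s, 0 < s → Measurable (w s))
    (hw : ∀ s, 0 < s → ∀ y, |w s y| ≤ 1)
    (h0 : ∀ R : ℝ, Tendsto (fun s => ∫ y in Metric.ball (0 : E N) R, |w s y|) (𝓝[>] 0) (𝓝 0))
    {t : ℝ} (ht : 0 < t) (x : E N) :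
    Tendsto (fun s => heatP (t - s) (fun y => |w s y|) x) (𝓝[>] 0) (𝓝 0) := by
  set Cn : ℝ := 2 ^ ((N : ℝ) / 2) with hCn
  have hCn0 : 0 < Cn := by positivity
  have hKint := heatK_integrable' (N := N) ht x
  -- an upper bound of the kernel
  obtain ⟨S, hS⟩ : ∃ S : ℝ, ∀ z : E N, heatK t z ≤ S := by
    refine ⟨(4 * Real.pi * t) ^ (-((N : ℝ) / 2)), fun z => ?_⟩
    unfold heatK
    have h1 : 0 ≤ (4 * Real.pi * t) ^ (-((N : ℝ) / 2)) := by positivity
    have h2 : Real.exp (-(‖z‖ ^ 2 / (4 * t))) ≤ 1 := by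
      rw [Real.exp_le_one_iff]
      have : 0 ≤ ‖z‖ ^ 2 / (4 * t) := by positivity
      linarith
    exact mul_le_of_le_one_right h1 h2
  have hS0 : 0 ≤ S := (heatK_nonneg ht (0 : E N)).trans (hS 0)
  rw [Metric.tendsto_nhds]
  intro ε hε
  -- tail
  have htail : Tendsto (fun R : ℝ => ∫ y in (Metric.ball (0 : E N) R)ᶜ, heatK t (x - y)) atTop
      (𝓝 0) := by
    have h1 : Tendsto (fun R : ℝ => ∫ y in Metric.ball (0 : E N) R, heatK t (x - y)) atTop
        (𝓝 (∫ y, heatK t (x - y))) := by
      have h2 : Tendsto (fun R : ℝ => ∫ y, (Metric.ball (0 : E N) R).indicator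
          (fun y => heatK t (x - y)) y) atTop (𝓝 (∫ y, heatK t (x - y))) := by
        apply tendsto_integral_filter_of_dominated_convergence (fun y => ‖heatK t (x - y)‖)
        · exact Eventually.of_forall fun R =>
            hKint.aestronglyMeasurable.indicator Metric.isOpen_ball.measurableSet
        · exact Eventually.of_forall fun R => Eventually.of_forall fun y =>
            norm_indicator_le_norm_self _ _
        · exact hKint.norm
        · refine Eventually.of_forall fun y => ?_
          refine Tendsto.congr' ?_ tendsto_const_nhds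
          filter_upwards [eventually_gt_atTop ‖y‖] with R hR
          rw [indicator_of_mem]
          simpa using hR
      refine h2.congr fun R => ?_
      rw [integral_indicator Metric.isOpen_ball.measurableSet]
    have h3 : ∀ R : ℝ, ∫ y in (Metric.ball (0 : E N) R)ᶜ, heatK t (x - y) =
        (∫ y, heatK t (x - y)) - ∫ y in Metric.ball (0 : E N) R, heatK t (x - y) := by
      intro R
      have := integral_add_compl (Metric.isOpen_ball (x := (0 : E N)) (ε := R)).measurableSet hKint
      linarith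
    simp only [h3]
    have h4 := (tendsto_const_nhds (x := ∫ y, heatK t (x - y))).sub h1
    rwa [sub_self] at h4
  obtain ⟨R, hR⟩ := ((Metric.tendsto_nhds.mp htail) (ε / (2 * Cn)) (by positivity)).exists
  rw [Real.dist_eq, sub_zero, abs_of_nonneg
    (setIntegral_nonneg Metric.isOpen_ball.measurableSet.compl
      fun y _ => heatK_nonneg ht _)] at hR
  have hball := (Metric.tendsto_nhds.mp (h0 R)) (ε / (2 * Cn * (S + 1))) (by positivity)
  have hpos : ∀ᶠ s in 𝓝[>] (0:ℝ), 0 < s := eventually_mem_nhdsWithin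
  have hsmall : ∀ᶠ s in 𝓝[>] (0:ℝ), s < t / 2 :=
    mem_nhdsWithin_of_mem_nhds (Iio_mem_nhds (by positivity))
  filter_upwards [hball, hpos, hsmall] with s hs1 hs2 hs3
  have hts : 0 < t - s := by linarith
  have hwm : Measurable (fun y => |w s y|) := (hm s hs2).abs
  have hint1 : Integrable (fun y => heatK t (x - y) * |w s y|) :=
    int_bdd_mul ht x hwm (C := 1) (fun y => by rw [abs_abs]; exact hw s hs2 y)
  have hint2 : Integrable (fun y => heatK (t - s) (x - y) * |w s y|) :=
    int_bdd_mul hts x hwm (C := 1) (fun y => by rw [abs_abs]; exact hw s hs2 y)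
  rw [Real.dist_eq, sub_zero, abs_of_nonneg (heatP_nonneg hts (fun y => abs_nonneg _) x)]
  rw [Real.dist_eq, sub_zero, abs_of_nonneg (setIntegral_nonneg
    Metric.isOpen_ball.measurableSet fun y _ => abs_nonneg _)] at hs1
  have hloc : IntegrableOn (fun y => |w s y|) (Metric.ball (0 : E N) R) := by
    apply Measure.integrableOn_of_bounded (M := 1) measure_ball_lt_top.ne
      hwm.aestronglyMeasurable
    refine Eventually.of_forall fun y => ?_
    rw [Real.norm_eq_abs, abs_abs]
    exact hw s hs2 y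
  calc heatP (t - s) (fun y => |w s y|) x
      ≤ ∫ y, Cn * (heatK t (x - y) * |w s y|) := by
        unfold heatP
        apply integral_mono hint2 (hint1.const_mul _)
        intro y
        simp only
        rw [← mul_assoc]
        exact mul_le_mul_of_nonneg_right (heatK_le_two ht (by linarith) (by linarith) _)
          (abs_nonneg _)
    _ = Cn * ((∫ y in Metric.ball (0 : E N) R, heatK t (x - y) * |w s y|) +
          ∫ y in (Metric.ball (0 : E N) R)ᶜ, heatK t (x - y) * |w s y|) := by
        rw [integral_const_mul, integral_add_compl Metric.isOpen_ball.measurableSet hint1]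
    _ ≤ Cn * ((∫ y in Metric.ball (0 : E N) R, S * |w s y|) +
          ∫ y in (Metric.ball (0 : E N) R)ᶜ, heatK t (x - y)) := by
        apply mul_le_mul_of_nonneg_left _ hCn0.le
        apply add_le_add
        · apply setIntegral_mono hint1.integrableOn (hloc.const_mul S)
          intro y
          exact mul_le_mul_of_nonneg_right (hS _) (abs_nonneg _)
        · apply setIntegral_mono hint1.integrableOn hKint.integrableOn
          intro y
          exact mul_le_of_le_one_right (heatK_nonneg ht _) (hw s hs2 y)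
    _ = Cn * (S * (∫ y in Metric.ball (0 : E N) R, |w s y|)) +
          Cn * ∫ y in (Metric.ball (0 : E N) R)ᶜ, heatK t (x - y) := by
        rw [integral_const_mul]
        ring
    _ < ε / 2 + ε / 2 := by
        apply add_lt_add_of_le_of_lt
        · have h5 : S * (∫ y in Metric.ball (0 : E N) R, |w s y|) ≤
              (S + 1) * (ε / (2 * Cn * (S + 1))) := by
            apply mul_le_mul (by linarith) hs1.le _ (by linarith)
            exact setIntegral_nonneg Metric.isOpen_ball.measurableSet fun y _ => abs_nonneg _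
          calc Cn * (S * (∫ y in Metric.ball (0 : E N) R, |w s y|))
              ≤ Cn * ((S + 1) * (ε / (2 * Cn * (S + 1)))) :=
                mul_le_mul_of_nonneg_left h5 hCn0.le
            _ = ε / 2 := by field_simp
        · calc Cn * ∫ y in (Metric.ball (0 : E N) R)ᶜ, heatK t (x - y)
              < Cn * (ε / (2 * Cn)) := mul_lt_mul_of_pos_left hR hCn0
            _ = ε / 2 := by field_simp
    _ = ε := by ring

theorem ind_meas' {U : Set (E N)} (hU : MeasurableSet U) :
    Measurable (U.indicator (1 : E N → ℝ)) := measurable_one.indicator hU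

theorem ind_le {U : Set (E N)} (y : E N) : |U.indicator (1 : E N → ℝ) y| ≤ 1 := by
  by_cases hy : y ∈ U <;> simp [hy]

/-- Continuity of the heat semigroup in time, for a bounded function. -/
theorem heatP_time {φ : E N → ℝ} (hφ : Measurable φ) (hB : ∀ y, |φ y| ≤ 1) {t : ℝ}
    (ht : 0 < t) (x : E N) :
    Tendsto (fun s => heatP (t - s) φ x) (𝓝[>] 0) (𝓝 (heatP t φ x)) := by
  have hKint := heatK_integrable' (N := N) ht x
  unfold heatP
  have hsmall : ∀ᶠ s in 𝓝[>] (0:ℝ), s < t / 2 :=
    mem_nhdsWithin_of_mem_nhds (Iio_mem_nhds (by positivity))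
  have hpos : ∀ᶠ s in 𝓝[>] (0:ℝ), 0 < s := eventually_mem_nhdsWithin
  apply tendsto_integral_filter_of_dominated_convergence
    (fun y => 2 ^ ((N : ℝ) / 2) * heatK t (x - y))
  · filter_upwards [hsmall] with s hs
    exact (int_bdd_mul (by linarith) x hφ hB).aestronglyMeasurable
  · filter_upwards [hsmall, hpos] with s hs hs'
    refine Eventually.of_forall fun y => ?_
    rw [norm_mul, Real.norm_eq_abs, Real.norm_eq_abs,
      abs_of_nonneg (heatK_nonneg (by linarith) _)]
    calc heatK (t - s) (x - y) * |φ y| ≤ heatK (t - s) (x - y) * 1 :=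
          mul_le_mul_of_nonneg_left (hB y) (heatK_nonneg (by linarith) _)
      _ ≤ _ := by
        rw [mul_one]
        exact heatK_le_two ht (by linarith) (by linarith) _
  · exact hKint.const_mul _
  · refine Eventually.of_forall fun y => ?_
    apply Tendsto.mul_const
    have h1 : ContinuousAt (fun τ : ℝ => heatK τ (x - y)) t := by
      unfold heatK
      have h2 : (4 * Real.pi * t) ≠ 0 := by positivity
      have h3 : (4 * t) ≠ 0 := by positivity
      apply ContinuousAt.mul
      · exact ContinuousAt.rpow_const (by fun_prop) (Or.inl h2)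
      · apply Real.continuous_exp.continuousAt.comp
        apply ContinuousAt.neg
        exact ContinuousAt.div continuousAt_const (by fun_prop) h3
    have h4 : Tendsto (fun s : ℝ => t - s) (𝓝[>] 0) (𝓝 t) := by
      have : Tendsto (fun s : ℝ => t - s) (𝓝 0) (𝓝 (t - 0)) := by
        apply Continuous.tendsto; fun_prop
      rw [sub_zero] at this
      exact this.mono_left nhdsWithin_le_nhds
    exact h1.tendsto.comp h4

/-- `G_{t-s} * u(s) → G_t * 1_U`. -/
theorem heatP_u_init {f : ℝ → ℝ} {U : Set (E N)} (hU : MeasurableSet U)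
    {u : ℝ → E N → ℝ} (hu : IsClassicalSolution f U u) {t : ℝ} (ht : 0 < t) (x : E N) :
    Tendsto (fun s => heatP (t - s) (u s) x) (𝓝[>] 0) (𝓝 (heatP t (U.indicator 1) x)) := by
  have hum : ∀ s, 0 < s → Measurable (u s) := fun s hs =>
    (hu.contDiff_two s hs).continuous.measurable
  have hdm : ∀ s, 0 < s → Measurable (fun y => u s y - U.indicator (1 : E N → ℝ) y) :=
    fun s hs => (hum s hs).sub (ind_meas' hU)
  have hd1 : ∀ s, 0 < s → ∀ y, |u s y - U.indicator (1 : E N → ℝ) y| ≤ 1 := by
    intro s hs y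
    have h1 := hu.range s hs y
    by_cases hy : y ∈ U
    · simp only [hy, indicator_of_mem, Pi.one_apply]
      rw [abs_le]; constructor <;> linarith [h1.1, h1.2]
    · simp only [hy, indicator_of_notMem, not_false_eq_true, sub_zero]
      rw [abs_of_nonneg h1.1]; exact h1.2
  have h1 := heatP_init (w := fun s y => u s y - U.indicator (1 : E N → ℝ) y) hdm hd1 hu.initial
    ht x
  have h2 := heatP_time (ind_meas' hU) ind_le ht x
  have hsmall : ∀ᶠ s in 𝓝[>] (0:ℝ), s < t / 2 :=
    mem_nhdsWithin_of_mem_nhds (Iio_mem_nhds (by positivity))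
  have hpos : ∀ᶠ s in 𝓝[>] (0:ℝ), 0 < s := eventually_mem_nhdsWithin
  have h3 : Tendsto (fun s => heatP (t - s) (u s) x - heatP (t - s) (U.indicator 1) x) (𝓝[>] 0)
      (𝓝 0) := by
    apply squeeze_zero_norm' _ h1
    filter_upwards [hsmall, hpos] with s hs hs'
    have hts : 0 < t - s := by linarith
    have hu1 : ∀ y, |u s y| ≤ 1 := fun y => by
      rw [abs_of_nonneg (hu.range s hs' y).1]; exact (hu.range s hs' y).2
    unfold heatP
    rw [← integral_sub (int_bdd_mul hts x (hum s hs') hu1)
      (int_bdd_mul hts x (ind_meas' hU) ind_le)]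
    refine (norm_integral_le_integral_norm _).trans (le_of_eq ?_)
    congr 1
    funext y
    rw [← mul_sub, norm_mul, Real.norm_eq_abs, Real.norm_eq_abs,
      abs_of_nonneg (heatK_nonneg hts _)]
  have h4 := h3.add h2
  simpa using h4

/-- `G_t * 1_U ≤ u(t)`: let `s → 0` in `lower_lin`. -/
theorem lower_init {f : ℝ → ℝ} {M : ℝ} (hf : NL f M) {U : Set (E N)} (hU : MeasurableSet U)
    {u : ℝ → E N → ℝ} (hu : IsClassicalSolution f U u) {t : ℝ} (ht : 0 < t) (x : E N) :
    heatP t (U.indicator 1) x ≤ u t x := by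
  refine le_of_tendsto (heatP_u_init hU hu ht x) ?_
  have hsmall : ∀ᶠ s in 𝓝[>] (0:ℝ), s < t / 2 :=
    mem_nhdsWithin_of_mem_nhds (Iio_mem_nhds (by positivity))
  have hpos : ∀ᶠ s in 𝓝[>] (0:ℝ), 0 < s := eventually_mem_nhdsWithin
  filter_upwards [hsmall, hpos] with s hs hs'
  exact lower_lin hf (by linarith) (hu.reg hs')
    (fun r hr y => hu.range r (lt_of_lt_of_le hs' hr.1) y)
    (fun r hr y => (hu.eq r (hs'.trans hr.1) y).ge) x

/-- `u(t) ≤ e^{Mt} G_t * 1_U`: let `s → 0` in `upper_lin`. -/
theorem upper_init {f : ℝ → ℝ} {M : ℝ} (hf : NL f M) {U : Set (E N)} (hU : MeasurableSet U)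
    {u : ℝ → E N → ℝ} (hu : IsClassicalSolution f U u) {t : ℝ} (ht : 0 < t) (x : E N) :
    u t x ≤ Real.exp (M * t) * heatP t (U.indicator 1) x := by
  refine ge_of_tendsto ((heatP_u_init hU hu ht x).const_mul (Real.exp (M * t))) ?_
  have hsmall : ∀ᶠ s in 𝓝[>] (0:ℝ), s < t / 2 :=
    mem_nhdsWithin_of_mem_nhds (Iio_mem_nhds (by positivity))
  have hpos : ∀ᶠ s in 𝓝[>] (0:ℝ), 0 < s := eventually_mem_nhdsWithin
  filter_upwards [hsmall, hpos] with s hs hs'
  refine (upper_lin hf (s := s) (by linarith) (hu.reg hs')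
    (fun r hr y => hu.range r (lt_of_lt_of_le hs' hr.1) y)
    (fun r hr y => (hu.eq r (hs'.trans hr.1) y).le) x).trans ?_
  apply mul_le_mul_of_nonneg_right
  · apply Real.exp_le_exp.mpr
    have := hf.M0
    nlinarith
  · exact heatP_nonneg (by linarith) (fun y => (hu.range s hs' y).1) x

end

end Pool.Agent.T2H75.FK
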