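import Pool.Agent.T2H75.FK.Ini

set_option autoImplicit false

/-!
Package W: a Harnack inequality of Wang type for the Fisher-KPP equation.

`wang`: put `η = y/(t-s)`, `κ = (p-1)M + p|η|²/(4(p-1))` and, for `r ∈ [s,t]`,
`v(r,z) = u(r, z+(r-s)η)^p e^{-κ(r-s)}`.  At the point `q = (r, z+(r-s)η)`,
`v_t = [p u^{p-1} (u_t + η·∇u)] e^{-κ(r-s)} - κ v`,
`Δv = [p u^{p-1} Δu + p(p-1) u^{p-2} |∇u|²] e^{-κ(r-s)}`, so
`v_t - Δv = e^{-κ(r-s)} [p u^{p-1} f(u) + p u^{p-1} η·∇u - p(p-1) u^{p-2} |∇u|²] - κ v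
 ≤ v [p f(u)/u + p|η|²/(4(p-1)) - κ] = v [p f(u)/u - (p-1) M] ≤ v f(u)/u ≤ f(v)`
(the last two steps: `f(u)/u ≤ M`; `v ≤ u^p ≤ u` and `NL.sub` with `κ := v/u`).  Since
`v(s) = u(s)^p ≤ u(s)`, `compare` gives `v(t) ≤ u(t)`.
-/

open MeasureTheory Set Filter Topology
open scoped ENNReal InnerProductSpace Laplacian

namespace Pool.Agent.T2H75.FK

open Pool.Agent.X297.KP

noncomputable section

variable {N : ℕ}

/-- The function `(t,x) ↦ u(t,x)`. -/
def unc (u : ℝ → E N → ℝ) : ℝ × E N → ℝ := fun p => u p.1 p.2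

/-- Sum of the squares of the partial derivatives. -/
def gsq (φ : E N → ℝ) (z : E N) : ℝ :=
  ∑ i, (fderiv ℝ φ z (EuclideanSpace.basisFun (Fin N) ℝ i)) ^ 2

theorem laplacian_rpow {φ : E N → ℝ} (hφ : ContDiff ℝ 2 φ) (hpos : ∀ z, 0 < φ z) (p : ℝ)
    (z : E N) :
    Δ (fun z => φ z ^ p) z =
      p * φ z ^ (p - 1) * Δ φ z + p * (p - 1) * φ z ^ (p - 2) * gsq φ z := by
  have hd : Differentiable ℝ φ := hφ.differentiable (by norm_num)
  have hd1 : Differentiable ℝ (fderiv ℝ φ) :=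
    (hφ.fderiv_right (m := 1) (by norm_num)).differentiable (by norm_num)
  have h1 : fderiv ℝ (fun z => φ z ^ p) = fun z => (p * φ z ^ (p - 1)) • fderiv ℝ φ z := by
    funext w
    exact ((hd w).hasFDerivAt.rpow_const (Or.inl (hpos w).ne')).fderiv
  rw [InnerProductSpace.laplacian_eq_iteratedFDeriv_orthonormalBasis _
      (EuclideanSpace.basisFun (Fin N) ℝ),
    InnerProductSpace.laplacian_eq_iteratedFDeriv_orthonormalBasis _
      (EuclideanSpace.basisFun (Fin N) ℝ)]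
  simp only [iteratedFDeriv_two_apply, Matrix.cons_val_zero, Matrix.cons_val_one]
  rw [gsq, Finset.mul_sum, Finset.mul_sum, ← Finset.sum_add_distrib]
  refine Finset.sum_congr rfl (fun i _ => ?_)
  rw [h1]
  have h2 : HasFDerivAt (fun z => p * φ z ^ (p - 1))
      (p • (((p - 1) * φ z ^ (p - 1 - 1)) • fderiv ℝ φ z)) z :=
    (((hd z).hasFDerivAt.rpow_const (Or.inl (hpos z).ne')).const_mul p)
  have h3 := (h2.fun_smul (hd1 z).hasFDerivAt).fderiv
  rw [h3]
  simp only [_root_.add_apply, _root_.smul_apply,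
    ContinuousLinearMap.smulRight_apply, smul_eq_mul]
  rw [show p - 1 - 1 = p - 2 by ring]
  ring

theorem fderiv_le_gsq (φ : E N → ℝ) (z w : E N) :
    (fderiv ℝ φ z w) ^ 2 ≤ ‖w‖ ^ 2 * gsq φ z := by
  have h1 : w = ∑ i, (w i) • (EuclideanSpace.basisFun (Fin N) ℝ i) := by
    have := (EuclideanSpace.basisFun (Fin N) ℝ).sum_repr w
    simpa using this.symm
  have h2 : fderiv ℝ φ z w = ∑ i, w i * fderiv ℝ φ z (EuclideanSpace.basisFun (Fin N) ℝ i) := by
    conv_lhs => rw [h1]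
    rw [map_sum]
    refine Finset.sum_congr rfl (fun i _ => ?_)
    rw [map_smul, smul_eq_mul]
  rw [h2, gsq, EuclideanSpace.real_norm_sq_eq]
  exact Finset.sum_mul_sq_le_sq_mul_sq _ _ _

theorem joint_diff {f : ℝ → ℝ} {U : Set (E N)} {u : ℝ → E N → ℝ}
    (hu : IsClassicalSolution f U u) {r : ℝ} (hr : 0 < r) (y : E N) :
    HasFDerivAt (unc u) (fderiv ℝ (unc u) (r, y)) (r, y) := by
  have h1 : (Ioi (0:ℝ) ×ˢ (univ : Set (E N))) ∈ 𝓝 (r, y) :=
    (isOpen_Ioi.prod isOpen_univ).mem_nhds ⟨hr, mem_univ _⟩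
  exact ((hu.contDiff_one.contDiffAt h1).differentiableAt (by norm_num)).hasFDerivAt

theorem joint_eq {f : ℝ → ℝ} {U : Set (E N)} {u : ℝ → E N → ℝ}
    (hu : IsClassicalSolution f U u) {r : ℝ} (hr : 0 < r) (y η : E N) :
    fderiv ℝ (unc u) (r, y) (1, η) = deriv (fun s => u s y) r + fderiv ℝ (u r) y η := by
  have h1 := joint_diff hu hr y
  have h2 : HasDerivAt (fun s => u s y) (fderiv ℝ (unc u) (r, y) (1, 0)) r := by
    have h3 : HasDerivAt (fun s : ℝ => (s, y)) ((1:ℝ), (0 : E N)) r :=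
      (hasDerivAt_id r).prodMk (hasDerivAt_const r y)
    exact h1.comp_hasDerivAt r h3
  have h4 : HasFDerivAt (u r) ((fderiv ℝ (unc u) (r, y)).comp
      (ContinuousLinearMap.inr ℝ ℝ (E N))) y := by
    have h5 : HasFDerivAt (fun z : E N => (r, z)) (ContinuousLinearMap.inr ℝ ℝ (E N)) y :=
      hasFDerivAt_prodMk_right r y
    exact h1.comp y h5
  rw [h2.deriv, h4.fderiv]
  simp only [ContinuousLinearMap.comp_apply, ContinuousLinearMap.inr_apply]
  rw [← map_add]
  simp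

theorem wang_alg {f : ℝ → ℝ} {M : ℝ} (hf : NL f M) {p κ c Uv ut L D G2 nη : ℝ} (hp : 1 < p)
    (hc : 0 < c) (hc1 : c ≤ 1) (hU : Uv ∈ Icc (0:ℝ) 1) (hU0 : 0 < Uv) (hG : 0 ≤ G2)
    (hD : D ^ 2 ≤ nη ^ 2 * G2) (hut : ut = L + f Uv)
    (hκ : κ = (p - 1) * M + p * nη ^ 2 / (4 * (p - 1))) :
    (p * Uv ^ (p - 1) * (ut + D)) * c - κ * (Uv ^ p * c) ≤
      c * (p * Uv ^ (p - 1) * L + p * (p - 1) * Uv ^ (p - 2) * G2) + f (Uv ^ p * c) := by
  have hp0 : 0 < p - 1 := by linarith
  have e1 : Uv ^ (p - 1) = Uv ^ (p - 2) * Uv := by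
    rw [← Real.rpow_add_one hU0.ne']
    congr 1
    ring
  have e2 : Uv ^ p = Uv ^ (p - 2) * Uv ^ 2 := by
    rw [← Real.rpow_add_natCast hU0.ne']
    congr 1
    push_cast
    ring
  have hA : 0 < Uv ^ (p - 2) := Real.rpow_pos_of_pos hU0 _
  set a := Uv ^ (p - 2) with ha
  have hfU : f Uv ≤ M * Uv := by
    have h1 := hf.lip Uv hU 0 ⟨le_rfl, zero_le_one⟩
    rw [hf.zero, sub_zero, sub_zero, abs_of_nonneg (hf.nonneg Uv hU), abs_of_pos hU0] at h1
    exact h1
  -- the value v = Uv^p c = λ Uv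
  have hlam : a * Uv * c ∈ Icc (0:ℝ) 1 := by
    constructor
    · positivity
    · rw [← e1]
      exact mul_le_one₀ (Real.rpow_le_one hU.1 hU.2 hp0.le) hc.le hc1
  have h2 := hf.sub _ hlam Uv hU
  have h3 : a * Uv * c * Uv = Uv ^ p * c := by rw [e2]; ring
  rw [h3] at h2
  -- quadratic inequality
  have hq : D * Uv ≤ (p - 1) * G2 + nη ^ 2 * Uv ^ 2 / (4 * (p - 1)) := by
    have h4 : (D * Uv) ^ 2 ≤ ((p - 1) * G2 + nη ^ 2 * Uv ^ 2 / (4 * (p - 1))) ^ 2 := by
      have h5 : (D * Uv) ^ 2 ≤ nη ^ 2 * G2 * Uv ^ 2 := by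
        rw [mul_pow]
        exact mul_le_mul_of_nonneg_right hD (sq_nonneg _)
      have h6 : nη ^ 2 * G2 * Uv ^ 2 = 4 * ((p - 1) * G2) * (nη ^ 2 * Uv ^ 2 / (4 * (p - 1))) := by
        field_simp
      rw [h6] at h5
      nlinarith [sq_nonneg ((p - 1) * G2 - nη ^ 2 * Uv ^ 2 / (4 * (p - 1)))]
    have h7 : 0 ≤ (p - 1) * G2 + nη ^ 2 * Uv ^ 2 / (4 * (p - 1)) := by positivity
    exact (abs_le_of_sq_le_sq' h4 h7).2
  rw [e1, e2, hut, hκ]
  rw [e2] at h2
  have h8 : 0 ≤ a * c * p := by positivity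
  have h9 := mul_le_mul_of_nonneg_left hq h8
  have h10 : 0 ≤ a * c * (p - 1) * Uv := by positivity
  have h11 := mul_le_mul_of_nonneg_left hfU h10
  have h12 : ((p - 1) * M + p * nη ^ 2 / (4 * (p - 1))) * (a * Uv ^ 2 * c) =
      a * c * (p - 1) * Uv * (M * Uv) +
        a * c * p * (nη ^ 2 * Uv ^ 2 / (4 * (p - 1))) := by
    field_simp
  rw [h12]
  nlinarith [h2, h9, h11]

theorem wang {f : ℝ → ℝ} {M : ℝ} (hf : NL f M) {U : Set (E N)} {u : ℝ → E N → ℝ}
    (hu : IsClassicalSolution f U u) (hpos : ∀ t, 0 < t → ∀ x, 0 < u t x)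
    {s t p : ℝ} (hs : 0 < s) (hst : s < t) (hp : 1 < p) (x y : E N) :
    (u t (x + y)) ^ p ≤
      u t x * Real.exp ((p - 1) * M * (t - s) + p * ‖y‖ ^ 2 / (4 * (p - 1) * (t - s))) := by
  have hδ : 0 < t - s := by linarith
  have hp0 : 0 < p - 1 := by linarith
  set η : E N := (t - s)⁻¹ • y with hη
  set κ : ℝ := (p - 1) * M + p * ‖η‖ ^ 2 / (4 * (p - 1)) with hκ
  have hκ0 : 0 ≤ κ := by
    have := hf.M0
    positivity
  -- the moving point
  set q : ℝ × E N → ℝ × E N := fun w => (w.1, w.2 + (w.1 - s) • η) with hq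
  have hqc : Continuous q := by fun_prop
  set v : ℝ → E N → ℝ := fun r z => u r (z + (r - s) • η) ^ p * Real.exp (-(κ * (r - s))) with hv
  set vt : ℝ → E N → ℝ := fun r z =>
    (p * u r (z + (r - s) • η) ^ (p - 1) * fderiv ℝ (unc u) (r, z + (r - s) • η) (1, η)) *
      Real.exp (-(κ * (r - s))) -
      κ * (u r (z + (r - s) • η) ^ p * Real.exp (-(κ * (r - s)))) with hvt
  have hopen : IsOpen (Ioi (0:ℝ) ×ˢ (univ : Set (E N))) := isOpen_Ioi.prod isOpen_univ
  have hucont : ContinuousOn (fun w : ℝ × E N => u w.1 (w.2 + (w.1 - s) • η))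
      (Icc s t ×ˢ univ) := by
    have h1 : ContinuousOn (unc u) (Ioi (0:ℝ) ×ˢ univ) := hu.contDiff_one.continuousOn
    refine h1.comp (f := q) hqc.continuousOn ?_
    rintro ⟨r, z⟩ hr
    exact ⟨lt_of_lt_of_le hs hr.1.1, mem_univ _⟩
  have hec : Continuous (fun w : ℝ × E N => Real.exp (-(κ * (w.1 - s)))) := by fun_prop
  have hreg : Reg v vt s t := by
    refine ⟨?_, ?_, ?_, ?_⟩
    · refine ContinuousOn.mul ?_ hec.continuousOn
      refine hucont.rpow_const ?_
      rintro ⟨r, z⟩ hr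
      exact Or.inl (hpos r (lt_of_lt_of_le hs hr.1.1) _).ne'
    · intro r hr z
      have hr0 : 0 < r := by linarith [hr.1]
      have h1 : HasDerivAt (fun r : ℝ => (r, z + (r - s) • η)) ((1:ℝ), η) r := by
        have h2 : HasDerivAt (fun r : ℝ => z + (r - s) • η) η r := by
          have := ((hasDerivAt_id r).sub_const s).smul_const η
          simpa using this.const_add z
        exact (hasDerivAt_id r).prodMk h2
      have h3 : HasDerivAt (fun r : ℝ => u r (z + (r - s) • η))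
          (fderiv ℝ (unc u) (r, z + (r - s) • η) (1, η)) r := by
        have h0 : HasDerivAt ((unc u) ∘ (fun r : ℝ => (r, z + (r - s) • η)))
            (fderiv ℝ (unc u) (r, z + (r - s) • η) (1, η)) r :=
          HasFDerivAt.comp_hasDerivAt (f := fun r : ℝ => (r, z + (r - s) • η)) r
            (joint_diff hu hr0 (z + (r - s) • η)) h1
        exact h0
      have h4 := h3.rpow_const (p := p) (Or.inl (hpos r hr0 _).ne')
      have h5 : HasDerivAt (fun r : ℝ => Real.exp (-(κ * (r - s))))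
          (Real.exp (-(κ * (r - s))) * (-(κ * 1))) r :=
        ((((hasDerivAt_id r).sub_const s).const_mul κ).neg).exp
      refine (h4.mul h5).congr_deriv ?_
      simp only [hvt]
      ring
    · have h1 : ContinuousOn (fun w : ℝ × E N => fderiv ℝ (unc u) (q w)) (Ioo s t ×ˢ univ) := by
        have h2 : ContinuousOn (fderiv ℝ (unc u)) (Ioi (0:ℝ) ×ˢ univ) :=
          hu.contDiff_one.continuousOn_fderiv_of_isOpen hopen le_rfl
        refine h2.comp (f := q) hqc.continuousOn ?_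
        rintro ⟨r, z⟩ hr
        exact ⟨hs.trans hr.1.1, mem_univ _⟩
      have h3 : ContinuousOn (fun w : ℝ × E N => u w.1 (w.2 + (w.1 - s) • η))
          (Ioo s t ×ˢ univ) :=
        hucont.mono (prod_mono Ioo_subset_Icc_self le_rfl)
      have h4 : ∀ a : ℝ, ContinuousOn (fun w : ℝ × E N => u w.1 (w.2 + (w.1 - s) • η) ^ a)
          (Ioo s t ×ˢ univ) := by
        intro a
        refine h3.rpow_const ?_
        rintro ⟨r, z⟩ hr
        exact Or.inl (hpos r (hs.trans hr.1.1) _).ne'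
      refine ContinuousOn.sub (ContinuousOn.mul (ContinuousOn.mul (continuousOn_const.mul (h4 _))
        (h1.clm_apply continuousOn_const)) hec.continuousOn)
        (continuousOn_const.mul ((h4 _).mul hec.continuousOn))
    · intro r hr
      have hr0 : 0 < r := by linarith [hr.1]
      refine ContDiff.mul ?_ contDiff_const
      refine ContDiff.rpow_const_of_ne ?_ (fun z => (hpos r hr0 _).ne')
      exact (hu.contDiff_two r hr0).comp (contDiff_id.add contDiff_const)
  have hv01 : ∀ r ∈ Icc s t, ∀ z, v r z ∈ Icc (0:ℝ) 1 := by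
    intro r hr z
    have hr0 : 0 < r := lt_of_lt_of_le hs hr.1
    have h1 := hu.range r hr0 (z + (r - s) • η)
    refine ⟨by simp only [hv]; have := h1.1; positivity, ?_⟩
    refine mul_le_one₀ (Real.rpow_le_one h1.1 h1.2 (by linarith)) (Real.exp_pos _).le ?_
    rw [Real.exp_le_one_iff]
    have := mul_nonneg hκ0 (sub_nonneg.mpr hr.1)
    linarith
  have hsub : ∀ r ∈ Ioo s t, ∀ z, vt r z ≤ Δ (v r) z + f (v r z) := by
    intro r hr z
    have hr0 : 0 < r := by linarith [hr.1]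
    have hC : ContDiff ℝ 2 (fun z => u r (z + (r - s) • η)) :=
      (hu.contDiff_two r hr0).comp (contDiff_id.add contDiff_const)
    have h1 : Δ (v r) z = Real.exp (-(κ * (r - s))) *
        (p * u r (z + (r - s) • η) ^ (p - 1) * Δ (u r) (z + (r - s) • η) +
          p * (p - 1) * u r (z + (r - s) • η) ^ (p - 2) *
            gsq (fun z => u r (z + (r - s) • η)) z) := by
      have h2 : v r = (Real.exp (-(κ * (r - s)))) • (fun z => u r (z + (r - s) • η) ^ p) := by
        funext z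
        simp only [hv, Pi.smul_apply, smul_eq_mul]
        ring
      rw [h2, InnerProductSpace.laplacian_smul _
        (ContDiff.rpow_const_of_ne hC (fun z => (hpos r hr0 _).ne')).contDiffAt,
        laplacian_rpow hC (fun z => hpos r hr0 _)]
      have h3 : Δ (fun z => u r (z + (r - s) • η)) z = Δ (u r) (z + (r - s) • η) := by
        rw [InnerProductSpace.laplacian_eq_iteratedFDeriv_stdOrthonormalBasis,
          InnerProductSpace.laplacian_eq_iteratedFDeriv_stdOrthonormalBasis]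
        simp only [iteratedFDeriv_comp_add_right]
      rw [h3, smul_eq_mul]
    have h4 : fderiv ℝ (fun z => u r (z + (r - s) • η)) z = fderiv ℝ (u r) (z + (r - s) • η) :=
      fderiv_comp_add_right _
    have h5 := fderiv_le_gsq (fun z => u r (z + (r - s) • η)) z η
    rw [h4] at h5
    rw [h1]
    simp only [hvt, hv]
    rw [joint_eq hu hr0]
    refine wang_alg hf hp (Real.exp_pos _) ?_ (hu.range r hr0 _) (hpos r hr0 _)
      (Finset.sum_nonneg fun i _ => sq_nonneg _) h5 (hu.eq r hr0 _) hκ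
    rw [Real.exp_le_one_iff]
    have := mul_nonneg hκ0 (sub_nonneg.mpr hr.1.le)
    linarith
  have key := compare hf hst hreg (hu.reg hs) hv01
    (fun r hr y => hu.range r (lt_of_lt_of_le hs hr.1) y) hsub
    (fun r hr y => (hu.eq r (hs.trans hr.1) y).ge) x
  have hz : (fun y => max (v s y - u s y) 0) = fun _ => (0:ℝ) := by
    funext z
    apply max_eq_right
    simp only [hv, sub_self, zero_smul, add_zero, mul_zero, neg_zero, Real.exp_zero, mul_one]
    have h1 := hu.range s hs z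
    have h2 : u s z ^ p ≤ u s z ^ (1:ℝ) :=
      Real.rpow_le_rpow_of_exponent_ge (hpos s hs z) h1.2 hp.le
    rw [Real.rpow_one] at h2
    linarith
  rw [hz, heatP_const hδ, mul_zero] at key
  have h6 : (t - s) • η = y := by
    rw [hη, smul_smul, mul_inv_cancel₀ hδ.ne', one_smul]
  have h7 : v t x = u t (x + y) ^ p * Real.exp (-(κ * (t - s))) := by
    simp only [hv, h6]
  rw [h7] at key
  have h8 : κ * (t - s) = (p - 1) * M * (t - s) + p * ‖y‖ ^ 2 / (4 * (p - 1) * (t - s)) := by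
    have h9 : ‖η‖ = ‖y‖ / (t - s) := by
      rw [hη, norm_smul, norm_inv, Real.norm_eq_abs, abs_of_pos hδ]
      ring
    rw [hκ, h9]
    field_simp
  rw [← h8]
  have h10 : u t (x + y) ^ p * Real.exp (-(κ * (t - s))) ≤ u t x := by linarith
  have h11 := mul_le_mul_of_nonneg_right h10 (Real.exp_pos (κ * (t - s))).le
  rwa [mul_assoc, ← Real.exp_add, neg_add_cancel, Real.exp_zero, mul_one] at h11

end

end Pool.Agent.T2H75.FK
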